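import Pool.Agent.SQ.Stmts

/-! Calculus module: from a pointwise comparison of sums of arctangents to a comparison of
sums of signed squares. -/

namespace Pool.Agent.SQ.IntX

open Filter Topology Real Set

/-- the primitive of `x * arctan (l / x)` -/
noncomputable def Pfun (l x : ℝ) : ℝ := ((x ^ 2 + l ^ 2) * arctan (l / x) + l * x) / 2

theorem hasDerivAt_Pfun (l x : ℝ) (hx : 0 < x) :
    HasDerivAt (Pfun l) (x * arctan (l / x)) x := by
  have hx0 : x ≠ 0 := hx.ne'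
  have h1 : HasDerivAt (fun y : ℝ => l / y) (-l / x ^ 2) x := by
    have h := (hasDerivAt_inv hx0).const_mul l
    have e1 : (fun y : ℝ => l * y⁻¹) = fun y : ℝ => l / y := by
      funext y; rw [div_eq_mul_inv]
    rw [e1] at h
    have e2 : l * -(x ^ 2)⁻¹ = -l / x ^ 2 := by
      field_simp
    rw [e2] at h
    exact h
  have h2 := h1.arctan
  have h3 : HasDerivAt (fun y : ℝ => y ^ 2 + l ^ 2) (2 * x) x := by
    have h := ((hasDerivAt_id x).pow 2).add_const (l ^ 2)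
    simpa using h
  have h4 := ((h3.mul h2).add ((hasDerivAt_id x).const_mul l)).div_const 2
  have e3 : ((2 * x * arctan (l / x) + (x ^ 2 + l ^ 2) * (1 / (1 + (l / x) ^ 2) * (-l / x ^ 2))) +
      l * 1) / 2 = x * arctan (l / x) := by
    have hp : x ^ 2 + l ^ 2 ≠ 0 := by positivity
    have e4 : 1 + (l / x) ^ 2 = (x ^ 2 + l ^ 2) / x ^ 2 := by
      field_simp
    rw [e4]
    field_simp
    ring
  rw [e3] at h4
  exact h4

theorem tendsto_Pfun_zero (l : ℝ) :
    Tendsto (Pfun l) (𝓝[>] 0) (𝓝 (π / 4 * (l * |l|))) := by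
  have hb : Tendsto (fun x : ℝ => x) (𝓝[>] (0:ℝ)) (𝓝 0) :=
    tendsto_nhdsWithin_of_tendsto_nhds tendsto_id
  have hinv : Tendsto (fun x : ℝ => x⁻¹) (𝓝[>] (0:ℝ)) atTop := tendsto_inv_nhdsGT_zero
  rcases lt_trichotomy l 0 with hl | hl | hl
  · have h1 : Tendsto (fun x : ℝ => l / x) (𝓝[>] (0:ℝ)) atBot := by
      have := hinv.const_mul_atTop_of_neg hl
      simpa [div_eq_mul_inv] using this
    have h2 : Tendsto (fun x : ℝ => arctan (l / x)) (𝓝[>] (0:ℝ)) (𝓝 (-(π / 2))) :=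
      (tendsto_arctan_atBot.mono_right nhdsWithin_le_nhds).comp h1
    have h3 := (((hb.pow 2).add_const (l ^ 2)).mul h2).add (hb.const_mul l)
    have h4 := h3.div_const 2
    have e : ((0 ^ 2 + l ^ 2) * -(π / 2) + l * 0) / 2 = π / 4 * (l * |l|) := by
      rw [abs_of_neg hl]; ring
    rw [e] at h4
    exact h4
  · subst hl
    have : Pfun 0 = fun x : ℝ => 0 := by
      funext x; simp [Pfun]
    rw [this]; simp
  · have h1 : Tendsto (fun x : ℝ => l / x) (𝓝[>] (0:ℝ)) atTop := by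
      have := hinv.const_mul_atTop hl
      simpa [div_eq_mul_inv] using this
    have h2 : Tendsto (fun x : ℝ => arctan (l / x)) (𝓝[>] (0:ℝ)) (𝓝 (π / 2)) :=
      (tendsto_arctan_atTop.mono_right nhdsWithin_le_nhds).comp h1
    have h3 := (((hb.pow 2).add_const (l ^ 2)).mul h2).add (hb.const_mul l)
    have h4 := h3.div_const 2
    have e : ((0 ^ 2 + l ^ 2) * (π / 2) + l * 0) / 2 = π / 4 * (l * |l|) := by
      rw [abs_of_pos hl]; ring
    rw [e] at h4
    exact h4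

theorem mono_aux1 : Monotone (fun t : ℝ => arctan t - t / (1 + t ^ 2)) := by
  have hd : ∀ t : ℝ, HasDerivAt (fun t : ℝ => arctan t - t / (1 + t ^ 2))
      (2 * t ^ 2 / (1 + t ^ 2) ^ 2) t := by
    intro t
    have h0 : (1 + t ^ 2) ≠ 0 := by positivity
    have h1 := hasDerivAt_arctan t
    have h2 : HasDerivAt (fun y : ℝ => 1 + y ^ 2) (2 * t) t := by
      have h := ((hasDerivAt_id t).pow 2).const_add 1
      simpa using h
    have h3 := h1.sub ((hasDerivAt_id t).div h2 h0)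
    have e : 1 / (1 + t ^ 2) - (1 * (1 + t ^ 2) - id t * (2 * t)) / (1 + t ^ 2) ^ 2 =
        2 * t ^ 2 / (1 + t ^ 2) ^ 2 := by
      simp only [id]
      field_simp
      ring
    rw [e] at h3
    exact h3
  apply monotone_of_deriv_nonneg
  · intro t; exact (hd t).differentiableAt
  · intro t
    rw [(hd t).deriv]
    positivity

theorem mono_aux2 : Monotone (fun t : ℝ => t - arctan t) := by
  have hd : ∀ t : ℝ, HasDerivAt (fun t : ℝ => t - arctan t)
      (t ^ 2 / (1 + t ^ 2)) t := by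
    intro t
    have h0 : (1 + t ^ 2) ≠ 0 := by positivity
    have h3 := (hasDerivAt_id t).sub (hasDerivAt_arctan t)
    have e : 1 - 1 / (1 + t ^ 2) = t ^ 2 / (1 + t ^ 2) := by
      field_simp
      ring
    rw [e] at h3
    exact h3
  apply monotone_of_deriv_nonneg
  · intro t; exact (hd t).differentiableAt
  · intro t
    rw [(hd t).deriv]
    positivity

theorem abs_Pfun_sub_le (l x : ℝ) (hx : 0 < x) :
    |Pfun l x - l * x| ≤ |l| ^ 3 / x := by
  have key : ∀ a : ℝ, 0 ≤ a → |Pfun a x - a * x| ≤ a ^ 3 / x := by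
    intro a ha
    have ht : 0 ≤ a / x := by positivity
    have h1 : 0 ≤ arctan (a / x) - (a / x) / (1 + (a / x) ^ 2) := by
      have := mono_aux1 ht
      simpa using this
    have h2 : 0 ≤ a / x - arctan (a / x) := by
      have := mono_aux2 ht
      simpa using this
    have hp : 0 < x ^ 2 + a ^ 2 := by positivity
    have e1 : (x ^ 2 + a ^ 2) * ((a / x) / (1 + (a / x) ^ 2)) = a * x := by
      have e4 : 1 + (a / x) ^ 2 = (x ^ 2 + a ^ 2) / x ^ 2 := by
        field_simp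
      rw [e4]
      field_simp
    have h3 : a * x ≤ (x ^ 2 + a ^ 2) * arctan (a / x) := by
      rw [← e1]
      exact mul_le_mul_of_nonneg_left (by linarith) hp.le
    have e2 : (x ^ 2 + a ^ 2) * (a / x) = a * x + a ^ 3 / x := by
      field_simp
    have h4 : (x ^ 2 + a ^ 2) * arctan (a / x) ≤ a * x + a ^ 3 / x := by
      rw [← e2]
      exact mul_le_mul_of_nonneg_left (by linarith) hp.le
    have h5 : 0 ≤ a ^ 3 / x := by positivity
    rw [abs_le]
    unfold Pfun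
    constructor <;> linarith
  rcases le_total 0 l with hl | hl
  · rw [abs_of_nonneg hl]; exact key l hl
  · have h := key (-l) (by linarith)
    rw [abs_of_nonpos hl]
    have e : Pfun l x - l * x = -(Pfun (-l) x - -l * x) := by
      unfold Pfun
      rw [neg_div, arctan_neg]; ring
    rw [e, abs_neg]
    exact h

theorem tendsto_Pfun_atTop (l : ℝ) :
    Tendsto (fun x => Pfun l x - l * x) atTop (𝓝 0) := by
  have h1 : Tendsto (fun x : ℝ => |l| ^ 3 / x) atTop (𝓝 0) :=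
    tendsto_const_nhds.div_atTop tendsto_id
  apply squeeze_zero_norm' _ h1
  filter_upwards [eventually_gt_atTop 0] with x hx
  rw [Real.norm_eq_abs]
  exact abs_Pfun_sub_le l x hx

/-- `g^2 / (2 x (x^2+g) sqrt(x^2+2g))` -/
noncomputable def kpx (g x : ℝ) : ℝ := g ^ 2 / (2 * x * (x ^ 2 + g) * √(x ^ 2 + 2 * g))

/-- the primitive of `x * arctan (kpx g x)` -/
noncomputable def Gfun (g x : ℝ) : ℝ :=
  ((x ^ 2 + g) * arctan (kpx g x) + √2 * g * arctan (√2 * (x * √(x ^ 2 + 2 * g)) / g)) / 2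

theorem kpx_pos (g x : ℝ) (hg : 0 < g) (hx : 0 < x) : 0 < kpx g x := by
  have : 0 < √(x ^ 2 + 2 * g) := Real.sqrt_pos.2 (by positivity)
  unfold kpx; positivity

theorem hasDerivAt_Gfun (g x : ℝ) (hg : 0 < g) (hx : 0 < x) :
    HasDerivAt (Gfun g) (x * arctan (kpx g x)) x := by
  have hx0 : x ≠ 0 := hx.ne'
  have hg0 : g ≠ 0 := hg.ne'
  have hr0 : 0 < x ^ 2 + 2 * g := by positivity
  obtain ⟨r, hr, hrp⟩ : ∃ r, √(x ^ 2 + 2 * g) = r ∧ 0 < r := ⟨_, rfl, Real.sqrt_pos.2 hr0⟩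
  have hr2 : r ^ 2 = x ^ 2 + 2 * g := by rw [← hr]; exact Real.sq_sqrt hr0.le
  have hrne : r ≠ 0 := hrp.ne'
  obtain ⟨q, hq, hqp⟩ : ∃ q, √2 = q ∧ 0 < q := ⟨_, rfl, Real.sqrt_pos.2 (by norm_num)⟩
  have hq2 : q ^ 2 = 2 := by rw [← hq]; exact Real.sq_sqrt (by norm_num)
  have hsq : HasDerivAt (fun y : ℝ => √(y ^ 2 + 2 * g)) (x / r) x := by
    have h1 : HasDerivAt (fun y : ℝ => y ^ 2 + 2 * g) (2 * x) x := by
      have h := ((hasDerivAt_id x).pow 2).add_const (2 * g)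
      simpa using h
    have h2 := h1.sqrt hr0.ne'
    rw [hr] at h2
    have e : 2 * x / (2 * r) = x / r := by field_simp
    rw [e] at h2
    exact h2
  have hw : HasDerivAt (fun y : ℝ => y * √(y ^ 2 + 2 * g)) (r + x ^ 2 / r) x := by
    have h := (hasDerivAt_id x).mul hsq
    have e : 1 * √(x ^ 2 + 2 * g) + id x * (x / r) = r + x ^ 2 / r := by
      rw [hr]; simp only [id]; ring
    rw [e] at h
    exact h
  have hc : HasDerivAt (fun y : ℝ => y ^ 2 + g) (2 * x) x := by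
    have h := ((hasDerivAt_id x).pow 2).add_const g
    simpa using h
  have hden : HasDerivAt (fun y : ℝ => 2 * y * (y ^ 2 + g) * √(y ^ 2 + 2 * g))
      (2 * (2 * x * (x * r) + (x ^ 2 + g) * (r + x ^ 2 / r))) x := by
    have h := (hc.mul hw).const_mul 2
    have e1 : (fun y : ℝ => 2 * ((fun y : ℝ => y ^ 2 + g) * fun y : ℝ => y * √(y ^ 2 + 2 * g)) y) =
        fun y : ℝ => 2 * y * (y ^ 2 + g) * √(y ^ 2 + 2 * g) := by
      funext y; simp only [Pi.mul_apply]; ring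
    rw [e1, hr] at h
    exact h
  have hdne : 2 * x * (x ^ 2 + g) * √(x ^ 2 + 2 * g) ≠ 0 := by
    rw [hr]; positivity
  have hk : HasDerivAt (kpx g)
      (-(g ^ 2 * (2 * (2 * x * (x * r) + (x ^ 2 + g) * (r + x ^ 2 / r)))) /
        (2 * x * (x ^ 2 + g) * r) ^ 2) x := by
    have h := (hasDerivAt_const x (g ^ 2)).div hden hdne
    rw [hr] at h
    have e : (0 * (2 * x * (x ^ 2 + g) * r) -
        g ^ 2 * (2 * (2 * x * (x * r) + (x ^ 2 + g) * (r + x ^ 2 / r)))) /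
        (2 * x * (x ^ 2 + g) * r) ^ 2 =
        (-(g ^ 2 * (2 * (2 * x * (x * r) + (x ^ 2 + g) * (r + x ^ 2 / r)))) /
        (2 * x * (x ^ 2 + g) * r) ^ 2) := by
      rw [zero_mul, zero_sub]
    rw [e] at h
    exact h
  have hA := hc.mul hk.arctan
  have hB := ((hw.const_mul q).div_const g).arctan.const_mul (q * g)
  have hAB := (hA.add hB).div_const 2
  have e0 : (fun y : ℝ => (((fun y : ℝ => y ^ 2 + g) * fun y => arctan (kpx g y)) y +
      q * g * arctan (q * (y * √(y ^ 2 + 2 * g)) / g)) / 2) = Gfun g := by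
    funext y; simp only [Gfun, Pi.mul_apply, hq]
  have hkx : kpx g x = g ^ 2 / (2 * x * (x ^ 2 + g) * r) := by rw [kpx, hr]
  have hs : 0 < x ^ 2 + g := by positivity
  have hM : 0 < 2 * (x ^ 2 + g) ^ 2 - g ^ 2 := by nlinarith [sq_nonneg x, mul_pos hg (sq_pos_of_pos hx)]
  have hxr : x ^ 2 * r ^ 2 = (x ^ 2 + g) ^ 2 - g ^ 2 := by rw [hr2]; ring
  have k1 : 1 + kpx g x ^ 2 = (2 * (x ^ 2 + g) ^ 2 - g ^ 2) ^ 2 / (4 * (x ^ 2 + g) ^ 2 * (x ^ 2 * r ^ 2)) := by
    rw [hkx, div_pow]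
    have e1 : (2 * x * (x ^ 2 + g) * r) ^ 2 = 4 * (x ^ 2 + g) ^ 2 * (x ^ 2 * r ^ 2) := by ring
    rw [e1]
    have hne : 4 * (x ^ 2 + g) ^ 2 * (x ^ 2 * r ^ 2) ≠ 0 := by positivity
    rw [eq_div_iff hne, add_mul, div_mul_cancel₀ _ hne, hxr]
    ring
  have k2 : -(g ^ 2 * (2 * (2 * x * (x * r) + (x ^ 2 + g) * (r + x ^ 2 / r)))) /
        (2 * x * (x ^ 2 + g) * r) ^ 2 =
        -(g ^ 2 * (2 * (x ^ 2 + g) ^ 2 - g ^ 2)) / (x ^ 2 * (x ^ 2 + g) ^ 2 * r ^ 3) := by
    have e1 : r + x ^ 2 / r = 2 * (x ^ 2 + g) / r := by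
      rw [eq_div_iff hrne, add_mul, div_mul_cancel₀ _ hrne]
      nlinarith [hr2]
    have e2 : 2 * x * (x * r) + (x ^ 2 + g) * (r + x ^ 2 / r) =
        2 * (2 * (x ^ 2 + g) ^ 2 - g ^ 2) / r := by
      rw [e1, eq_div_iff hrne]
      have : (x ^ 2 + g) * (2 * (x ^ 2 + g) / r) * r = 2 * (x ^ 2 + g) ^ 2 := by
        field_simp
      rw [add_mul, this]
      nlinarith [hxr]
    rw [e2]
    field_simp
  have k3 : 1 + (q * (x * r) / g) ^ 2 = (2 * (x ^ 2 + g) ^ 2 - g ^ 2) / g ^ 2 := by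
    have e1 : (q * (x * r) / g) ^ 2 = 2 * (x ^ 2 * r ^ 2) / g ^ 2 := by
      rw [div_pow, mul_pow, hq2]; ring
    rw [e1, hxr]
    field_simp
    ring
  have k4 : r + x ^ 2 / r = 2 * (x ^ 2 + g) / r := by
    rw [eq_div_iff hrne, add_mul, div_mul_cancel₀ _ hrne]
    nlinarith [hr2]
  have hsum : (2 * x * arctan (kpx g x) + (x ^ 2 + g) * (1 / (1 + kpx g x ^ 2) *
      (-(g ^ 2 * (2 * (2 * x * (x * r) + (x ^ 2 + g) * (r + x ^ 2 / r)))) /
        (2 * x * (x ^ 2 + g) * r) ^ 2)) +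
      q * g * (1 / (1 + (q * (x * √(x ^ 2 + 2 * g)) / g) ^ 2) * (q * (r + x ^ 2 / r) / g))) / 2
      = x * arctan (kpx g x) := by
    rw [hr, k1, k2, k3, k4]
    have E1 : (x ^ 2 + g) * (1 / ((2 * (x ^ 2 + g) ^ 2 - g ^ 2) ^ 2 /
        (4 * (x ^ 2 + g) ^ 2 * (x ^ 2 * r ^ 2))) *
        (-(g ^ 2 * (2 * (x ^ 2 + g) ^ 2 - g ^ 2)) / (x ^ 2 * (x ^ 2 + g) ^ 2 * r ^ 3))) =
        -(4 * (x ^ 2 + g) * g ^ 2 / (r * (2 * (x ^ 2 + g) ^ 2 - g ^ 2))) := by
      field_simp
    have E2 : q * g * (1 / ((2 * (x ^ 2 + g) ^ 2 - g ^ 2) / g ^ 2) *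
        (q * (2 * (x ^ 2 + g) / r) / g)) =
        4 * (x ^ 2 + g) * g ^ 2 / (r * (2 * (x ^ 2 + g) ^ 2 - g ^ 2)) := by
      have : q * g * (1 / ((2 * (x ^ 2 + g) ^ 2 - g ^ 2) / g ^ 2) *
        (q * (2 * (x ^ 2 + g) / r) / g)) =
        q ^ 2 * (2 * (x ^ 2 + g) * g ^ 2 / (r * (2 * (x ^ 2 + g) ^ 2 - g ^ 2))) := by
        field_simp
      rw [this, hq2]
      field_simp
      ring
    rw [E1, E2]
    ring
  rw [← e0, ← hsum]
  exact hAB

theorem tendsto_Gfun_zero (g : ℝ) (hg : 0 < g) :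
    Tendsto (Gfun g) (𝓝[>] 0) (𝓝 (π / 4 * g)) := by
  have hb : Tendsto (fun x : ℝ => x) (𝓝[>] (0:ℝ)) (𝓝 0) :=
    tendsto_nhdsWithin_of_tendsto_nhds tendsto_id
  have hcr : Tendsto (fun x : ℝ => √(x ^ 2 + 2 * g)) (𝓝[>] (0:ℝ)) (𝓝 (√(0 ^ 2 + 2 * g))) :=
    ((hb.pow 2).add_const (2 * g)).sqrt
  have hr0 : 0 < √(0 ^ 2 + 2 * g) := Real.sqrt_pos.2 (by positivity)
  have hinv : Tendsto (fun x : ℝ => x⁻¹) (𝓝[>] (0:ℝ)) atTop := tendsto_inv_nhdsGT_zero
  have hf : Tendsto (fun x : ℝ => g ^ 2 / (2 * (x ^ 2 + g) * √(x ^ 2 + 2 * g))) (𝓝[>] (0:ℝ))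
      (𝓝 (g ^ 2 / (2 * (0 ^ 2 + g) * √(0 ^ 2 + 2 * g)))) := by
    apply Tendsto.div tendsto_const_nhds
    · exact ((((hb.pow 2).add_const g).const_mul 2).mul hcr)
    · positivity
  have hk : Tendsto (kpx g) (𝓝[>] (0:ℝ)) atTop := by
    have h := hinv.atTop_mul_pos (by positivity) hf
    refine h.congr' ?_
    filter_upwards [self_mem_nhdsWithin] with x hx
    have hx' : (0:ℝ) < x := hx
    have hr : 0 < √(x ^ 2 + 2 * g) := Real.sqrt_pos.2 (by positivity)
    have hs : 0 < x ^ 2 + g := by positivity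
    unfold kpx
    field_simp
  have h1 : Tendsto (fun x : ℝ => arctan (kpx g x)) (𝓝[>] (0:ℝ)) (𝓝 (π / 2)) :=
    (tendsto_arctan_atTop.mono_right nhdsWithin_le_nhds).comp hk
  have h2 : Tendsto (fun x : ℝ => arctan (√2 * (x * √(x ^ 2 + 2 * g)) / g)) (𝓝[>] (0:ℝ))
      (𝓝 (arctan (√2 * (0 * √(0 ^ 2 + 2 * g)) / g))) :=
    (continuous_arctan.tendsto _).comp (((hb.mul hcr).const_mul √2).div_const g)
  have h3 := ((((hb.pow 2).add_const g).mul h1).add (h2.const_mul (√2 * g))).div_const 2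
  have e : ((0 ^ 2 + g) * (π / 2) + √2 * g * arctan (√2 * (0 * √(0 ^ 2 + 2 * g)) / g)) / 2 =
      π / 4 * g := by
    simp
    ring
  rw [e] at h3
  exact h3

theorem tendsto_Gfun_atTop (g : ℝ) (hg : 0 < g) :
    Tendsto (Gfun g) atTop (𝓝 (√2 * (π / 4 * g))) := by
  have hr1 : ∀ x : ℝ, 0 < x → x ≤ √(x ^ 2 + 2 * g) := by
    intro x hx
    apply Real.le_sqrt_of_sq_le
    linarith
  have h1 : Tendsto (fun x : ℝ => (x ^ 2 + g) * arctan (kpx g x)) atTop (𝓝 0) := by
    have h0 : Tendsto (fun x : ℝ => g ^ 2 / x ^ 2) atTop (𝓝 0) :=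
      tendsto_const_nhds.div_atTop (tendsto_pow_atTop (by norm_num))
    apply squeeze_zero' _ _ h0
    · filter_upwards [eventually_gt_atTop 0] with x hx
      have := kpx_pos g x hg hx
      have h2 : 0 ≤ arctan (kpx g x) := arctan_nonneg.2 this.le
      positivity
    · filter_upwards [eventually_gt_atTop 0] with x hx
      have hk := kpx_pos g x hg hx
      have h2 : arctan (kpx g x) ≤ kpx g x := by
        have := mono_aux2 hk.le
        simp at this
        linarith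
      have hs : 0 < x ^ 2 + g := by positivity
      have hr := hr1 x hx
      have hrp : 0 < √(x ^ 2 + 2 * g) := lt_of_lt_of_le hx hr
      calc (x ^ 2 + g) * arctan (kpx g x) ≤ (x ^ 2 + g) * kpx g x :=
            mul_le_mul_of_nonneg_left h2 hs.le
        _ = g ^ 2 / (2 * x * √(x ^ 2 + 2 * g)) := by
            unfold kpx; field_simp
        _ ≤ g ^ 2 / x ^ 2 := by
            apply div_le_div_of_nonneg_left (by positivity) (by positivity)
            nlinarith [mul_le_mul_of_nonneg_left hr hx.le, mul_pos hx hrp]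
  have h2 : Tendsto (fun x : ℝ => arctan (√2 * (x * √(x ^ 2 + 2 * g)) / g)) atTop (𝓝 (π / 2)) := by
    have h3 : Tendsto (fun x : ℝ => √2 * (x * √(x ^ 2 + 2 * g)) / g) atTop atTop := by
      have h4 : Tendsto (fun x : ℝ => x * √(x ^ 2 + 2 * g)) atTop atTop := by
        apply tendsto_atTop_mono' _ _ (tendsto_pow_atTop (α := ℝ) (n := 2) (by norm_num))
        filter_upwards [eventually_gt_atTop 0] with x hx
        have hr := hr1 x hx
        nlinarith [mul_le_mul_of_nonneg_left hr hx.le]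
      exact (h4.const_mul_atTop (by positivity)).atTop_div_const hg
    exact (tendsto_arctan_atTop.mono_right nhdsWithin_le_nhds).comp h3
  have h3 := (h1.add (h2.const_mul (√2 * g))).div_const 2
  have e : (0 + √2 * g * (π / 2)) / 2 = √2 * (π / 4 * g) := by ring
  rw [e] at h3
  exact h3

/-- The comparison: a pointwise arctangent inequality gives an inequality for the sums of
signed squares. -/
theorem signed_sq_of_arctan {ι κ : Type*} [Fintype ι] [Fintype κ] (lam : ι → ℝ) (mu : κ → ℝ)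
    (g : ℝ) (hg : 0 < g) (hlam : ∑ j, lam j = 0) (hmu : ∑ i, mu i = 0)
    (h : ∀ x : ℝ, 0 < x → ∑ j, arctan (lam j / x) ≤ ∑ i, arctan (mu i / x) +
      arctan (g ^ 2 / (2 * x * (x ^ 2 + g) * √(x ^ 2 + 2 * g)))) :
    ∑ i, mu i * |mu i| - (√2 - 1) * g ≤ ∑ j, lam j * |lam j| := by
  have hderiv : ∀ x : ℝ, 0 < x →
      HasDerivAt (fun x => Gfun g x + ∑ i, (Pfun (mu i) x - mu i * x) -
        ∑ j, (Pfun (lam j) x - lam j * x))
      (x * arctan (kpx g x) + ∑ i, (x * arctan (mu i / x) - mu i) -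
        ∑ j, (x * arctan (lam j / x) - lam j)) x := by
    intro x hx
    have hP : ∀ l : ℝ, HasDerivAt (fun x => Pfun l x - l * x) (x * arctan (l / x) - l) x := by
      intro l
      have h1 := (hasDerivAt_Pfun l x hx).sub ((hasDerivAt_id x).const_mul l)
      rw [mul_one] at h1
      exact h1
    exact ((hasDerivAt_Gfun g x hg hx).add (HasDerivAt.fun_sum fun i _ => hP (mu i))).sub
      (HasDerivAt.fun_sum fun j _ => hP (lam j))
  have hnn : ∀ x : ℝ, 0 < x →
      0 ≤ x * arctan (kpx g x) + ∑ i, (x * arctan (mu i / x) - mu i) -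
        ∑ j, (x * arctan (lam j / x) - lam j) := by
    intro x hx
    have h1 := h x hx
    rw [Finset.sum_sub_distrib, Finset.sum_sub_distrib, hlam, hmu, ← Finset.mul_sum,
      ← Finset.mul_sum]
    have h2 := mul_le_mul_of_nonneg_left h1 hx.le
    unfold kpx
    linarith
  have hmono : MonotoneOn (fun x => Gfun g x + ∑ i, (Pfun (mu i) x - mu i * x) -
        ∑ j, (Pfun (lam j) x - lam j * x)) (Ioi 0) := by
    apply monotoneOn_of_deriv_nonneg (convex_Ioi 0)
    · intro x hx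
      exact (hderiv x hx).continuousAt.continuousWithinAt
    · intro x hx
      rw [interior_Ioi] at hx
      exact (hderiv x hx).differentiableAt.differentiableWithinAt
    · intro x hx
      rw [interior_Ioi] at hx
      rw [(hderiv x hx).deriv]
      exact hnn x hx
  have hb : Tendsto (fun x : ℝ => x) (𝓝[>] (0:ℝ)) (𝓝 0) :=
    tendsto_nhdsWithin_of_tendsto_nhds tendsto_id
  have hP0 : ∀ l : ℝ, Tendsto (fun x => Pfun l x - l * x) (𝓝[>] 0) (𝓝 (π / 4 * (l * |l|))) := by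
    intro l
    have := (tendsto_Pfun_zero l).sub (hb.const_mul l)
    rw [mul_zero, sub_zero] at this
    exact this
  have hlim0 : Tendsto (fun x => Gfun g x + ∑ i, (Pfun (mu i) x - mu i * x) -
        ∑ j, (Pfun (lam j) x - lam j * x)) (𝓝[>] 0)
        (𝓝 (π / 4 * g + ∑ i, π / 4 * (mu i * |mu i|) - ∑ j, π / 4 * (lam j * |lam j|))) :=
    ((tendsto_Gfun_zero g hg).add (tendsto_finsetSum _ fun i _ => hP0 (mu i))).sub
      (tendsto_finsetSum _ fun j _ => hP0 (lam j))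
  have hlim1 : Tendsto (fun x => Gfun g x + ∑ i, (Pfun (mu i) x - mu i * x) -
        ∑ j, (Pfun (lam j) x - lam j * x)) atTop
        (𝓝 (√2 * (π / 4 * g) + ∑ i : κ, 0 - ∑ j : ι, 0)) :=
    ((tendsto_Gfun_atTop g hg).add (tendsto_finsetSum _ fun i _ => tendsto_Pfun_atTop (mu i))).sub
      (tendsto_finsetSum _ fun j _ => tendsto_Pfun_atTop (lam j))
  have hle : π / 4 * g + ∑ i, π / 4 * (mu i * |mu i|) - ∑ j, π / 4 * (lam j * |lam j|) ≤
      √2 * (π / 4 * g) + ∑ i : κ, 0 - ∑ j : ι, 0 := by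
    have h1 : ∀ x : ℝ, 0 < x →
        π / 4 * g + ∑ i, π / 4 * (mu i * |mu i|) - ∑ j, π / 4 * (lam j * |lam j|) ≤
        Gfun g x + ∑ i, (Pfun (mu i) x - mu i * x) - ∑ j, (Pfun (lam j) x - lam j * x) := by
      intro x hx
      apply le_of_tendsto hlim0
      filter_upwards [Ioo_mem_nhdsGT hx] with y hy
      exact hmono hy.1 hx hy.2.le
    apply ge_of_tendsto hlim1
    filter_upwards [eventually_gt_atTop 0] with x hx
    exact h1 x hx
  simp only [Finset.sum_const_zero, add_zero, sub_zero] at hle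
  rw [← Finset.mul_sum, ← Finset.mul_sum] at hle
  have hpi : 0 < π / 4 := by positivity
  have h5 : π / 4 * (∑ i, mu i * |mu i| - (√2 - 1) * g) ≤ π / 4 * ∑ j, lam j * |lam j| := by
    linarith
  exact le_of_mul_le_mul_left h5 hpi

end Pool.Agent.SQ.IntX

namespace Pool.Agent.SQ

/-- Comparison of `Σ λ|λ|` from comparison of the arguments. -/
theorem int_proof : Stmt_Int := by
  intro ι _ l u m hm hl hu h
  have h1 := IntX.signed_sq_of_arctan l u m hm hl hu (by
    intro x hx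
    have h2 := h x hx
    unfold tau at h2
    linarith)
  have e : 2 * kap * m = (Real.sqrt 2 - 1) * m := by
    unfold kap; ring
  rw [e]
  exact h1

end Pool.Agent.SQ
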