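import Pool.Agent.SQ.Stmts

/-!
# The bound for the pivot
-/

namespace Pool.Agent.SQ

open Finset

namespace PivX

variable {V : Type} [Fintype V]

/-- `X⁻¹ H u`. -/
noncomputable def B (H : V → V → ℝ) (X u : V → ℝ) : V → ℝ := fun a => (∑ c, H a c * u c) / X a

lemma selfAdj (H : V → V → ℝ) (hsym : ∀ a c, H a c = H c a) (X : V → ℝ) (hX : ∀ a, 0 < X a)
    (u w : V → ℝ) : ∑ a, X a * (B H X u a * w a) = ∑ a, X a * (u a * B H X w a) := by
  have e1 : ∀ a, X a * (B H X u a * w a) = ∑ c, H a c * (u c * w a) := by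
    intro a
    have := (hX a).ne'
    unfold B
    rw [div_mul_eq_mul_div, mul_div_cancel₀ _ this, Finset.sum_mul]
    exact Finset.sum_congr rfl fun c _ => by ring
  have e2 : ∀ a, X a * (u a * B H X w a) = ∑ c, H a c * (u a * w c) := by
    intro a
    have := (hX a).ne'
    unfold B
    rw [mul_div_assoc', mul_div_cancel₀ _ this, Finset.mul_sum]
    exact Finset.sum_congr rfl fun c _ => by ring
  simp_rw [e1, e2]
  rw [Finset.sum_comm]
  refine Finset.sum_congr rfl fun a _ => Finset.sum_congr rfl fun c _ => ?_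
  rw [hsym c a]

lemma core (H : V → V → ℝ) (hsym : ∀ a c, H a c = H c a) (hnn : ∀ a c, 0 ≤ H a c)
    (X b p r : V → ℝ) {x m : ℝ} (hx : 0 < x) (hm : 0 < m) (hX : ∀ a, x ≤ X a)
    (hb : ∀ a, 0 ≤ b a) (h1 : ∀ a, X a * p a + ∑ c, H a c * r c = b a)
    (h2 : ∀ a, ∑ c, H a c * p c = X a * r a)
    (hQ : ∑ a, (∑ c, H a c * b c) ^ 2 ≤ m ^ 2) :
    0 ≤ ∑ a, b a * p a ∧ -∑ a, b a * r a ≤ tau m x * (x + ∑ a, b a * p a) := by
  have hXp : ∀ a, 0 < X a := fun a => hx.trans_le (hX a)
  have sa := selfAdj H hsym X hXp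
  set q : V → ℝ := B H X r with hq
  set t : V → ℝ := B H X q with ht
  have hr : ∀ a, B H X p a = r a := by
    intro a
    unfold B
    rw [h2 a, mul_div_cancel_left₀ _ (hXp a).ne']
  have hr' : B H X p = r := funext hr
  have hc : ∀ a, b a = X a * (p a + q a) := by
    intro a
    have := (hXp a).ne'
    rw [← h1 a, hq]
    unfold B
    field_simp
  -- the moments
  have m2 : ∑ a, X a * (p a * q a) = ∑ a, X a * (r a * r a) := by
    have := sa p r
    rw [hr', ← hq] at this
    exact this.symm
  have m3 : ∑ a, X a * (p a * t a) = ∑ a, X a * (r a * q a) := by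
    have := sa p q
    rw [hr', ← ht] at this
    exact this.symm
  have m4 : ∑ a, X a * (r a * t a) = ∑ a, X a * (q a * q a) := by
    have := sa r q
    rw [← hq, ← ht] at this
    exact this.symm
  have hs : ∀ a, B H X (fun c => p c + q c) a = r a + t a := by
    intro a
    rw [← hr a, ht]
    unfold B
    rw [← add_div, ← Finset.sum_add_distrib]
    congr 1
    exact Finset.sum_congr rfl fun c _ => by ring
  -- positivity of `⟨Bc, c⟩`
  have hcn : ∀ a, 0 ≤ p a + q a := by
    intro a
    have h := hb a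
    rw [hc a] at h
    exact nonneg_of_mul_nonneg_right h (hXp a)
  have hBn : ∀ a, 0 ≤ r a + t a := by
    intro a
    rw [← hs a]
    exact div_nonneg (Finset.sum_nonneg fun c _ => mul_nonneg (hnn a c) (hcn c)) (hXp a).le
  have hBcc : 0 ≤ ∑ a, X a * ((r a + t a) * (p a + q a)) :=
    Finset.sum_nonneg fun a _ => mul_nonneg (hXp a).le (mul_nonneg (hBn a) (hcn a))
  -- bound of `|Bc|²`
  have hBB : x ^ 3 * ∑ a, X a * ((r a + t a) * (r a + t a)) ≤ m ^ 2 := by
    refine le_trans ?_ hQ
    rw [Finset.mul_sum]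
    refine Finset.sum_le_sum fun a _ => ?_
    have hXa := hXp a
    have e1 : X a * (r a + t a) = ∑ c, H a c * (p c + q c) := by
      rw [← hs a]
      unfold B
      rw [mul_div_cancel₀ _ hXa.ne']
    have e2 : x * (X a * (r a + t a)) ≤ ∑ c, H a c * b c := by
      rw [e1, Finset.mul_sum]
      refine Finset.sum_le_sum fun c _ => ?_
      rw [hc c]
      have := mul_le_mul_of_nonneg_right (hX c) (hcn c)
      have := mul_le_mul_of_nonneg_left this (hnn a c)
      linarith
    have e3 : 0 ≤ x * (X a * (r a + t a)) := by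
      have := hBn a
      positivity
    have e4 : (x * (X a * (r a + t a))) ^ 2 ≤ (∑ c, H a c * b c) ^ 2 :=
      pow_le_pow_left₀ e3 e2 2
    refine le_trans ?_ e4
    have e5 : 0 ≤ x ^ 2 * X a * (r a + t a) ^ 2 := by positivity
    have e6 := mul_le_mul_of_nonneg_right (hX a) e5
    linarith [e6]
  -- names
  set S0 := ∑ a, X a * (p a * p a) with hS0
  set S1 := ∑ a, X a * (p a * r a) with hS1
  set S2 := ∑ a, X a * (r a * r a) with hS2
  set S3 := ∑ a, X a * (r a * q a) with hS3
  set S4 := ∑ a, X a * (q a * q a) with hS4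
  set S5 := ∑ a, X a * (q a * t a) with hS5
  set S6 := ∑ a, X a * (t a * t a) with hS6
  have bp : ∑ a, b a * p a = S0 + S2 := by
    rw [← m2, hS0, ← Finset.sum_add_distrib]
    exact Finset.sum_congr rfl fun a _ => by rw [hc a]; ring
  have br : ∑ a, b a * r a = S1 + S3 := by
    rw [hS1, hS3, ← Finset.sum_add_distrib]
    exact Finset.sum_congr rfl fun a _ => by rw [hc a]; ring
  have eBcc : ∑ a, X a * ((r a + t a) * (p a + q a)) = S1 + 2 * S3 + S5 := by
    have : S1 + 2 * S3 + S5 = S1 + S3 + (∑ a, X a * (p a * t a)) + S5 := by rw [m3]; ring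
    rw [this, hS1, hS3, hS5, ← Finset.sum_add_distrib, ← Finset.sum_add_distrib,
      ← Finset.sum_add_distrib]
    exact Finset.sum_congr rfl fun a _ => by ring
  have eBB : ∑ a, X a * ((r a + t a) * (r a + t a)) = S2 + 2 * S4 + S6 := by
    rw [← m4, hS2, hS6, Finset.mul_sum, ← Finset.sum_add_distrib, ← Finset.sum_add_distrib]
    exact Finset.sum_congr rfl fun a _ => by ring
  have hs2 : 0 < x ^ 2 + 2 * m := by positivity
  set d : ℝ := Real.sqrt (x ^ 2 + 2 * m) with hd
  have hd0 : 0 < d := Real.sqrt_pos.2 hs2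
  have hd2 : d ^ 2 = x ^ 2 + 2 * m := Real.sq_sqrt hs2.le
  have f0 : 0 ≤ x ^ 4 * S4 + d ^ 2 * x ^ 2 * S2 + m ^ 2 * S0 - 2 * d * x ^ 3 * S3 -
      2 * m * x ^ 2 * S2 + 2 * d * m * x * S1 := by
    have : ∑ a, X a * (x ^ 2 * q a - d * x * r a - m * p a) ^ 2 =
        x ^ 4 * S4 + d ^ 2 * x ^ 2 * S2 + m ^ 2 * S0 - 2 * d * x ^ 3 * S3 -
          2 * m * x ^ 2 * (∑ a, X a * (p a * q a)) + 2 * d * m * x * S1 := by
      rw [hS4, hS2, hS0, hS3, hS1]
      simp only [Finset.mul_sum, ← Finset.sum_add_distrib, ← Finset.sum_sub_distrib]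
      exact Finset.sum_congr rfl fun a _ => by ring
    rw [m2] at this
    rw [← this]
    exact Finset.sum_nonneg fun a _ => mul_nonneg (hXp a).le (sq_nonneg _)
  have f1 : 0 ≤ x ^ 4 * S6 + d ^ 2 * x ^ 2 * S4 + m ^ 2 * S2 - 2 * d * x ^ 3 * S5 -
      2 * m * x ^ 2 * S4 + 2 * d * m * x * S3 := by
    have : ∑ a, X a * (x ^ 2 * t a - d * x * q a - m * r a) ^ 2 =
        x ^ 4 * S6 + d ^ 2 * x ^ 2 * S4 + m ^ 2 * S2 - 2 * d * x ^ 3 * S5 -
          2 * m * x ^ 2 * (∑ a, X a * (r a * t a)) + 2 * d * m * x * S3 := by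
      rw [hS6, hS4, hS2, hS3, hS5]
      simp only [Finset.mul_sum, ← Finset.sum_add_distrib, ← Finset.sum_sub_distrib]
      exact Finset.sum_congr rfl fun a _ => by ring
    rw [m4] at this
    rw [← this]
    exact Finset.sum_nonneg fun a _ => mul_nonneg (hXp a).le (sq_nonneg _)
  have hS0n : 0 ≤ S0 := Finset.sum_nonneg fun a _ => mul_nonneg (hXp a).le (mul_self_nonneg _)
  have hS2n : 0 ≤ S2 := Finset.sum_nonneg fun a _ => mul_nonneg (hXp a).le (mul_self_nonneg _)
  refine ⟨by rw [bp]; linarith, ?_⟩
  rw [bp, br]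
  rw [eBcc] at hBcc
  rw [eBB] at hBB
  -- the final inequality, cleared of denominators
  have key : 0 ≤ 2 * x * (x ^ 2 + m) * d * (S1 + S3) + m ^ 2 * (x + (S0 + S2)) := by
    have g1 : 0 ≤ x ^ 4 * (S2 + 2 * S4 + S6) + m ^ 2 * (S0 + S2) - 2 * d * x ^ 3 * (S3 + S5) +
        2 * d * m * x * (S1 + S3) := by
      have := add_nonneg f0 f1
      rw [hd2] at this
      linarith [this]
    have g2 : 0 ≤ 2 * d * x ^ 3 * (S1 + 2 * S3 + S5) := by positivity
    have g3 : x * (x ^ 3 * (S2 + 2 * S4 + S6)) ≤ x * m ^ 2 :=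
      mul_le_mul_of_nonneg_left hBB hx.le
    linarith [g1, g2, g3]
  have hden : 0 < 2 * x * (x ^ 2 + m) * d := by positivity
  have htau : tau m x = m ^ 2 / (2 * x * (x ^ 2 + m) * d) := rfl
  rw [htau, div_mul_eq_mul_div, le_div_iff₀ hden]
  linarith

/-- Solvability of the real system. -/
lemma exists_sol (H : V → V → ℝ) (hsym : ∀ a c, H a c = H c a) (X b : V → ℝ)
    (hX : ∀ a, 0 < X a) : ∃ p r : V → ℝ, (∀ a, X a * p a + ∑ c, H a c * r c = b a) ∧
      ∀ a, ∑ c, H a c * p c = X a * r a := by
  classical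
  let L : (V → ℝ) →ₗ[ℝ] (V → ℝ) :=
    { toFun := fun p a => X a * p a + ∑ c, H a c * B H X p c
      map_add' := by
        intro p q
        funext a
        have : ∀ c, B H X (p + q) c = B H X p c + B H X q c := by
          intro c
          unfold B
          rw [← add_div, ← Finset.sum_add_distrib]
          congr 1
          exact Finset.sum_congr rfl fun d _ => by simp [mul_add]
        simp only [this, Pi.add_apply, mul_add, Finset.sum_add_distrib]
        ring
      map_smul' := by
        intro k p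
        funext a
        have : ∀ c, B H X (k • p) c = k * B H X p c := by
          intro c
          unfold B
          rw [mul_div_assoc', Finset.mul_sum]
          congr 1
          exact Finset.sum_congr rfl fun d _ => by simp; ring
        simp only [this, Pi.smul_apply, smul_eq_mul, RingHom.id_apply, mul_add, Finset.mul_sum]
        congr 1
        · ring
        · exact Finset.sum_congr rfl fun d _ => by ring }
  have hinj : Function.Injective L := by
    rw [injective_iff_map_eq_zero]
    intro p hp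
    have h1 : ∀ a, X a * p a + ∑ c, H a c * B H X p c = 0 := fun a => congrFun hp a
    have h2 : ∑ a, X a * (p a * p a) + ∑ a, X a * (B H X p a * B H X p a) = 0 := by
      rw [selfAdj H hsym X hX p (B H X p), ← Finset.sum_add_distrib]
      refine Finset.sum_eq_zero fun a _ => ?_
      have e : X a * B H X (B H X p) a = ∑ c, H a c * B H X p c := by
        have := (hX a).ne'
        conv_lhs => unfold B
        rw [mul_div_cancel₀ _ this]
        rfl
      have : X a * (p a * p a) + X a * (p a * B H X (B H X p) a) =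
          p a * (X a * p a + X a * B H X (B H X p) a) := by ring
      rw [this, e, h1 a, mul_zero]
    have h3 : 0 ≤ ∑ a, X a * (B H X p a * B H X p a) :=
      Finset.sum_nonneg fun a _ => mul_nonneg (hX a).le (mul_self_nonneg _)
    have h4 : ∑ a, X a * (p a * p a) = 0 :=
      le_antisymm (by linarith)
        (Finset.sum_nonneg fun a _ => mul_nonneg (hX a).le (mul_self_nonneg _))
    rw [Finset.sum_eq_zero_iff_of_nonneg
      (fun a _ => mul_nonneg (hX a).le (mul_self_nonneg _))] at h4
    funext a
    have h5 := h4 a (Finset.mem_univ a)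
    rcases mul_eq_zero.1 h5 with h | h
    · exact absurd h (hX a).ne'
    · exact mul_self_eq_zero.1 h
  obtain ⟨p, hp⟩ := (LinearMap.injective_iff_surjective.1 hinj) b
  refine ⟨p, B H X p, fun a => congrFun hp a, fun a => ?_⟩
  unfold B
  rw [mul_div_cancel₀ _ (hX a).ne']

open Complex in
/-- The bordered determinant. -/
lemma bordered [DecidableEq V] (A H : Matrix V V ℝ) (X b : V → ℝ) (v : V) (hX : ∀ a, 0 < X a)
    (hA : ∀ a c, A a c = H a c + (if a = v then b c else 0) + (if c = v then b a else 0))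
    (hHr : ∀ c, H v c = 0) (hHc : ∀ c, H c v = 0) (hbv : b v = 0)
    (p r : V → ℝ) (h1 : ∀ a, X a * p a + ∑ c, H a c * r c = b a)
    (h2 : ∀ a, ∑ c, H a c * p c = X a * r a) :
    dt X A = (1 + (((∑ a, b a * p a : ℝ) : ℂ) - I * ((∑ a, b a * r a : ℝ) : ℂ)) / (X v : ℂ)) *
      dt X H := by
  have hXv : (X v : ℂ) ≠ 0 := by exact_mod_cast (hX v).ne'
  have hpv : p v = 0 := by
    have := h1 v
    simp only [hHr, zero_mul, Finset.sum_const_zero, add_zero, hbv] at this
    exact (mul_eq_zero.1 this).resolve_left (hX v).ne'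
  have hrv : r v = 0 := by
    have := h2 v
    simp only [hHr, zero_mul, Finset.sum_const_zero] at this
    exact (mul_eq_zero.1 this.symm).resolve_left (hX v).ne'
  set y : V → ℂ := fun a => (p a : ℂ) - I * (r a : ℂ) with hy
  have hyv : y v = 0 := by simp [hy, hpv, hrv]
  let Y : Matrix V (Fin 2) ℂ := fun a j =>
    if j = 0 then (if a = v then I / (X v : ℂ) else 0) else I * y a
  let W : Matrix (Fin 2) V ℂ := fun j c => if j = 0 then (b c : ℂ) else (if c = v then 1 else 0)
  have hCH : ∀ a, ∑ c, CM X H a c * y c = (b a : ℂ) := by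
    intro a
    have e1 : ∀ c, CM X H a c * y c = (if a = c then (X a : ℂ) * y c else 0) +
        I * ((H a c : ℂ) * y c) := by
      intro c
      unfold CM
      split_ifs <;> ring
    simp_rw [e1]
    rw [Finset.sum_add_distrib, Finset.sum_ite_eq, if_pos (Finset.mem_univ a), ← Finset.mul_sum]
    have e2 : ∑ c, (H a c : ℂ) * y c =
        ((∑ c, H a c * p c : ℝ) : ℂ) - I * ((∑ c, H a c * r c : ℝ) : ℂ) := by
      push_cast
      rw [Finset.mul_sum, ← Finset.sum_sub_distrib]
      exact Finset.sum_congr rfl fun c _ => by simp only [hy]; ring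
    have e3 : (∑ c, H a c * r c : ℝ) = b a - X a * p a := by linarith [h1 a]
    rw [e2, h2 a, e3]
    simp only [hy]
    push_cast
    have : I * I = -1 := I_mul_I
    linear_combination (-(b a : ℂ) + (X a : ℂ) * (p a : ℂ)) * this
  have hprod : CM X A = CM X H * (1 + Y * W) := by
    rw [mul_add, mul_one]
    ext a c
    rw [Matrix.add_apply, ← Matrix.mul_assoc, Matrix.mul_apply (M := CM X H * Y)]
    rw [Fin.sum_univ_two]
    have e1 : (CM X H * Y) a 0 = if a = v then I else 0 := by
      rw [Matrix.mul_apply]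
      have : ∀ d, CM X H a d * Y d 0 = if d = v then CM X H a v * (I / (X v : ℂ)) else 0 := by
        intro d
        simp only [Y, if_true]
        split_ifs with h
        · rw [h]
        · ring
      simp_rw [this]
      rw [Finset.sum_ite_eq' , if_pos (Finset.mem_univ v)]
      unfold CM
      rw [hHc]
      by_cases hav : a = v
      · subst hav
        simp only [if_true, ofReal_zero, mul_zero, add_zero]
        field_simp
      · simp [hav]
    have e2 : (CM X H * Y) a 1 = I * (b a : ℂ) := by
      rw [Matrix.mul_apply, ← hCH a, Finset.mul_sum]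
      refine Finset.sum_congr rfl fun d _ => ?_
      simp only [Y]
      simp
      ring
    rw [e1, e2]
    simp only [W]
    simp only [CM, hA a c]
    push_cast
    simp only [apply_ite (fun z : ℝ => (z : ℂ)), ofReal_zero]
    split_ifs <;> ring
  have hdet : (1 + W * Y).det =
      1 + (((∑ a, b a * p a : ℝ) : ℂ) - I * ((∑ a, b a * r a : ℝ) : ℂ)) / (X v : ℂ) := by
    have w00 : (W * Y) 0 0 = 0 := by
      rw [Matrix.mul_apply]
      refine Finset.sum_eq_zero fun a _ => ?_
      simp only [W, Y, if_true]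
      split_ifs with h
      · subst h; simp [hbv]
      · ring
    have w01 : (W * Y) 0 1 = I * (((∑ a, b a * p a : ℝ) : ℂ) -
        I * ((∑ a, b a * r a : ℝ) : ℂ)) := by
      rw [Matrix.mul_apply]
      push_cast
      rw [Finset.mul_sum, ← Finset.sum_sub_distrib, Finset.mul_sum]
      refine Finset.sum_congr rfl fun a _ => ?_
      simp only [W, Y, hy]
      simp
      ring
    have w10 : (W * Y) 1 0 = I / (X v : ℂ) := by
      rw [Matrix.mul_apply]
      have : ∀ a, W 1 a * Y a 0 = if a = v then I / (X v : ℂ) else 0 := by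
        intro a
        simp only [W, Y]
        by_cases h : a = v <;> simp [h]
      simp_rw [this]
      simp
    have w11 : (W * Y) 1 1 = 0 := by
      rw [Matrix.mul_apply]
      refine Finset.sum_eq_zero fun a _ => ?_
      simp only [W, Y]
      by_cases h : a = v
      · subst h; simp [hyv]
      · simp [h]
    rw [Matrix.det_fin_two]
    simp only [Matrix.add_apply, w00, w01, w10, w11, Matrix.one_apply_eq]
    simp only [Matrix.one_apply, Fin.zero_eq_one_iff, OfNat.ofNat_ne_one, if_false, one_ne_zero,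
      zero_add, add_zero, mul_one]
    field_simp
    have : I ^ 2 = -1 := I_sq
    simp only [this]
    ring
  unfold dt
  rw [hprod, Matrix.det_mul, Matrix.det_one_add_mul_comm, hdet, mul_comm]

end PivX

open PivX in
/-- The bound for the pivot. -/
theorem piv_proof : Stmt_Piv := by
  intro V _ _ G K v hv m x hm hx hQ X hX
  classical
  have hXp : ∀ a, 0 < X a := fun a => hx.trans_le (hX a)
  set H : Matrix V V ℝ := AM G (K.erase v) with hH
  set b : V → ℝ := fun c => if c ∈ K ∧ G.Adj v c then 1 else 0 with hb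
  have hsym : ∀ a c, H a c = H c a := by
    intro a c
    simp only [hH, AM]
    refine if_congr ?_ rfl rfl
    rw [G.adj_comm]
    tauto
  have hnn : ∀ a c, 0 ≤ H a c := by
    intro a c
    simp only [hH, AM]
    split_ifs <;> norm_num
  have hbn : ∀ a, 0 ≤ b a := by
    intro a
    simp only [hb]
    split_ifs <;> norm_num
  have hHr : ∀ c, H v c = 0 := by
    intro c
    simp [hH, AM]
  have hHc : ∀ c, H c v = 0 := by
    intro c
    simp [hH, AM]
  have hbv : b v = 0 := by simp [hb]
  have hA : ∀ a c, AM G K a c = H a c + (if a = v then b c else 0) +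
      (if c = v then b a else 0) := by
    intro a c
    by_cases h1 : a = v
    · subst h1
      by_cases h2 : c = a
      · subst h2
        simp [hH, AM, hb]
      · simp [hH, AM, hb, h2, hv]
    · by_cases h2 : c = v
      · subst h2
        simp [hH, AM, hb, h1, hv, G.adj_comm]
      · simp [hH, AM, h1, h2]
  obtain ⟨p, r, h1, h2⟩ := exists_sol H hsym X b hXp
  have hHb : ∀ a, ∑ c, H a c * b c =
      if a ∈ K.erase v then ((K.filter (fun u => G.Adj v u ∧ G.Adj u a)).card : ℝ) else 0 := by
    intro a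
    split_ifs with ha
    · rw [Finset.card_filter, Nat.cast_sum]
      rw [← Finset.sum_subset (Finset.subset_univ K)]
      · refine Finset.sum_congr rfl fun c hc => ?_
        by_cases hcv : c = v
        · subst hcv
          simp [hH, AM]
        · simp only [hH, AM, hb, Finset.mem_erase, hcv, hc, ne_eq, not_false_eq_true, true_and]
          rw [Finset.mem_erase] at ha
          simp only [ha.1, ha.2, not_false_eq_true, true_and, G.adj_comm a c]
          by_cases h3 : G.Adj v c <;> by_cases h4 : G.Adj c a <;> simp [h3, h4]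
      · intro c _ hc
        simp [hb, hc]
    · refine Finset.sum_eq_zero fun c _ => ?_
      simp [hH, AM, ha]
  have hQ' : ∑ a, (∑ c, H a c * b c) ^ 2 ≤ m ^ 2 := by
    refine le_trans (le_of_eq ?_) hQ
    simp_rw [hHb]
    unfold QQ
    push_cast
    rw [← Finset.sum_subset (Finset.subset_univ (K.erase v))]
    · refine Finset.sum_congr rfl fun a ha => ?_
      rw [if_pos ha]
    · intro a _ ha
      rw [if_neg ha]
      simp
  obtain ⟨hbp, hbr⟩ := core H hsym hnn X b p r hx hm hX hbn h1 h2 hQ'
  have hdet := bordered (AM G K) H X b v hXp hA hHr hHc hbv p r h1 h2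
  set α : ℝ := ∑ a, b a * p a with hα
  set β : ℝ := ∑ a, b a * r a with hβ
  refine ⟨1 + ((α : ℂ) - Complex.I * (β : ℂ)) / (X v : ℂ), hdet, ?_, ?_⟩
  · have : (1 + ((α : ℂ) - Complex.I * (β : ℂ)) / (X v : ℂ)).re = 1 + α / X v := by
      rw [Complex.add_re, Complex.one_re, Complex.div_ofReal_re]
      simp
    rw [this]
    have := hXp v
    positivity
  · have e1 : (1 + ((α : ℂ) - Complex.I * (β : ℂ)) / (X v : ℂ)).re = 1 + α / X v := by
      rw [Complex.add_re, Complex.one_re, Complex.div_ofReal_re]
      simp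
    have e2 : (1 + ((α : ℂ) - Complex.I * (β : ℂ)) / (X v : ℂ)).im = -β / X v := by
      rw [Complex.add_im, Complex.one_im, Complex.div_ofReal_im]
      simp
    rw [e1, e2, div_le_iff₀ (hXp v)]
    have htau : 0 ≤ tau m x := by
      unfold tau
      positivity
    have e3 : tau m x * (1 + α / X v) * X v = tau m x * (X v + α) := by
      have := (hXp v).ne'
      field_simp
    rw [e3]
    refine hbr.trans (mul_le_mul_of_nonneg_left ?_ htau)
    linarith [hX v]

end Pool.Agent.SQ
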