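import Pool.Agent.SQ.Stmts

/-!
# Positive square energy (MP_2d493b_co): the averaging inequality
-/

namespace Pool.Agent.SQ

open Finset

namespace AvgX

variable {V : Type} [Fintype V] [DecidableEq V]

/-- Compression of a matrix to `T × T`. -/
noncomputable def cp (T : Finset V) (M : Matrix V V ℝ) : Matrix V V ℝ :=
  fun a b => if a ∈ T ∧ b ∈ T then M a b else 0

theorem cp_eq (T : Finset V) (M : Matrix V V ℝ) :
    cp T M = Matrix.diagonal (fun a => if a ∈ T then (1 : ℝ) else 0) * M *
      (Matrix.diagonal (fun a => if a ∈ T then (1 : ℝ) else 0)).conjTranspose := by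
  ext a b
  rw [Matrix.diagonal_conjTranspose, Matrix.mul_diagonal, Matrix.diagonal_mul]
  simp only [cp, Pi.star_apply, star_trivial]
  by_cases ha : a ∈ T <;> by_cases hb : b ∈ T <;> simp [ha, hb]

theorem cp_posSemidef (T : Finset V) {M : Matrix V V ℝ} (hM : M.PosSemidef) :
    (cp T M).PosSemidef := by
  rw [cp_eq]
  exact hM.mul_mul_conjTranspose_same _

theorem cp_AM (G : SimpleGraph V) {S T : Finset V} (h : T ⊆ S) (P : Matrix V V ℝ) :
    cp T P - AM G T = cp T (P - AM G S) := by
  ext a b
  simp only [cp, AM, Matrix.sub_apply]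
  by_cases ha : a ∈ T
  · by_cases hb : b ∈ T
    · have := h ha
      have := h hb
      by_cases hab : G.Adj a b <;> simp [*]
    · simp [hb]
  · simp [ha]

theorem AM_herm (G : SimpleGraph V) (S : Finset V) : (AM G S).IsHermitian := by
  ext a b
  simp only [AM, Matrix.conjTranspose_apply, star_trivial]
  by_cases h : a ∈ S ∧ b ∈ S ∧ G.Adj a b
  · rw [if_pos h, if_pos ⟨h.2.1, h.1, h.2.2.symm⟩]
  · rw [if_neg h, if_neg fun h' => h ⟨h'.2.1, h'.1, h'.2.2.symm⟩]

/-- The basic bound: a positive majorant of `AM G S` bounds `sp (AM G T)`, `T ⊆ S`. -/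
theorem sp_le (h : Stmt_Spec) (G : SimpleGraph V) {S T : Finset V} (hT : T ⊆ S)
    {P : Matrix V V ℝ} (hP : (P - AM G S).PosSemidef) :
    sp (AM G T) ≤ ∑ a, ∑ b, if a ∈ T ∧ b ∈ T then P a b ^ 2 else 0 := by
  have h1 := ((h V (AM G T) (AM_herm G T)).2.1) (cp T P)
    (by rw [cp_AM G hT]; exact cp_posSemidef T hP)
  refine h1.trans (le_of_eq ?_)
  refine Finset.sum_congr rfl fun a _ => Finset.sum_congr rfl fun b _ => ?_
  simp only [cp]
  split_ifs <;> simp

end AvgX

open AvgX in
theorem avg_proof (h : Stmt_Spec) : Stmt_Avg := by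
  classical
  intro V _ _ G S P hdis hun
  obtain ⟨Q, -, hQ, hQs⟩ := (h V (AM G S) (AM_herm G S)).1
  rcases P.eq_empty_or_nonempty with hP | hP
  · subst hP
    have hS : S = ∅ := by simpa using hun.symm
    subst hS
    have h0 : sp (AM G (∅ : Finset V)) ≤ 0 := by
      have := sp_le h G (T := ∅) (S := ∅) (Finset.Subset.refl _) hQ
      simpa using this
    simp only [Finset.sum_empty, Finset.card_empty, Nat.cast_zero, zero_sub, neg_mul, one_mul]
    linarith
  · have hcard : (1 : ℝ) ≤ (P.card : ℝ) := by exact_mod_cast hP.card_pos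
    calc ∑ B ∈ P, sp (AM G (S \ B))
        ≤ ∑ B ∈ P, ∑ a, ∑ b, (if a ∈ S \ B ∧ b ∈ S \ B then Q a b ^ 2 else 0) :=
          Finset.sum_le_sum fun B _ => sp_le h G Finset.sdiff_subset hQ
      _ = ∑ a, ∑ b, ∑ B ∈ P, (if a ∈ S \ B ∧ b ∈ S \ B then Q a b ^ 2 else 0) := by
          rw [Finset.sum_comm]
          refine Finset.sum_congr rfl fun a _ => ?_
          rw [Finset.sum_comm]
      _ ≤ ∑ a, ∑ b, ((P.card : ℝ) - 1) * Q a b ^ 2 := by
          refine Finset.sum_le_sum fun a _ => Finset.sum_le_sum fun b _ => ?_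
          have hw : 0 ≤ Q a b ^ 2 := sq_nonneg _
          by_cases ha : a ∈ S
          · have : a ∈ P.biUnion id := by rw [hun]; exact ha
            obtain ⟨B0, hB0, haB⟩ := Finset.mem_biUnion.mp this
            have haB' : a ∈ B0 := haB
            rw [← Finset.add_sum_erase P _ hB0]
            have h1 : (if a ∈ S \ B0 ∧ b ∈ S \ B0 then Q a b ^ 2 else 0) = 0 := by
              rw [if_neg]
              rintro ⟨h2, -⟩
              exact (Finset.mem_sdiff.mp h2).2 haB'
            rw [h1, zero_add]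
            calc ∑ x ∈ P.erase B0, (if a ∈ S \ x ∧ b ∈ S \ x then Q a b ^ 2 else 0)
                ≤ ∑ x ∈ P.erase B0, Q a b ^ 2 :=
                  Finset.sum_le_sum fun x _ => by split_ifs <;> simp [hw]
              _ = ((P.card : ℝ) - 1) * Q a b ^ 2 := by
                  rw [Finset.sum_const, Finset.card_erase_of_mem hB0, nsmul_eq_mul,
                    Nat.cast_sub (by exact hP.card_pos), Nat.cast_one]
          · rw [Finset.sum_eq_zero]
            · exact mul_nonneg (by linarith) hw
            · intro B _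
              rw [if_neg]
              rintro ⟨h2, -⟩
              exact ha (Finset.mem_sdiff.mp h2).1
      _ = ((P.card : ℝ) - 1) * sp (AM G S) := by
          rw [← hQs, Finset.mul_sum]
          refine Finset.sum_congr rfl fun a _ => ?_
          rw [Finset.mul_sum]

end Pool.Agent.SQ
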