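import Pool.Agent.SQ.Stmts

/-!
# Counting edges (MP_2d493b_co, module Cnt)
-/

namespace Pool.Agent.SQ

open Finset

namespace CntX

variable {V : Type} [Fintype V] [DecidableEq V]

open Classical in
theorem dg_erase (G : SimpleGraph V) (S : Finset V) {v : V} (hv : v ∈ S) (u : V) :
    dg G S u = dg G (S.erase v) u + (if G.Adj u v then 1 else 0) := by
  unfold dg
  have h1 : (S.filter (fun b => G.Adj u b)).card =
      ((insert v (S.erase v)).filter (fun b => G.Adj u b)).card := by
    rw [insert_erase hv]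
  rw [h1, filter_insert]
  split_ifs with h
  · rw [card_insert_of_notMem]
    intro hm
    simp only [mem_filter] at hm
    exact (notMem_erase v S) hm.1
  · rfl

open Classical in
theorem sum_ite (G : SimpleGraph V) (S : Finset V) (v : V) :
    ∑ u ∈ S.erase v, (if G.Adj u v then 1 else 0) = dg G S v := by
  rw [← card_filter]
  unfold dg
  congr 1
  ext u
  simp only [mem_filter, mem_erase]
  constructor
  · rintro ⟨⟨_, h1⟩, h2⟩
    exact ⟨h1, h2.symm⟩
  · rintro ⟨h1, h2⟩
    exact ⟨⟨h2.ne', h1⟩, h2.symm⟩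

theorem rec_sum (G : SimpleGraph V) (S : Finset V) {v : V} (hv : v ∈ S) :
    ∑ u ∈ S, dg G S u = ∑ u ∈ S.erase v, dg G (S.erase v) u + 2 * dg G S v := by
  classical
  rw [← add_sum_erase S (fun u => dg G S u) hv,
    sum_congr rfl (fun u _ => dg_erase G S hv u), sum_add_distrib, sum_ite]
  ring

theorem even_sum (G : SimpleGraph V) (S : Finset V) : ∃ k, ∑ u ∈ S, dg G S u = 2 * k := by
  induction S using Finset.induction_on with
  | empty => exact ⟨0, by simp⟩
  | insert a s ha ih =>
    obtain ⟨k, hk⟩ := ih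
    have h := rec_sum G (insert a s) (mem_insert_self a s)
    rw [erase_insert ha, hk] at h
    exact ⟨k + dg G (insert a s) a, by rw [h]; ring⟩

end CntX

theorem cnt_proof : Stmt_Cnt := by
  intro V _ _ G S
  have h1 : ∀ T : Finset V, ∑ u ∈ T, dg G T u = 2 * ne G T := by
    intro T
    obtain ⟨k, hk⟩ := CntX.even_sum G T
    unfold ne
    rw [hk]
    omega
  refine ⟨h1 S, fun v hv => ?_⟩
  have h2 := CntX.rec_sum G S hv
  rw [h1, h1] at h2
  omega

end Pool.Agent.SQ
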