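import Pool.Agent.SQ.Stmts

/-!
# Components by cuts (MP_2d493b_co)
-/

namespace Pool.Agent.SQ

open Finset

namespace CompX

variable {V : Type} [Fintype V] [DecidableEq V] {G : SimpleGraph V}

/-- closed under adjacency in `S` -/
def Cl (G : SimpleGraph V) (S T : Finset V) : Prop := ∀ a ∈ T, ∀ b ∈ S, b ∉ T → ¬ G.Adj a b

theorem mem_comps {S Z : Finset V} : Z ∈ comps G S ↔ Z ⊆ S ∧ Conn G Z ∧ Cl G S Z := by
  classical
  unfold comps Cl
  rw [mem_filter, mem_powerset]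

theorem disj {S Z Y : Finset V} (hZ : Z ∈ comps G S) (hY : Y ∈ comps G S) (h : Z ≠ Y) : Disjoint Z Y := by
  rw [mem_comps] at hZ hY
  rw [disjoint_iff_inter_eq_empty]
  by_contra hne
  have hn : (Z ∩ Y).Nonempty := nonempty_iff_ne_empty.mpr hne
  have h1 : Z ∩ Y = Z := hZ.2.1.2 _ inter_subset_left hn (fun a ha b hb hb' => by
    rw [mem_inter] at ha
    have hbY : b ∉ Y := fun h => hb' (mem_inter.mpr ⟨hb, h⟩)
    exact hY.2.2 a ha.2 b (hZ.1 hb) hbY)
  have h2 : Z ∩ Y = Y := hY.2.1.2 _ inter_subset_right hn (fun a ha b hb hb' => by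
    rw [mem_inter] at ha
    have hbZ : b ∉ Z := fun h => hb' (mem_inter.mpr ⟨h, hb⟩)
    exact hZ.2.2 a ha.1 b (hY.1 hb) hbZ)
  exact h (h1.symm.trans h2)

theorem exists_comp {S : Finset V} {a : V} (ha : a ∈ S) : ∃ Z ∈ comps G S, a ∈ Z := by
  classical
  obtain ⟨Z, hZ, hmin⟩ := exists_min_image (S.powerset.filter (fun T => a ∈ T ∧ Cl G S T)) card
    ⟨S, by
      rw [mem_filter, mem_powerset]
      exact ⟨Subset.refl _, ha, fun _ _ b hb hb' => absurd hb hb'⟩⟩
  rw [mem_filter, mem_powerset] at hZ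
  obtain ⟨hZS, haZ, hZc⟩ := hZ
  refine ⟨Z, mem_comps.mpr ⟨hZS, ⟨⟨a, haZ⟩, ?_⟩, hZc⟩, haZ⟩
  intro T hTZ hTn hT
  have hTc : Cl G S T := by
    intro t ht b hb hbT
    by_cases hbZ : b ∈ Z
    · exact hT t ht b hbZ hbT
    · exact hZc t (hTZ ht) b hb hbZ
  by_cases haT : a ∈ T
  · have h1 := hmin T (by
      rw [mem_filter, mem_powerset]
      exact ⟨hTZ.trans hZS, haT, hTc⟩)
    exact eq_of_subset_of_card_le hTZ h1
  · exfalso
    have hc : Cl G S (Z \ T) := by
      intro z hz b hb hb'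
      rw [mem_sdiff] at hz hb'
      by_cases hbZ : b ∈ Z
      · have hbT : b ∈ T := by
          by_contra h
          exact hb' ⟨hbZ, h⟩
        intro hadj
        exact hT b hbT z hz.1 hz.2 hadj.symm
      · exact hZc z hz.1 b hb hbZ
    have h1 := hmin (Z \ T) (by
      rw [mem_filter, mem_powerset]
      exact ⟨sdiff_subset.trans hZS, mem_sdiff.mpr ⟨haZ, haT⟩, hc⟩)
    have h2 : (Z \ T).card < Z.card := by
      apply card_lt_card
      rw [ssubset_iff_of_subset sdiff_subset]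
      obtain ⟨t, ht⟩ := hTn
      exact ⟨t, hTZ ht, fun h => (mem_sdiff.mp h).2 ht⟩
    omega

theorem biUnion_comps (S : Finset V) : (comps G S).biUnion id = S := by
  ext a
  rw [mem_biUnion]
  constructor
  · rintro ⟨Z, hZ, haZ⟩
    exact (mem_comps.mp hZ).1 haZ
  · intro ha
    obtain ⟨Z, hZ, haZ⟩ := exists_comp (G := G) ha
    exact ⟨Z, hZ, haZ⟩

theorem sum_comps {M : Type*} [AddCommMonoid M] (S : Finset V) (f : V → M) :
    ∑ Z ∈ comps G S, ∑ u ∈ Z, f u = ∑ u ∈ S, f u := by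
  conv_rhs => rw [← biUnion_comps (G := G) S]
  rw [sum_biUnion]
  · rfl
  · intro Z hZ Y hY h
    exact disj hZ hY h

theorem dg_sum (S : Finset V) (v : V) : dg G S v = ∑ u ∈ S, (by classical exact if G.Adj v u then 1 else 0) := by
  unfold dg
  rw [card_filter]

theorem sum_dg (S : Finset V) (v : V) : ∑ Z ∈ comps G S, dg G Z v = dg G S v := by
  classical
  simp only [dg_sum]
  exact sum_comps S _

theorem dg_eq {S Z : Finset V} (hZ : Z ∈ comps G S) {u : V} (hu : u ∈ Z) : dg G S u = dg G Z u := by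
  classical
  obtain ⟨h1, -, h3⟩ := mem_comps.mp hZ
  unfold dg
  congr 1
  ext b
  rw [mem_filter, mem_filter]
  constructor
  · rintro ⟨hb, hadj⟩
    refine ⟨?_, hadj⟩
    by_contra hbZ
    exact h3 u hu b hb hbZ hadj
  · rintro ⟨hb, hadj⟩
    exact ⟨h1 hb, hadj⟩

end CompX

open CompX in
theorem comp_proof (hCnt : Stmt_Cnt) : Stmt_Comp := by
  intro V _ _ G S
  refine ⟨fun Z hZ Y hY h => disj hZ hY h, biUnion_comps S, ?_, ?_, sum_dg S, ?_⟩
  · have := sum_comps (G := G) S (fun _ => (1 : ℕ))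
    simpa using this
  · have h1 : 2 * ∑ Z ∈ comps G S, ne G Z = 2 * ne G S := by
      rw [← (hCnt V G S).1, mul_sum, ← sum_comps (G := G) S]
      refine sum_congr rfl fun Z hZ => ?_
      rw [← (hCnt V G Z).1]
      exact sum_congr rfl fun u hu => (dg_eq hZ hu).symm
    omega
  · intro T hT hTc
    obtain ⟨a, ha⟩ := hTc.1
    obtain ⟨Z, hZ, haZ⟩ := exists_comp (G := G) (hT ha)
    refine ⟨Z, hZ, ?_⟩
    obtain ⟨h1, h2, h3⟩ := mem_comps.mp hZ
    have := hTc.2 (T ∩ Z) inter_subset_left ⟨a, mem_inter.mpr ⟨ha, haZ⟩⟩ (fun t ht b hb hb' => by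
      rw [mem_inter] at ht
      exact h3 t ht.2 b (hT hb) fun h => hb' (mem_inter.mpr ⟨hb, h⟩))
    rw [← this]
    exact inter_subset_right

end Pool.Agent.SQ
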