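import Pool.Agent.SQ.Stmts

/-!
# Components of a connected set minus a vertex (MP_2d493b_co)
-/

namespace Pool.Agent.SQ

open Finset

theorem cySum_proof (hCnt : Stmt_Cnt) (hComp : Stmt_Comp) : Stmt_CySum := by
  classical
  intro V _ _ G S v hS hv
  obtain ⟨h1, h2, h3, h4, h5, h6⟩ := hComp V G (S.erase v)
  refine ⟨?_, ?_⟩
  · intro Z hZ
    by_contra hlt
    have h0 : dg G Z v = 0 := by omega
    unfold comps at hZ
    rw [mem_filter, mem_powerset] at hZ
    obtain ⟨hZS, hZc, hZcl⟩ := hZ
    have hvZ : v ∉ Z := fun h => notMem_erase v S (hZS h)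
    have := hS.2 Z (hZS.trans (erase_subset _ _)) hZc.1 (fun a ha b hb hbZ => by
      by_cases hbv : b = v
      · subst hbv
        intro hadj
        unfold dg at h0
        rw [card_eq_zero, filter_eq_empty_iff] at h0
        exact h0 ha hadj.symm
      · exact hZcl a ha b (mem_erase.mpr ⟨hbv, hb⟩) hbZ)
    rw [this] at hvZ
    exact hvZ hv
  · have hd : dg G S v = dg G (S.erase v) v := by
      unfold dg
      congr 1
      ext b
      rw [mem_filter, mem_filter, mem_erase]
      constructor
      · rintro ⟨hb, hadj⟩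
        exact ⟨⟨fun h => by rw [h] at hadj; exact G.loopless.irrefl _ hadj, hb⟩, hadj⟩
      · rintro ⟨⟨-, hb⟩, hadj⟩
        exact ⟨hb, hadj⟩
    have e1 := (hCnt V G S).2 v hv
    have e2 : (S.erase v).card + 1 = S.card := card_erase_add_one hv
    have e3 : ∑ Z ∈ comps G (S.erase v), (cy G Z - 1 + (dg G Z v : ℤ))
        = (∑ Z ∈ comps G (S.erase v), ne G Z : ℕ) - (∑ Z ∈ comps G (S.erase v), Z.card : ℕ)
          + (∑ Z ∈ comps G (S.erase v), dg G Z v : ℕ) := by
      push_cast
      rw [← sum_sub_distrib, ← sum_add_distrib]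
      refine sum_congr rfl fun Z _ => ?_
      unfold cy
      ring
    rw [e3, h3, h4, h5 v]
    unfold cy
    rw [hd] at e1
    have e1' : (ne G S : ℤ) = ne G (S.erase v) + dg G (S.erase v) v := by exact_mod_cast e1
    have e2' : ((S.erase v).card : ℤ) + 1 = S.card := by exact_mod_cast e2
    rw [e1', ← e2']
    ring

end Pool.Agent.SQ
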