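import Pool.Agent.SQ.Stmts

/-!
# Positive square energy (MP_2d493b_co): the module `Cyc` (a vertex on a cycle)
-/

namespace Pool.Agent.SQ

open Finset

section

variable {V : Type} [Fintype V] [DecidableEq V] (G : SimpleGraph V)

omit [Fintype V] [DecidableEq V] in
lemma cyc_dg_self_singleton (u : V) : dg G {u} u = 0 := by
  classical
  unfold dg
  rw [Finset.card_eq_zero, Finset.filter_eq_empty_iff]
  intro b hb
  rw [Finset.mem_singleton] at hb
  subst hb
  exact G.loopless.irrefl _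

omit [Fintype V] [DecidableEq V] in
lemma cyc_ne_empty : ne G (∅ : Finset V) = 0 := by
  unfold ne
  simp

lemma cyc_cy_singleton (hCnt : Stmt_Cnt) (u : V) : cy G {u} = 0 := by
  have h := (hCnt V G {u}).2 u (Finset.mem_singleton_self u)
  have h2 : ({u} : Finset V).erase u = ∅ := by simp
  rw [h2, cyc_ne_empty, cyc_dg_self_singleton] at h
  unfold cy
  rw [h]
  simp

lemma cyc_core (hCnt : Stmt_Cnt) (S : Finset V) (hS : S.Nonempty) (h1 : 1 ≤ cy G S) :
    ∃ K ⊆ S, K.Nonempty ∧ cy G S ≤ cy G K ∧ ∀ u ∈ K, 2 ≤ dg G K u := by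
  classical
  let F : Finset (Finset V) := S.powerset.filter (fun K => K.Nonempty ∧ cy G S ≤ cy G K)
  have hF : F.Nonempty :=
    ⟨S, Finset.mem_filter.2 ⟨Finset.mem_powerset_self S, hS, le_refl _⟩⟩
  obtain ⟨K, hK, hmin⟩ := Finset.exists_min_image F Finset.card hF
  obtain ⟨hKS, hKne, hKc⟩ := Finset.mem_filter.1 hK
  rw [Finset.mem_powerset] at hKS
  refine ⟨K, hKS, hKne, hKc, ?_⟩
  intro u hu
  by_contra hlt
  have hlt : dg G K u ≤ 1 := by omega
  have hne := (hCnt V G K).2 u hu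
  have hcard : (K.erase u).card + 1 = K.card := Finset.card_erase_add_one hu
  have hcy : cy G K ≤ cy G (K.erase u) := by
    unfold cy
    have h3 : (ne G K : ℤ) = ne G (K.erase u) + dg G K u := by exact_mod_cast hne
    have h4 : (K.card : ℤ) = (K.erase u).card + 1 := by exact_mod_cast hcard.symm
    have h5 : (dg G K u : ℤ) ≤ 1 := by exact_mod_cast hlt
    linarith
  have hnonempty : (K.erase u).Nonempty := by
    by_contra hemp
    rw [Finset.not_nonempty_iff_eq_empty] at hemp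
    have hKu : K = {u} := by
      apply Finset.Subset.antisymm
      · intro x hx
        by_contra hxu
        have : x ∈ K.erase u := Finset.mem_erase.2 ⟨fun h => hxu (by simp [h]), hx⟩
        rw [hemp] at this
        simp at this
      · intro x hx
        rw [Finset.mem_singleton] at hx
        rw [hx]; exact hu
    rw [hKu, cyc_cy_singleton G hCnt] at hKc
    linarith
  have hmem : K.erase u ∈ F :=
    Finset.mem_filter.2 ⟨Finset.mem_powerset.2 ((Finset.erase_subset _ _).trans hKS),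
      hnonempty, hKc.trans hcy⟩
  have := hmin _ hmem
  omega

lemma cyc_big_vertex (hCnt : Stmt_Cnt) (S K : Finset V) (hK : K.Nonempty)
    (h1 : 1 ≤ cy G S) (h2 : cy G S ≤ 2) (hc : cy G S ≤ cy G K)
    (hdeg : ∀ u ∈ K, 2 ≤ dg G K u) : ∃ v ∈ K, cy G S + 1 ≤ (dg G K v : ℤ) := by
  rcases (by omega : cy G S = 1 ∨ cy G S = 2) with h | h
  · obtain ⟨v, hv⟩ := hK
    refine ⟨v, hv, ?_⟩
    have := hdeg v hv
    omega
  · by_contra hcon
    push Not at hcon
    have hle : ∀ u ∈ K, dg G K u ≤ 2 := by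
      intro u hu
      have := hcon u hu
      omega
    have hsum : ∑ u ∈ K, dg G K u ≤ K.card * 2 := Finset.sum_le_card_nsmul _ _ _ hle
    have hcnt := (hCnt V G K).1
    rw [hcnt] at hsum
    have : (ne G K : ℤ) ≤ K.card := by
      have : 2 * ne G K ≤ K.card * 2 := hsum
      have : ne G K ≤ K.card := by omega
      exact_mod_cast this
    rw [h] at hc
    unfold cy at hc
    omega

omit [Fintype V] [DecidableEq V] in
lemma cyc_dg_mono {A B : Finset V} (h : A ⊆ B) (v : V) : dg G A v ≤ dg G B v := by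
  classical
  unfold dg
  exact Finset.card_le_card (Finset.filter_subset_filter _ h)

lemma cyc_comp_closed (S Z : Finset V) (v : V) (hZ : Z ∈ comps G (S.erase v)) :
    Conn G Z ∧ Z ⊆ S.erase v ∧ ∀ a ∈ Z, ∀ b ∈ S.erase v, b ∉ Z → ¬ G.Adj a b := by
  classical
  unfold comps at hZ
  rw [Finset.mem_filter, Finset.mem_powerset] at hZ
  exact ⟨hZ.2.1, hZ.1, hZ.2.2⟩

lemma cyc_cy_pos (hCnt : Stmt_Cnt) (hMono : Stmt_Mono) (S K Z : Finset V) (v : V)
    (hKS : K ⊆ S) (hdeg : ∀ u ∈ K, 2 ≤ dg G K u) (hZ : Z ∈ comps G (S.erase v))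
    (hr : dg G Z v ≤ 1) (hpos : 1 ≤ dg G (Z ∩ K) v) : 1 ≤ cy G Z := by
  classical
  obtain ⟨hconn, hZS, hclosed⟩ := cyc_comp_closed G S Z v hZ
  have hne : (Z ∩ K).Nonempty := by
    unfold dg at hpos
    obtain ⟨x, hx⟩ := Finset.card_pos.1 (by omega : 0 < ((Z ∩ K).filter (fun b => G.Adj v b)).card)
    exact ⟨x, (Finset.mem_filter.1 hx).1⟩
  have hle : ∀ u ∈ Z ∩ K, 2 ≤ dg G (Z ∩ K) u + (if G.Adj v u then 1 else 0) := by
    intro u hu
    obtain ⟨huZ, huK⟩ := Finset.mem_inter.1 hu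
    refine (hdeg u huK).trans ?_
    have hsub : (K.filter (fun b => G.Adj u b)) ⊆
        ((Z ∩ K).filter (fun b => G.Adj u b)) ∪ (if G.Adj v u then {v} else ∅) := by
      intro b hb
      obtain ⟨hbK, hub⟩ := Finset.mem_filter.1 hb
      rw [Finset.mem_union]
      by_cases hbv : b = v
      · right
        subst hbv
        have : G.Adj b u := hub.symm
        rw [if_pos this]
        exact Finset.mem_singleton_self _
      · left
        rw [Finset.mem_filter, Finset.mem_inter]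
        refine ⟨⟨?_, hbK⟩, hub⟩
        by_contra hbZ
        exact hclosed u huZ b (Finset.mem_erase.2 ⟨hbv, hKS hbK⟩) hbZ hub
    have h1 := Finset.card_le_card hsub
    have h2 := h1.trans (Finset.card_union_le _ _)
    unfold dg
    refine h2.trans ?_
    apply Nat.add_le_add_left
    split_ifs <;> simp
  have hsum : ∑ u ∈ Z ∩ K, 2 ≤ ∑ u ∈ Z ∩ K, (dg G (Z ∩ K) u + (if G.Adj v u then 1 else 0)) :=
    Finset.sum_le_sum hle
  rw [Finset.sum_add_distrib, (hCnt V G (Z ∩ K)).1, Finset.sum_const, smul_eq_mul,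
    ← Finset.card_filter] at hsum
  have hdgle : ((Z ∩ K).filter (fun b => G.Adj v b)).card ≤ 1 := by
    have : dg G (Z ∩ K) v ≤ dg G Z v := cyc_dg_mono G Finset.inter_subset_left v
    unfold dg at this hr
    exact this.trans hr
  have hcy : 1 ≤ cy G (Z ∩ K) := by
    unfold cy
    omega
  exact hcy.trans (hMono V G Z (Z ∩ K) hconn Finset.inter_subset_left hne)

lemma cyc_sum_dg (hComp : Stmt_Comp) (S K : Finset V) (v : V) (hKS : K ⊆ S) :
    ∑ Z ∈ comps G (S.erase v), dg G (Z ∩ K) v = dg G K v := by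
  classical
  obtain ⟨hdisj, hunion, -⟩ := hComp V G (S.erase v)
  unfold dg
  rw [← Finset.card_biUnion]
  · congr 1
    ext b
    simp only [Finset.mem_biUnion, Finset.mem_filter, Finset.mem_inter]
    constructor
    · rintro ⟨Z, hZ, ⟨hbZ, hbK⟩, hvb⟩
      exact ⟨hbK, hvb⟩
    · rintro ⟨hbK, hvb⟩
      have hbv : b ≠ v := by
        intro h
        subst h
        exact G.loopless.irrefl _ hvb
      have hb : b ∈ S.erase v := Finset.mem_erase.2 ⟨hbv, hKS hbK⟩
      rw [← hunion, Finset.mem_biUnion] at hb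
      obtain ⟨Z, hZ, hbZ⟩ := hb
      exact ⟨Z, hZ, ⟨hbZ, hbK⟩, hvb⟩
  · intro Z hZ Y hY hne
    have := hdisj Z hZ Y hY hne
    exact Finset.disjoint_of_subset_left
      ((Finset.filter_subset _ _).trans Finset.inter_subset_left)
      (Finset.disjoint_of_subset_right
        ((Finset.filter_subset _ _).trans Finset.inter_subset_left) this)

end

theorem cyc (hCnt : Stmt_Cnt) (hComp : Stmt_Comp) (hCySum : Stmt_CySum) (hMono : Stmt_Mono) :
    Stmt_Cyc := by
  intro V _ _ G S hS h1 h2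
  classical
  obtain ⟨K, hKS, hKne, hKc, hdeg⟩ := cyc_core G hCnt S hS.1 h1
  obtain ⟨v, hvK, hv⟩ := cyc_big_vertex G hCnt S K hKne h1 h2 hKc hdeg
  refine ⟨v, hKS hvK, ?_⟩
  by_contra hcon
  push Not at hcon
  obtain ⟨hr1, hcs⟩ := hCySum V G S v hS (hKS hvK)
  -- the components have exactly one edge to `v`
  have hsplit : cy G S = ∑ Z ∈ comps G (S.erase v), cy G Z +
      ∑ Z ∈ comps G (S.erase v), ((dg G Z v : ℤ) - 1) := by
    rw [hcs, ← Finset.sum_add_distrib]
    apply Finset.sum_congr rfl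
    intro Z _
    ring
  have hnn : ∀ Z ∈ comps G (S.erase v), 0 ≤ ((dg G Z v : ℤ) - 1) := by
    intro Z hZ
    have := hr1 Z hZ
    omega
  have hzero : ∑ Z ∈ comps G (S.erase v), ((dg G Z v : ℤ) - 1) = 0 := by
    have := Finset.sum_nonneg hnn
    omega
  have hall : ∀ Z ∈ comps G (S.erase v), dg G Z v ≤ 1 := by
    intro Z hZ
    have := (Finset.sum_eq_zero_iff_of_nonneg hnn).1 hzero Z hZ
    omega
  have hle : ∀ Z ∈ comps G (S.erase v), (dg G (Z ∩ K) v : ℤ) ≤ cy G Z := by
    intro Z hZ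
    rcases Nat.lt_or_ge 0 (dg G (Z ∩ K) v) with hpos | hz
    · have h3 := cyc_cy_pos G hCnt hMono S K Z v hKS hdeg hZ (hall Z hZ) hpos
      have h4 : dg G (Z ∩ K) v ≤ dg G Z v := cyc_dg_mono G Finset.inter_subset_left v
      have h5 := hall Z hZ
      omega
    · obtain ⟨hconn, -, -⟩ := cyc_comp_closed G S Z v hZ
      obtain ⟨x, hx⟩ := hconn.1
      have h6 := hMono V G Z {x} hconn (Finset.singleton_subset_iff.2 hx)
        (Finset.singleton_nonempty x)
      rw [cyc_cy_singleton G hCnt] at h6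
      omega
  have hsum := Finset.sum_le_sum hle
  have h7 : (∑ Z ∈ comps G (S.erase v), (dg G (Z ∩ K) v : ℤ)) = (dg G K v : ℤ) := by
    exact_mod_cast cyc_sum_dg G hComp S K v hKS
  rw [h7] at hsum
  omega

end Pool.Agent.SQ
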