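import Pool.Agent.SQ.Stmts

/-!
# Positive square energy (MP_2d493b_co): determinant of `x + i A`
-/

namespace Pool.Agent.SQ

open Finset Matrix

theorem det_proof : Stmt_Det := by
  intro V _ _ A hA x
  have h1 : (A.map (algebraMap ℝ ℂ)).charpoly =
      ∏ i, (Polynomial.X - Polynomial.C ((hA.eigenvalues i : ℝ) : ℂ)) := by
    rw [Matrix.charpoly_map, hA.charpoly_eq, Polynomial.map_prod]
    refine prod_congr rfl fun i _ => ?_
    simp
  have h2 : CM (fun _ => x) A =
      (-Complex.I) • (Matrix.scalar V (Complex.I * x) - A.map (algebraMap ℝ ℂ)) := by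
    ext a b
    have hI : Complex.I * Complex.I = -1 := Complex.I_mul_I
    simp only [CM, Matrix.smul_apply, Matrix.sub_apply, Matrix.scalar_apply, Matrix.map_apply,
      Matrix.diagonal_apply, smul_eq_mul, Complex.coe_algebraMap]
    by_cases hab : a = b
    · simp only [hab, if_true]
      linear_combination (x : ℂ) * hI
    · simp only [hab, if_false]
      ring
  unfold dt
  rw [h2, Matrix.det_smul, ← Matrix.eval_charpoly, h1, Polynomial.eval_prod,
    ← Finset.card_univ, ← Finset.prod_const, ← Finset.prod_mul_distrib]
  refine prod_congr rfl fun i _ => ?_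
  have hI : Complex.I * Complex.I = -1 := Complex.I_mul_I
  simp only [Polynomial.eval_sub, Polynomial.eval_X, Polynomial.eval_C]
  linear_combination (-(x : ℂ)) * hI

end Pool.Agent.SQ
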