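import Mathlib

/-!
# The positive square energy of a graph
-/

namespace Pool.Agent.SQ

/-- The real adjacency matrix is Hermitian. -/
theorem isHermitian_adj {V : Type*} [Fintype V] [DecidableEq V] (G : SimpleGraph V)
    [DecidableRel G.Adj] : (G.adjMatrix ℝ).IsHermitian := by
  rw [Matrix.IsHermitian, Matrix.conjTranspose_eq_transpose_of_trivial]
  exact G.isSymm_adjMatrix

/-- The positive square energy `s⁺(G)`: the sum of the squares of the positive eigenvalues of the
adjacency matrix (with multiplicities). -/
noncomputable def posSquareEnergy {V : Type*} [Fintype V] [DecidableEq V] (G : SimpleGraph V)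
    [DecidableRel G.Adj] : ℝ :=
  ∑ i with 0 < (isHermitian_adj G).eigenvalues i, (isHermitian_adj G).eigenvalues i ^ 2

end Pool.Agent.SQ
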