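import Pool.Agent.SQ.Stmts

/-!
# Positive square energy: translation to Mathlib's notions
-/

namespace Pool.Agent.SQ

open Finset

namespace FinalX

variable {V : Type} [Fintype V] [DecidableEq V]

lemma AM_univ (G : SimpleGraph V) [DecidableRel G.Adj] :
    AM G (Finset.univ : Finset V) = G.adjMatrix ℝ := by
  ext a b
  unfold AM
  rw [SimpleGraph.adjMatrix_apply]
  by_cases h : G.Adj a b
  · simp [h]
  · simp [h]

lemma conn_univ (G : SimpleGraph V) (hG : G.Connected) : Conn G (Finset.univ : Finset V) := by
  haveI := hG.nonempty
  refine ⟨Finset.univ_nonempty, ?_⟩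
  intro T _ hT hcl
  obtain ⟨a, ha⟩ := hT
  have key : ∀ b : V, G.Reachable a b → b ∈ T := by
    intro b hb
    obtain ⟨w⟩ := hb
    have : ∀ (x y : V) (w : G.Walk x y), x ∈ T → y ∈ T := by
      intro x y w
      induction w with
      | nil => exact id
      | cons hadj _ ih =>
        intro hx
        apply ih
        by_contra hy
        exact hcl _ hx _ (Finset.mem_univ _) hy hadj
    exact this a b w ha
  ext b
  simp only [Finset.mem_univ, iff_true]
  exact key b (hG.preconnected a b)

lemma dg_univ (G : SimpleGraph V) [DecidableRel G.Adj] (v : V) :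
    dg G (Finset.univ : Finset V) v = G.degree v := by
  classical
  unfold dg
  rw [← SimpleGraph.card_neighborFinset_eq_degree]
  congr 1
  ext b
  simp

end FinalX

open FinalX

theorem final_proof (hCnt : Stmt_Cnt) (hMain : Stmt_Main) : Stmt_Final := by
  intro V _ _ G _ hG hm
  have hC := conn_univ G hG
  have h := hMain V G Finset.univ hC
  have h1 := (hCnt V G Finset.univ).1
  have h2 : ∑ u : V, dg G Finset.univ u = 2 * G.edgeFinset.card := by
    rw [← SimpleGraph.sum_degrees_eq_twice_card_edges]
    exact Finset.sum_congr rfl (fun v _ => dg_univ G v)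
  have h3 : ne G (Finset.univ : Finset V) = G.edgeFinset.card := by omega
  have h4 : 2 ≤ cy G (Finset.univ : Finset V) := by
    unfold cy
    rw [h3, Finset.card_univ]
    omega
  have h5 : phi (cy G (Finset.univ : Finset V)) = 0 := by
    unfold phi
    rw [if_neg (by omega), if_neg (by omega)]
  rw [h5] at h
  unfold ff at h
  rw [AM_univ, Finset.card_univ] at h
  linarith

end Pool.Agent.SQ
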