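import Pool.Agent.SQ.Stmts

/-!
# Positive square energy (MP_2d493b_co): the hub case
-/

namespace Pool.Agent.SQ

open Finset

theorem hub_dg_erase {V : Type} [Fintype V] [DecidableEq V] (G : SimpleGraph V)
    (S : Finset V) (v : V) : dg G (S.erase v) v = dg G S v := by
  classical
  unfold dg
  congr 1
  ext a
  simp only [Finset.mem_filter, Finset.mem_erase]
  constructor
  · rintro ⟨⟨_, h⟩, h'⟩
    exact ⟨h, h'⟩
  · rintro ⟨h, h'⟩
    exact ⟨⟨fun e => G.irrefl (e ▸ h'), h⟩, h'⟩

theorem hub_cy_singleton {V : Type} [Fintype V] [DecidableEq V] (G : SimpleGraph V)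
    (a : V) : cy G {a} = 0 := by
  classical
  have : dg G {a} a = 0 := by
    unfold dg
    rw [Finset.card_eq_zero]
    apply Finset.filter_false_of_mem
    intro b hb
    rw [Finset.mem_singleton] at hb
    subst hb
    exact G.irrefl
  unfold cy ne
  simp [this]

theorem hub_proof (hVert : Stmt_Vert) (hHubQ : Stmt_HubQ) (hNum : Stmt_Num)
    (hCySum : Stmt_CySum) (hComp : Stmt_Comp) (hSup : Stmt_Sup) (hMono : Stmt_Mono) :
    Stmt_Hub := by
  classical
  intro V _ _ G S v hS hv hcy hcase hff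
  obtain ⟨K, hKS, hvK, hdeg, hvert⟩ := hVert V G S v hv
  obtain ⟨hdis, hun, hcard, _, hdg, _⟩ := hComp V G (S.erase v)
  obtain ⟨hr, hcS⟩ := hCySum V G S v hS hv
  have hQ := hHubQ V G S K v hS hv hKS hvK hdeg hcy
  have hsup := hSup V G (S.erase v) (comps G (S.erase v)) hdis hun
  have hnn : ∀ Z ∈ comps G (S.erase v), 0 ≤ cy G Z := by
    intro Z hZ
    have hZc : Conn G Z := by
      unfold comps at hZ
      exact (Finset.mem_filter.mp hZ).2.1
    obtain ⟨a, ha⟩ := hZc.1
    have := hMono V G Z {a} hZc (Finset.singleton_subset_iff.mpr ha) (Finset.singleton_nonempty a)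
    rw [hub_cy_singleton] at this
    exact this
  have hnum := hNum (Finset V) (comps G (S.erase v)) (fun Z => (dg G Z v : ℤ)) (fun Z => cy G Z)
    (QQ G K v : ℝ)
    (fun Z hZ => ⟨by exact_mod_cast hr Z hZ, hnn Z hZ, hcy Z hZ⟩)
    (by positivity)
    (by exact_mod_cast hQ)
    (by
      rw [← hcS]
      exact hcase)
  rw [← hcS] at hnum
  refine hnum.trans ?_
  have hcardS : (S.card : ℝ) = ∑ Z ∈ comps G (S.erase v), (Z.card : ℝ) + 1 := by
    have h1 : S.card = (S.erase v).card + 1 := (Finset.card_erase_add_one hv).symm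
    rw [h1, ← hcard]
    push_cast
    rfl
  have hdgS : (dg G S v : ℝ) = ∑ Z ∈ comps G (S.erase v), (dg G Z v : ℝ) := by
    rw [← hub_dg_erase, ← hdg v]
    push_cast
    rfl
  have hsum : ∑ Z ∈ comps G (S.erase v), (phi (cy G Z) + (((dg G Z v : ℕ) : ℤ) : ℝ))
      ≤ ∑ Z ∈ comps G (S.erase v), sp (AM G Z)
        - ∑ Z ∈ comps G (S.erase v), (Z.card : ℝ) + ∑ Z ∈ comps G (S.erase v), (dg G Z v : ℝ) := by
    rw [← Finset.sum_sub_distrib, ← Finset.sum_add_distrib]
    apply Finset.sum_le_sum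
    intro Z hZ
    have := hff Z hZ
    unfold ff at this
    push_cast
    linarith
  unfold ff
  rw [hcardS]
  rw [hdgS] at hvert
  linarith

end Pool.Agent.SQ
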