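import Pool.Agent.SQ.Stmts

/-!
# Positive square energy (MP_2d493b_co): counting two-step walks at a hub
-/

namespace Pool.Agent.SQ

open Finset

namespace HubQX

variable {V : Type} [Fintype V] [DecidableEq V]

open Classical in
lemma comps_spec {G : SimpleGraph V} {S Z : Finset V} (h : Z ∈ comps G S) :
    Conn G Z ∧ Z ⊆ S ∧ ∀ a ∈ Z, ∀ b ∈ S, b ∉ Z → ¬ G.Adj a b := by
  unfold comps at h
  rw [mem_filter, mem_powerset] at h
  exact ⟨h.2.1, h.1, h.2.2⟩

lemma mul_mono_aux {r' r c : ℤ} (h0 : 0 ≤ r') (hr : r' ≤ r) (h1 : 1 ≤ r) (hc : 0 ≤ c) :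
    r' * (r' - 1 + c) ≤ r * (r - 1 + c) := by
  rcases h0.eq_or_lt with h | h
  · rw [← h]; nlinarith
  · nlinarith [mul_nonneg (by linarith : (0 : ℤ) ≤ r - r') (by linarith : (0 : ℤ) ≤ r + r' - 1 + c)]

open Classical in
lemma comp_bound (hCnt : Stmt_Cnt) (hMono : Stmt_Mono) {G : SimpleGraph V} {S K Z : Finset V}
    {v : V} (hKS : K ⊆ S) (hdeg : ∀ u ∈ K, u ≠ v → 2 ≤ dg G K u)
    (hZ : Z ∈ comps G (S.erase v)) (hr : 1 ≤ dg G Z v) :
    ((∑ w ∈ Z ∩ K, ((K.filter (fun u => G.Adj v u ∧ G.Adj u w)).card) ^ 2 : ℕ) : ℤ) ≤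
      2 * (dg G Z v : ℤ) * ((dg G Z v : ℤ) - 1 + cy G Z) := by
  obtain ⟨hconn, hsub, hcl⟩ := comps_spec hZ
  have hcy0 : 0 ≤ cy G Z := by
    obtain ⟨y, hy⟩ := hconn.1
    have h1 := hMono V G Z {y} hconn (by simpa using hy) (singleton_nonempty y)
    have h2 : ne G {y} = 0 := by
      have h3 := (hCnt V G {y}).1
      have h4 : dg G {y} y = 0 := by
        unfold dg
        rw [card_eq_zero, filter_eq_empty_iff]
        intro b hb
        rw [mem_singleton] at hb
        rw [hb]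
        exact G.irrefl
      rw [sum_singleton, h4] at h3
      omega
    unfold cy at h1
    rw [h2, card_singleton] at h1
    unfold cy
    push_cast at h1
    linarith
  set Z' : Finset V := Z ∩ K with hZ'
  set N : Finset V := Z'.filter (fun u => G.Adj v u) with hN
  have hr' : N.card = dg G Z' v := by
    rw [hN]; unfold dg; rfl
  have hr'r : N.card ≤ dg G Z v := by
    unfold dg
    apply card_le_card
    intro u hu
    rw [hN, mem_filter, hZ', mem_inter] at hu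
    rw [mem_filter]
    exact ⟨hu.1.1, hu.2⟩
  -- the common neighbours
  have ht : ∀ w ∈ Z', (K.filter (fun u => G.Adj v u ∧ G.Adj u w)).card =
      ∑ u ∈ N, if G.Adj u w then 1 else 0 := by
    intro w hw
    rw [← card_filter]
    congr 1
    ext u
    rw [mem_filter, mem_filter, hN, mem_filter, hZ', mem_inter]
    rw [hZ', mem_inter] at hw
    constructor
    · rintro ⟨h1, h2, h3⟩
      refine ⟨⟨⟨?_, h1⟩, h2⟩, h3⟩
      by_contra h4
      exact hcl w hw.1 u (mem_erase.2 ⟨h2.ne', hKS h1⟩) h4 h3.symm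
    · rintro ⟨⟨⟨_, h1⟩, h2⟩, h3⟩
      exact ⟨h1, h2, h3⟩
  have hdgN : ∀ u, dg G Z' u = ∑ w ∈ Z', if G.Adj u w then 1 else 0 := by
    intro u
    unfold dg
    rw [card_filter]
  have hsum : ∑ w ∈ Z', ∑ u ∈ N, (if G.Adj u w then 1 else 0) = ∑ u ∈ N, dg G Z' u := by
    rw [sum_comm]
    exact sum_congr rfl fun u _ => (hdgN u).symm
  have hdeg' : ∀ u ∈ Z'.filter (fun u => ¬ G.Adj v u), 2 ≤ dg G Z' u := by
    intro u hu
    rw [mem_filter, hZ', mem_inter] at hu
    have huv : u ≠ v := by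
      intro h
      have := hsub hu.1.1
      rw [h] at this
      exact (notMem_erase v S) this
    refine (hdeg u hu.1.2 huv).trans ?_
    unfold dg
    apply card_le_card
    intro b hb
    rw [mem_filter] at hb ⊢
    refine ⟨?_, hb.2⟩
    rw [hZ', mem_inter]
    refine ⟨?_, hb.1⟩
    by_contra h4
    have hbv : b ≠ v := by
      intro h
      rw [h] at hb
      exact hu.2 hb.2.symm
    exact hcl u hu.1.1 b (mem_erase.2 ⟨hbv, hKS hb.1⟩) h4 hb.2
  have hsplit : ∑ u ∈ N, dg G Z' u + ∑ u ∈ Z'.filter (fun u => ¬ G.Adj v u), dg G Z' u =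
      2 * ne G Z' := by
    rw [← (hCnt V G Z').1, hN]
    exact sum_filter_add_sum_filter_not _ _ _
  have hlow : 2 * (Z'.filter (fun u => ¬ G.Adj v u)).card ≤
      ∑ u ∈ Z'.filter (fun u => ¬ G.Adj v u), dg G Z' u := by
    rw [mul_comm, ← smul_eq_mul]
    exact card_nsmul_le_sum _ _ _ hdeg'
  have hcard : N.card + (Z'.filter (fun u => ¬ G.Adj v u)).card = Z'.card := by
    rw [hN]
    exact card_filter_add_card_filter_not _
  -- bound of the sum of squares
  have hsq : ∑ w ∈ Z', ((K.filter (fun u => G.Adj v u ∧ G.Adj u w)).card) ^ 2 ≤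
      N.card * ∑ u ∈ N, dg G Z' u := by
    rw [← hsum, mul_sum]
    refine sum_le_sum fun w hw => ?_
    rw [ht w hw, sq]
    apply Nat.mul_le_mul_right
    rw [← card_filter]
    exact card_filter_le _ _
  rcases Z'.eq_empty_or_nonempty with hE | hE
  · have h0 : N = ∅ := by rw [hN, hE]; rfl
    rw [h0, card_empty, zero_mul] at hsq
    have h1 : (0 : ℤ) ≤ 2 * (dg G Z v : ℤ) * ((dg G Z v : ℤ) - 1 + cy G Z) := by
      have : (1 : ℤ) ≤ dg G Z v := by exact_mod_cast hr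
      have h2 : (0 : ℤ) ≤ (dg G Z v : ℤ) - 1 + cy G Z := by linarith
      positivity
    refine le_trans ?_ h1
    exact_mod_cast hsq
  · have hm := hMono V G Z Z' hconn inter_subset_left hE
    have h1 : ((∑ u ∈ N, dg G Z' u : ℕ) : ℤ) ≤ 2 * ((N.card : ℤ) - 1 + cy G Z) := by
      unfold cy at hm ⊢
      have e1 : ((∑ u ∈ N, dg G Z' u : ℕ) : ℤ) +
          ((∑ u ∈ Z'.filter (fun u => ¬ G.Adj v u), dg G Z' u : ℕ) : ℤ) = 2 * (ne G Z' : ℤ) := by
        exact_mod_cast hsplit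
      have e2 : 2 * ((Z'.filter (fun u => ¬ G.Adj v u)).card : ℤ) ≤
          ((∑ u ∈ Z'.filter (fun u => ¬ G.Adj v u), dg G Z' u : ℕ) : ℤ) := by
        exact_mod_cast hlow
      have e3 : (N.card : ℤ) + ((Z'.filter (fun u => ¬ G.Adj v u)).card : ℤ) = (Z'.card : ℤ) := by
        exact_mod_cast hcard
      linarith
    have h2 : ((∑ w ∈ Z', ((K.filter (fun u => G.Adj v u ∧ G.Adj u w)).card) ^ 2 : ℕ) : ℤ) ≤
        (N.card : ℤ) * ((∑ u ∈ N, dg G Z' u : ℕ) : ℤ) := by
      exact_mod_cast hsq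
    have h3 : (N.card : ℤ) * ((∑ u ∈ N, dg G Z' u : ℕ) : ℤ) ≤
        (N.card : ℤ) * (2 * ((N.card : ℤ) - 1 + cy G Z)) :=
      mul_le_mul_of_nonneg_left h1 (by positivity)
    have h4 := mul_mono_aux (r' := (N.card : ℤ)) (r := (dg G Z v : ℤ)) (c := cy G Z)
      (by positivity) (by exact_mod_cast hr'r) (by exact_mod_cast hr) hcy0
    linarith

end HubQX

open HubQX in
open Classical in
theorem hubQ_proof (hCnt : Stmt_Cnt) (hComp : Stmt_Comp) (hCySum : Stmt_CySum)
    (hMono : Stmt_Mono) : Stmt_HubQ := by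
  intro V _ _ G S K v hS hv hKS hvK hdeg _
  obtain ⟨hdisj, hun, -⟩ := hComp V G (S.erase v)
  obtain ⟨hr, -⟩ := hCySum V G S v hS hv
  have hK : K.erase v = (comps G (S.erase v)).biUnion (fun Z => Z ∩ K) := by
    ext w
    rw [mem_biUnion, mem_erase]
    constructor
    · rintro ⟨h1, h2⟩
      have h3 : w ∈ (comps G (S.erase v)).biUnion id := by
        rw [hun]; exact mem_erase.2 ⟨h1, hKS h2⟩
      rw [mem_biUnion] at h3
      obtain ⟨Z, hZ, hw⟩ := h3
      exact ⟨Z, hZ, mem_inter.2 ⟨hw, h2⟩⟩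
    · rintro ⟨Z, hZ, hw⟩
      rw [mem_inter] at hw
      have h4 := (comps_spec hZ).2.1 hw.1
      exact ⟨(mem_erase.1 h4).1, hw.2⟩
  unfold QQ
  rw [hK, sum_biUnion]
  · push_cast
    refine sum_le_sum fun Z hZ => ?_
    have := comp_bound hCnt hMono hKS hdeg hZ (hr Z hZ)
    push_cast at this
    exact this
  · intro Z hZ Y hY hne
    exact (hdisj Z hZ Y hY hne).mono inter_subset_left inter_subset_left

end Pool.Agent.SQ
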