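import Pool.Agent.SQ.Stmts

/-!
# Positive square energy (MP_2d493b_co): module Lam (laminar partition)
-/

set_option autoImplicit false

namespace Pool.Agent.SQ.Lam

open Finset

variable {V : Type} [Fintype V] [DecidableEq V]

theorem mem_comps {G : SimpleGraph V} {S Z : Finset V} :
    Z ∈ comps G S ↔ Z ⊆ S ∧ Conn G Z ∧ ∀ a ∈ Z, ∀ b ∈ S, b ∉ Z → ¬ G.Adj a b := by
  unfold comps
  simp only [mem_filter, mem_powerset]

open Classical in
/-- `v` together with the components of `S - v` with cyclomatic number at most `1` -/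
noncomputable def Bv (G : SimpleGraph V) (S : Finset V) (v : V) : Finset V :=
  insert v (((comps G (S.erase v)).filter (fun Z => cy G Z ≤ 1)).biUnion id)

theorem mem_Bv {G : SimpleGraph V} {S : Finset V} {v x : V} :
    x ∈ Bv G S v ↔ x = v ∨ ∃ Z ∈ comps G (S.erase v), cy G Z ≤ 1 ∧ x ∈ Z := by
  unfold Bv
  rw [mem_insert, mem_biUnion]
  constructor
  · rintro (h | ⟨Z, hZ, hx⟩)
    · exact Or.inl h
    · rw [mem_filter] at hZ
      exact Or.inr ⟨Z, hZ.1, hZ.2, hx⟩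
  · rintro (h | ⟨Z, hZ, hc, hx⟩)
    · exact Or.inl h
    · exact Or.inr ⟨Z, mem_filter.mpr ⟨hZ, hc⟩, hx⟩

theorem Bv_subset {G : SimpleGraph V} {S : Finset V} {v : V} (hv : v ∈ S) : Bv G S v ⊆ S := by
  intro x hx
  rw [mem_Bv] at hx
  rcases hx with rfl | ⟨Z, hZ, _, hx⟩
  · exact hv
  · exact (mem_erase.mp ((mem_comps.mp hZ).1 hx)).2

/-- a component of `S - u` is adjacent to `u` -/
theorem exists_adj {G : SimpleGraph V} {S Z : Finset V} {u : V} (hS : Conn G S) (hu : u ∈ S)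
    (hZ : Z ∈ comps G (S.erase u)) : ∃ z ∈ Z, G.Adj u z := by
  by_contra hcon
  push Not at hcon
  obtain ⟨h1, h2, h3⟩ := mem_comps.mp hZ
  have h4 : Z = S := by
    apply hS.2 Z (h1.trans (erase_subset _ _)) h2.1
    intro a ha b hb hbZ hab
    by_cases hbu : b = u
    · rw [hbu] at hab
      exact hcon a ha hab.symm
    · exact h3 a ha b (mem_erase.mpr ⟨hbu, hb⟩) hbZ hab
  rw [← h4] at hu
  exact (mem_erase.mp (h1 hu)).1 rfl

/-- components avoiding `v` -/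
theorem comp_sub (hComp : Stmt_Comp) {G : SimpleGraph V} {S Z Y : Finset V} {u v : V}
    (hS : Conn G S) (hZ : Z ∈ comps G (S.erase v)) (hu : u ∈ Z)
    (hY : Y ∈ comps G (S.erase u)) (hv : v ∉ Y) : Y ⊆ Z := by
  obtain ⟨z1, z2, z3⟩ := mem_comps.mp hZ
  obtain ⟨y1, y2, y3⟩ := mem_comps.mp hY
  have huS : u ∈ S := (mem_erase.mp (z1 hu)).2
  obtain ⟨y, hyY, hay⟩ := exists_adj hS huS hY
  have hYS : Y ⊆ S.erase v := by
    intro x hx
    refine mem_erase.mpr ⟨?_, (mem_erase.mp (y1 hx)).2⟩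
    rintro rfl
    exact hv hx
  obtain ⟨Z', hZ', hYZ'⟩ := (hComp V G (S.erase v)).2.2.2.2.2 Y hYS y2
  have hyZ : y ∈ Z := by
    by_contra hcon
    exact z3 u hu y (hYS hyY) hcon hay
  have hZZ : Z' = Z := by
    by_contra hne
    exact (Finset.disjoint_left.mp ((hComp V G (S.erase v)).1 Z' hZ' Z hZ hne)) (hYZ' hyY) hyZ
  rw [← hZZ]
  exact hYZ'

/-- nested -/
theorem Bv_nested (hComp : Stmt_Comp) (hMono : Stmt_Mono) {G : SimpleGraph V} {S : Finset V}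
    (hS : Conn G S) (hhub : ∀ v ∈ S, ∃ Z ∈ comps G (S.erase v), 2 ≤ cy G Z) {u v : V}
    (hv : v ∈ S) (hu : u ∈ Bv G S v) : Bv G S u ⊆ Bv G S v := by
  have huS : u ∈ S := Bv_subset hv hu
  rw [mem_Bv] at hu
  rcases hu with rfl | ⟨Z, hZ, hcZ, huZ⟩
  · exact Subset.refl _
  · obtain ⟨z1, z2, z3⟩ := mem_comps.mp hZ
    obtain ⟨W, hW, hcW⟩ := hhub u huS
    have hvW : v ∈ W := by
      by_contra hcon
      have h1 := comp_sub hComp hS hZ huZ hW hcon
      have h2 := hMono V G Z W z2 h1 (mem_comps.mp hW).2.1.1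
      linarith
    intro x hx
    rw [mem_Bv] at hx
    have hxZ : x ∈ Z := by
      rcases hx with rfl | ⟨Y, hY, hcY, hxY⟩
      · exact huZ
      · have hne : Y ≠ W := by
          rintro rfl
          linarith
        have hvY : v ∉ Y := by
          intro hvY
          exact Finset.disjoint_left.mp ((hComp V G (S.erase u)).1 Y hY W hW hne) hvY hvW
        exact comp_sub hComp hS hZ huZ hY hvY hxY
    rw [mem_Bv]
    exact Or.inr ⟨Z, hZ, hcZ, hxZ⟩

/-- laminar -/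
theorem Bv_laminar (hComp : Stmt_Comp) (hMono : Stmt_Mono) {G : SimpleGraph V} {S : Finset V}
    (hS : Conn G S) (hhub : ∀ v ∈ S, ∃ Z ∈ comps G (S.erase v), 2 ≤ cy G Z) {u v w : V}
    (hu : u ∈ S) (hv : v ∈ S) (h1 : w ∈ Bv G S u) (h2 : w ∈ Bv G S v) :
    Bv G S u ⊆ Bv G S v ∨ Bv G S v ⊆ Bv G S u := by
  by_cases huv : u ∈ Bv G S v
  · exact Or.inl (Bv_nested hComp hMono hS hhub hv huv)
  by_cases hvu : v ∈ Bv G S u
  · exact Or.inr (Bv_nested hComp hMono hS hhub hu hvu)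
  exfalso
  have h1' := h1
  have h2' := h2
  rw [mem_Bv] at h1 h2
  rcases h1 with rfl | ⟨Zu, hZu, hcu, hwu⟩
  · exact huv h2'
  rcases h2 with rfl | ⟨Zv, hZv, hcv, hwv⟩
  · exact hvu h1'
  have hvZu : v ∉ Zu := fun h => hvu (mem_Bv.mpr (Or.inr ⟨Zu, hZu, hcu, h⟩))
  have huZv : u ∉ Zv := fun h => huv (mem_Bv.mpr (Or.inr ⟨Zv, hZv, hcv, h⟩))
  obtain ⟨a1, a2, a3⟩ := mem_comps.mp hZu
  obtain ⟨b1, b2, b3⟩ := mem_comps.mp hZv
  have hsub : Zu ⊆ S.erase v := by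
    intro x hx
    refine mem_erase.mpr ⟨?_, (mem_erase.mp (a1 hx)).2⟩
    rintro rfl
    exact hvZu hx
  obtain ⟨Z', hZ', hZuZ'⟩ := (hComp V G (S.erase v)).2.2.2.2.2 Zu hsub a2
  have hZZ : Z' = Zv := by
    by_contra hne
    exact (Finset.disjoint_left.mp ((hComp V G (S.erase v)).1 Z' hZ' Zv hZv hne)) (hZuZ' hwu) hwv
  rw [hZZ] at hZuZ'
  obtain ⟨z, hz, haz⟩ := exists_adj hS hu hZu
  have huv' : u ≠ v := by
    rintro rfl
    exact huv (mem_Bv.mpr (Or.inl rfl))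
  exact b3 z (hZuZ' hz) u (mem_erase.mpr ⟨huv', hu⟩) huZv haz.symm

/-- components of the complement of `Bv` -/
theorem comps_sdiff (hComp : Stmt_Comp) {G : SimpleGraph V} {S : Finset V} {v : V} (hv : v ∈ S)
    {Z : Finset V} (hZ : Z ∈ comps G (S \ Bv G S v)) : 2 ≤ cy G Z := by
  obtain ⟨h1, h2, h3⟩ := mem_comps.mp hZ
  have hvB : v ∈ Bv G S v := mem_Bv.mpr (Or.inl rfl)
  have hsub : Z ⊆ S.erase v := by
    intro x hx
    have h4 := mem_sdiff.mp (h1 hx)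
    refine mem_erase.mpr ⟨?_, h4.1⟩
    rintro rfl
    exact h4.2 hvB
  obtain ⟨Y, hY, hZY⟩ := (hComp V G (S.erase v)).2.2.2.2.2 Z hsub h2
  obtain ⟨y1, y2, y3⟩ := mem_comps.mp hY
  obtain ⟨z, hz⟩ := h2.1
  have hcY : 2 ≤ cy G Y := by
    by_contra hcon
    have h5 : z ∈ Bv G S v := mem_Bv.mpr (Or.inr ⟨Y, hY, by omega, hZY hz⟩)
    exact (mem_sdiff.mp (h1 hz)).2 h5
  have hYB : Y ⊆ S \ Bv G S v := by
    intro x hx
    refine mem_sdiff.mpr ⟨(mem_erase.mp (y1 hx)).2, ?_⟩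
    intro hxB
    rw [mem_Bv] at hxB
    rcases hxB with rfl | ⟨W, hW, hcW, hxW⟩
    · exact (mem_erase.mp (y1 hx)).1 rfl
    · have hne : Y ≠ W := by
        rintro rfl
        omega
      exact Finset.disjoint_left.mp ((hComp V G (S.erase v)).1 Y hY W hW hne) hx hxW
  have hEq : Z = Y := y2.2 Z hZY h2.1 (fun a ha b hb hbZ => h3 a ha b (hYB hb) hbZ)
  rw [hEq]
  exact hcY

end Pool.Agent.SQ.Lam

namespace Pool.Agent.SQ

open Finset Lam

theorem lam_proof (hComp : Stmt_Comp) (hMono : Stmt_Mono) : Stmt_Lam := by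
  classical
  intro V _ _ G S hS hhub
  set F : Finset (Finset V) := S.image (Bv G S) with hF
  set P : Finset (Finset V) := F.filter (fun B => ∀ C ∈ F, B ⊆ C → C = B) with hP
  have hmem : ∀ B ∈ P, ∃ v ∈ S, Bv G S v = B := by
    intro B hB
    have := (mem_filter.mp hB).1
    rw [hF, mem_image] at this
    exact this
  have hmax : ∀ B ∈ P, ∀ v ∈ S, B ⊆ Bv G S v → Bv G S v = B := by
    intro B hB v hv h
    exact (mem_filter.mp hB).2 _ (mem_image_of_mem _ hv) h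
  have hdisj : ∀ B ∈ P, ∀ C ∈ P, B ≠ C → Disjoint B C := by
    intro B hB C hC hne
    rw [Finset.disjoint_left]
    intro w hwB hwC
    obtain ⟨u, hu, rfl⟩ := hmem B hB
    obtain ⟨v, hv, rfl⟩ := hmem C hC
    rcases Bv_laminar hComp hMono hS hhub hu hv hwB hwC with h | h
    · exact hne (hmax _ hB v hv h).symm
    · exact hne (hmax _ hC u hu h)
  have hcov : ∀ x ∈ S, ∃ B ∈ P, x ∈ B := by
    intro x hx
    have h1 : Bv G S x ∈ F := mem_image_of_mem _ hx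
    obtain ⟨B, hB, hBmax⟩ := Finset.exists_max_image (F.filter (fun C => Bv G S x ⊆ C)) Finset.card
      ⟨Bv G S x, mem_filter.mpr ⟨h1, Subset.refl _⟩⟩
    rw [mem_filter] at hB
    refine ⟨B, mem_filter.mpr ⟨hB.1, ?_⟩, hB.2 (mem_Bv.mpr (Or.inl rfl))⟩
    intro C hC hBC
    have h2 := hBmax C (mem_filter.mpr ⟨hC, hB.2.trans hBC⟩)
    exact (Finset.eq_of_subset_of_card_le hBC h2).symm
  have hunion : P.biUnion id = S := by
    ext x
    rw [mem_biUnion]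
    constructor
    · rintro ⟨B, hB, hx⟩
      obtain ⟨v, hv, rfl⟩ := hmem B hB
      exact Bv_subset hv hx
    · intro hx
      obtain ⟨B, hB, hxB⟩ := hcov x hx
      exact ⟨B, hB, hxB⟩
  refine ⟨P, hdisj, hunion, ?_, ?_⟩
  · -- at least two parts
    obtain ⟨x, hx⟩ := hS.1
    obtain ⟨B, hB, hxB⟩ := hcov x hx
    obtain ⟨v, hv, rfl⟩ := hmem B hB
    obtain ⟨Z, hZ, hcZ⟩ := hhub v hv
    obtain ⟨z1, z2, z3⟩ := mem_comps.mp hZ
    obtain ⟨z, hz⟩ := z2.1
    have hzB : z ∉ Bv G S v := by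
      intro h
      rw [mem_Bv] at h
      rcases h with rfl | ⟨W, hW, hcW, hzW⟩
      · exact (mem_erase.mp (z1 hz)).1 rfl
      · have hne : Z ≠ W := by
          rintro rfl
          omega
        exact Finset.disjoint_left.mp ((hComp V G (S.erase v)).1 Z hZ W hW hne) hz hzW
    obtain ⟨C, hC, hzC⟩ := hcov z (mem_erase.mp (z1 hz)).2
    have hne : Bv G S v ≠ C := by
      rintro rfl
      exact hzB hzC
    exact Finset.one_lt_card.mpr ⟨_, hB, _, hC, hne⟩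
  · intro B hB
    obtain ⟨v, hv, rfl⟩ := hmem B hB
    exact ⟨⟨v, mem_Bv.mpr (Or.inl rfl)⟩, fun Z hZ => comps_sdiff hComp hv hZ⟩

end Pool.Agent.SQ
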