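import Pool.Agent.SQ.Stmts

/-!
# Positive square energy (MP_2d493b_co): elimination of leaves
-/

namespace Pool.Agent.SQ

open Finset Matrix

namespace LeafX

variable {V : Type} [Fintype V] [DecidableEq V]

omit [Fintype V] in
theorem AM_apply_of (G : SimpleGraph V) (S : Finset V) {a b : V} (ha : a ∈ S) (hb : b ∈ S)
    (h : G.Adj a b) : AM G S a b = 1 := by
  simp [AM, ha, hb, h]

omit [Fintype V] in
theorem AM_apply_not (G : SimpleGraph V) (S : Finset V) {a b : V}
    (h : ¬ (a ∈ S ∧ b ∈ S ∧ G.Adj a b)) : AM G S a b = 0 := by
  simp only [AM, if_neg h]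

theorem AM_congr (G : SimpleGraph V) (S T : Finset V) {a b : V}
    (h : (a ∈ S ∧ b ∈ S ∧ G.Adj a b) ↔ (a ∈ T ∧ b ∈ T ∧ G.Adj a b)) :
    AM G S a b = AM G T a b := by
  by_cases h1 : a ∈ S ∧ b ∈ S ∧ G.Adj a b
  · have h2 := h.1 h1
    rw [AM_apply_of G S h1.1 h1.2.1 h1.2.2, AM_apply_of G T h2.1 h2.2.1 h2.2.2]
  · have h2 : ¬ (a ∈ T ∧ b ∈ T ∧ G.Adj a b) := fun h3 => h1 (h.2 h3)
    rw [AM_apply_not G S h1, AM_apply_not G T h2]

/-- removing an isolated vertex -/
theorem AM_erase_iso (G : SimpleGraph V) (S : Finset V) (u : V)
    (h : ∀ b ∈ S, ¬ G.Adj u b) : AM G S = AM G (S.erase u) := by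
  ext a b
  apply AM_congr
  constructor
  · rintro ⟨h1, h2, h3⟩
    refine ⟨mem_erase.2 ⟨?_, h1⟩, mem_erase.2 ⟨?_, h2⟩, h3⟩
    · rintro rfl; exact h b h2 h3
    · rintro rfl; exact h a h1 h3.symm
  · rintro ⟨h1, h2, h3⟩
    exact ⟨mem_of_mem_erase h1, mem_of_mem_erase h2, h3⟩

/-- elimination of a leaf -/
theorem elim (G : SimpleGraph V) (T : Finset V) (u w : V) (hu : u ∈ T) (hw : w ∈ T)
    (hadj : G.Adj u w) (huniq : ∀ b ∈ T, G.Adj u b → b = w) (X : V → ℝ) (hX : 0 < X u) :
    dt X (AM G T) = dt (fun a => X a + if a = w then 1 / X u else 0) (AM G (T.erase u)) := by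
  have huw : u ≠ w := hadj.ne
  have hXu : (X u : ℂ) ≠ 0 := by exact_mod_cast hX.ne'
  set M := CM X (AM G T) with hM
  obtain ⟨c, hc⟩ : ∃ c : ℂ, c = -(Complex.I / (X u : ℂ)) := ⟨_, rfl⟩
  have hcX : c * (X u : ℂ) = -Complex.I := by rw [hc]; field_simp
  have hcI : c * Complex.I = 1 / (X u : ℂ) := by
    rw [hc]
    have := Complex.I_mul_I
    field_simp
    linear_combination -this
  have Muu : M u u = (X u : ℂ) := by
    simp [hM, CM, AM]
  have Muw : M u w = Complex.I := by
    simp [hM, CM, huw, AM_apply_of G T hu hw hadj]
  have Mwu : M w u = Complex.I := by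
    simp [hM, CM, huw.symm, AM_apply_of G T hw hu hadj.symm]
  have Mub : ∀ b, b ≠ u → b ≠ w → M u b = 0 := by
    intro b h1 h2
    have h3 : AM G T u b = 0 := AM_apply_not G T (fun h => h2 (huniq b h.2.1 h.2.2))
    simp [hM, CM, h1.symm, h3]
  have Mau : ∀ a, a ≠ u → a ≠ w → M a u = 0 := by
    intro a h1 h2
    have h3 : AM G T a u = 0 := AM_apply_not G T (fun h => h2 (huniq a h.1 h.2.2.symm))
    simp [hM, CM, h1, h3]
  have hsame : ∀ a b, a ≠ u → b ≠ u → AM G T a b = AM G (T.erase u) a b := by
    intro a b h1 h2
    apply AM_congr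
    simp [h1, h2]
  have hEu : ∀ b, AM G (T.erase u) u b = 0 := by
    intro b
    apply AM_apply_not
    simp
  have hEu' : ∀ a, AM G (T.erase u) a u = 0 := by
    intro a
    apply AM_apply_not
    simp
  have h1 : (updateRow M w (M w + c • M u)).det = M.det :=
    det_updateRow_add_smul_self M huw.symm c
  have h2 := det_updateCol_add_smul_self (updateRow M w (M w + c • M u)) huw.symm c
  unfold dt
  rw [← h1, ← h2]
  congr 1
  ext a b
  simp only [updateCol_apply, updateRow_apply, Pi.add_apply, Pi.smul_apply, smul_eq_mul]
  by_cases hb : b = w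
  · subst hb
    by_cases ha : a = b
    · subst ha
      simp only [if_true]
      rw [Muw, Mwu, Muu, hcI]
      have e1 : M a a = (X a : ℂ) := by simp [hM, CM, AM]
      have e2 : CM (fun a_1 => X a_1 + if a_1 = a then 1 / X u else 0) (AM G (T.erase u)) a a =
          (X a : ℂ) + 1 / (X u : ℂ) := by
        simp [CM, AM]
      rw [e1, e2, hcX]
      ring
    · simp only [if_true, ha, if_false]
      by_cases hau : a = u
      · subst hau
        rw [Muw, Muu, hcX]
        simp [CM, ha, hEu]
      · rw [Mau a hau ha]
        have e : AM G (T.erase u) a b = AM G T a b := (hsame a b hau huw.symm).symm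
        simp [hM, CM, ha, e]
  · simp only [hb, if_false]
    by_cases ha : a = w
    · subst ha
      simp only [if_true]
      by_cases hbu : b = u
      · subst hbu
        rw [Mwu, Muu, hcX]
        simp [CM, huw.symm, hEu']
      · rw [Mub b hbu hb]
        have e : AM G (T.erase u) a b = AM G T a b := (hsame a b huw.symm hbu).symm
        have hab : a ≠ b := fun h => hb h.symm
        simp [hM, CM, hab, e]
    · simp only [ha, if_false]
      by_cases hau : a = u
      · subst hau
        by_cases hbu : b = a
        · subst hbu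
          rw [Muu]
          simp [CM, ha, hEu]
        · rw [Mub b hbu hb]
          have hab : a ≠ b := fun h => hbu h.symm
          simp [CM, hab, hEu]
      · by_cases hbu : b = u
        · subst hbu
          rw [Mau a hau ha]
          simp [CM, hau, hEu']
        · have e : AM G (T.erase u) a b = AM G T a b := (hsame a b hau hbu).symm
          simp [hM, CM, ha, e]

/-- changing the diagonal entry at an isolated vertex -/
theorem scale (G : SimpleGraph V) (T : Finset V) (v : V) (hv : v ∉ T) (X X' : V → ℝ)
    (hX : 0 < X v) (h : ∀ a, a ≠ v → X' a = X a) :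
    dt X' (AM G T) = ((X' v / X v : ℝ) : ℂ) * dt X (AM G T) := by
  have hXv : (X v : ℂ) ≠ 0 := by exact_mod_cast hX.ne'
  unfold dt
  have hz : ∀ b, AM G T v b = 0 := by
    intro b
    apply AM_apply_not
    simp [hv]
  have h1 : CM X' (AM G T) = updateRow (CM X (AM G T)) v
      (((X' v / X v : ℝ) : ℂ) • (CM X (AM G T)) v) := by
    ext a b
    rw [updateRow_apply]
    by_cases ha : a = v
    · subst ha
      simp only [if_true, Pi.smul_apply, smul_eq_mul]
      by_cases hab : a = b
      · subst hab
        simp only [CM, if_true, hz]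
        push_cast
        field_simp
        simp
      · simp [CM, hab, hz]
    · simp only [ha, if_false]
      simp [CM, h a ha]
  rw [h1, det_updateRow_smul, updateRow_eq_self]

end LeafX

open LeafX in
theorem leaf_proof : Stmt_Leaf := by
  intro V _ _ G S
  induction S using Finset.strongInduction with
  | H S ih =>
    intro v hv
    by_cases hall : ∀ u ∈ S, u ≠ v → 2 ≤ dg G S u
    · refine ⟨S, Subset.refl S, hv, hall, ?_⟩
      intro X hX
      exact ⟨X, fun a => le_rfl, 1, 1, one_pos, one_pos, by simp, by simp⟩
    · push Not at hall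
      obtain ⟨u, hu, huv, hdeg⟩ := hall
      have hvE : v ∈ S.erase u := mem_erase.2 ⟨huv.symm, hv⟩
      obtain ⟨K, hKS, hvK, hK, hKX⟩ := ih (S.erase u) (erase_ssubset hu) v hvE
      refine ⟨K, hKS.trans (erase_subset u S), hvK, hK, ?_⟩
      -- one step
      have step : ∀ X : V → ℝ, (∀ a, 0 < X a) → ∃ X' : V → ℝ, (∀ a, X a ≤ X' a) ∧
          ∃ r s : ℝ, 0 < r ∧ 0 < s ∧ dt X (AM G S) = (r : ℂ) * dt X' (AM G (S.erase u)) ∧
          dt X (AM G (S.erase v)) = (s : ℂ) * dt X' (AM G ((S.erase u).erase v)) := by
        intro X hX
        classical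
        rcases Nat.eq_zero_or_pos (dg G S u) with h0 | h1
        · have hiso : ∀ b ∈ S, ¬ G.Adj u b := by
            intro b hb hadj
            have : b ∈ S.filter (fun b => G.Adj u b) := mem_filter.2 ⟨hb, hadj⟩
            have h2 : (S.filter (fun b => G.Adj u b)).card = 0 := by
              rw [← h0]; unfold dg; congr
            rw [card_eq_zero] at h2
            rw [h2] at this
            exact notMem_empty _ this
          refine ⟨X, fun a => le_rfl, 1, 1, one_pos, one_pos, ?_, ?_⟩
          · rw [AM_erase_iso G S u hiso]; simp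
          · rw [AM_erase_iso G (S.erase v) u (fun b hb => hiso b (mem_of_mem_erase hb)),
              erase_right_comm]
            simp
        · have hc1 : (S.filter (fun b => G.Adj u b)).card = 1 := by
            have h3 : dg G S u = (S.filter (fun b => G.Adj u b)).card := by
              unfold dg; congr
            omega
          obtain ⟨w, hw⟩ := card_eq_one.1 hc1
          have hwm : w ∈ S.filter (fun b => G.Adj u b) := by rw [hw]; exact mem_singleton_self w
          have hwS : w ∈ S := (mem_filter.1 hwm).1
          have hadj : G.Adj u w := (mem_filter.1 hwm).2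
          have huniq : ∀ b ∈ S, G.Adj u b → b = w := by
            intro b hb hab
            have : b ∈ S.filter (fun b => G.Adj u b) := mem_filter.2 ⟨hb, hab⟩
            rw [hw] at this
            exact mem_singleton.1 this
          refine ⟨fun a => X a + if a = w then 1 / X u else 0, ?_, ?_⟩
          · intro a
            have h2 : 0 < 1 / X u := by have := hX u; positivity
            show X a ≤ X a + if a = w then 1 / X u else 0
            split_ifs <;> linarith
          · have e1 := elim G S u w hu hwS hadj huniq X (hX u)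
            by_cases hwv : w = v
            · subst hwv
              have hXw := hX w
              have hXu := hX u
              have hpos : 0 < X w + 1 / X u := by positivity
              refine ⟨1, X w / (X w + 1 / X u), one_pos, by positivity, ?_, ?_⟩
              · rw [e1]; simp
              · have hiso : ∀ b ∈ S.erase w, ¬ G.Adj u b := by
                  intro b hb hab
                  exact (ne_of_mem_erase hb) (huniq b (mem_of_mem_erase hb) hab)
                rw [AM_erase_iso G (S.erase w) u hiso, erase_right_comm,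
                  scale G ((S.erase u).erase w) w (notMem_erase _ _) X
                    (fun a => X a + if a = w then 1 / X u else 0) hXw
                    (by intro a ha; simp [ha])]
                simp only [if_true]
                rw [← mul_assoc, ← Complex.ofReal_mul]
                have e2 : X w / (X w + 1 / X u) * ((X w + 1 / X u) / X w) = 1 := by
                  field_simp
                rw [e2]
                simp
            · refine ⟨1, 1, one_pos, one_pos, ?_, ?_⟩
              · rw [e1]; simp
              · have e2 := elim G (S.erase v) u w (mem_erase.2 ⟨huv, hu⟩)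
                  (mem_erase.2 ⟨hwv, hwS⟩) hadj
                  (fun b hb hab => huniq b (mem_of_mem_erase hb) hab) X (hX u)
                rw [e2, erase_right_comm]
                simp
      intro X hX
      obtain ⟨X', hX', r, s, hr, hs, e1, e2⟩ := step X hX
      obtain ⟨X'', hX'', r', s', hr', hs', e3, e4⟩ :=
        hKX X' (fun a => lt_of_lt_of_le (hX a) (hX' a))
      refine ⟨X'', fun a => (hX' a).trans (hX'' a), r * r', s * s', by positivity, by positivity,
        ?_, ?_⟩
      · rw [e1, e3]; push_cast; ring
      · rw [e2, e4]; push_cast; ring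

end Pool.Agent.SQ
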