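import Pool.Agent.SQ.Stmts

/-!
# Positive square energy: the induction
-/

namespace Pool.Agent.SQ

open Finset

namespace MainX

variable {V : Type} [Fintype V] [DecidableEq V]

lemma kap_pos : 0 < kap := by
  unfold kap
  have : (1 : ℝ) < Real.sqrt 2 := by
    rw [show (1 : ℝ) = Real.sqrt 1 from Real.sqrt_one.symm]
    exact Real.sqrt_lt_sqrt (by norm_num) (by norm_num)
  linarith

lemma phi_two {c : ℤ} (hc : 2 ≤ c) : phi c = 0 := by
  unfold phi
  rw [if_neg (by omega), if_neg (by omega)]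

lemma mem_comps {G : SimpleGraph V} {S Z : Finset V} :
    Z ∈ comps G S ↔ Z ⊆ S ∧ Conn G Z ∧ ∀ a ∈ Z, ∀ b ∈ S, b ∉ Z → ¬ G.Adj a b := by
  classical
  unfold comps
  simp [Finset.mem_filter, Finset.mem_powerset]

lemma cy_single (hCnt : Stmt_Cnt) (G : SimpleGraph V) (a : V) : cy G {a} = 0 := by
  classical
  have h := (hCnt V G {a}).2 a (by simp)
  have h1 : ne G (({a} : Finset V).erase a) = 0 := by
    have : (({a} : Finset V).erase a) = ∅ := by simp
    rw [this]
    simp [ne]
  have h2 : dg G {a} a = 0 := by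
    unfold dg
    rw [Finset.card_eq_zero]
    rw [Finset.filter_eq_empty_iff]
    intro b hb
    rw [Finset.mem_singleton] at hb
    subst hb
    exact G.irrefl
  unfold cy
  rw [h, h1, h2]
  simp

lemma cy_nonneg (hCnt : Stmt_Cnt) (hMono : Stmt_Mono) (G : SimpleGraph V) {S : Finset V}
    (hS : Conn G S) : 0 ≤ cy G S := by
  obtain ⟨a, ha⟩ := hS.1
  have h := hMono V G S {a} hS (by simpa using ha) (by simp)
  rw [cy_single hCnt] at h
  exact h

/-- sum over components of `ff`. -/
lemma ff_comps (hComp : Stmt_Comp) (hSup : Stmt_Sup) (G : SimpleGraph V) (S : Finset V) :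
    ∑ Z ∈ comps G S, ff G Z ≤ ff G S := by
  obtain ⟨h1, h2, h3, -⟩ := hComp V G S
  have h := hSup V G S (comps G S) h1 h2
  unfold ff
  rw [Finset.sum_sub_distrib]
  have : (∑ Z ∈ comps G S, (Z.card : ℝ)) = (S.card : ℝ) := by
    rw [← h3]
    push_cast
    rfl
  rw [this]
  linarith

end MainX

open MainX

theorem main_proof (hCnt : Stmt_Cnt) (hComp : Stmt_Comp) (hCySum : Stmt_CySum) (hMono : Stmt_Mono)
    (hSup : Stmt_Sup) (hAvg : Stmt_Avg) (hCyc : Stmt_Cyc) (hLam : Stmt_Lam) (hHub : Stmt_Hub) :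
    Stmt_Main := by
  intro V _ _ G S
  induction S using Finset.strongInduction with
  | H S ih =>
  intro hS
  have hcy := cy_nonneg hCnt hMono G hS
  have hcomp : ∀ v ∈ S, ∀ Z ∈ comps G (S.erase v), 0 ≤ cy G Z ∧ phi (cy G Z) ≤ ff G Z := by
    intro v hv Z hZ
    rw [mem_comps] at hZ
    refine ⟨cy_nonneg hCnt hMono G hZ.2.1, ih Z ?_ hZ.2.1⟩
    exact lt_of_le_of_lt hZ.1 (Finset.erase_ssubset hv)
  have hcases : cy G S = 0 ∨ (1 ≤ cy G S ∧ cy G S ≤ 2) ∨ 3 ≤ cy G S := by omega
  rcases hcases with h0 | h12 | h3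
  · -- trees
    obtain ⟨v, hv⟩ := hS.1
    obtain ⟨hr, hsum⟩ := hCySum V G S v hS hv
    refine hHub V G S v hS hv ?_ (Or.inl h0) (fun Z hZ => (hcomp v hv Z hZ).2)
    intro Z hZ
    rw [h0] at hsum
    have hterm : ∀ Y ∈ comps G (S.erase v), 0 ≤ cy G Y - 1 + (dg G Y v : ℤ) := by
      intro Y hY
      have h1 := hr Y hY
      have h2 := (hcomp v hv Y hY).1
      omega
    have h4 := Finset.single_le_sum hterm hZ
    rw [← hsum] at h4
    have h1 := hr Z hZ
    omega
  · obtain ⟨v, hv, hle⟩ := hCyc V G S hS h12.1 h12.2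
    refine hHub V G S v hS hv ?_ (Or.inr (Or.inr hle)) (fun Z hZ => (hcomp v hv Z hZ).2)
    intro Z hZ
    have h4 := Finset.single_le_sum (fun Y hY => (hcomp v hv Y hY).1) hZ
    have h12' := h12.2
    omega
  · by_cases hex : ∃ v ∈ S, ∀ Z ∈ comps G (S.erase v), cy G Z ≤ 1
    · obtain ⟨v, hv, hZ⟩ := hex
      exact hHub V G S v hS hv hZ (Or.inr (Or.inl h3)) (fun Z hZ => (hcomp v hv Z hZ).2)
    · have hex' : ∀ v ∈ S, ∃ Z ∈ comps G (S.erase v), 2 ≤ cy G Z := by
        intro v hv
        by_contra hcon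
        apply hex
        refine ⟨v, hv, ?_⟩
        intro Z hZ
        by_contra h5
        exact hcon ⟨Z, hZ, by omega⟩
      obtain ⟨P, hdis, hun, hcard, hB⟩ := hLam V G S hS hex'
      rw [phi_two (by omega)]
      have havg := hAvg V G S P hdis hun
      have hsub : ∀ B ∈ P, B ⊆ S := by
        intro B hBP
        rw [← hun]
        exact Finset.subset_biUnion_of_mem id hBP
      -- each S \ B has ff ≥ 0
      have hpos : ∀ B ∈ P, 0 ≤ ff G (S \ B) := by
        intro B hBP
        refine le_trans ?_ (ff_comps hComp hSup G (S \ B))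
        apply Finset.sum_nonneg
        intro Z hZ
        have hc2 := (hB B hBP).2 Z hZ
        rw [mem_comps] at hZ
        have hss : Z ⊂ S := by
          refine lt_of_le_of_lt hZ.1 ?_
          refine Finset.ssubset_iff_subset_ne.2 ⟨Finset.sdiff_subset, ?_⟩
          intro heq
          obtain ⟨b, hb⟩ := (hB B hBP).1
          have : b ∈ S \ B := by rw [heq]; exact hsub B hBP hb
          exact (Finset.mem_sdiff.1 this).2 hb
        have := ih Z hss hZ.2.1
        rw [phi_two hc2] at this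
        exact this
      -- count
      have hcs : (∑ B ∈ P, ((S \ B).card : ℝ)) = ((P.card : ℝ) - 1) * (S.card : ℝ) := by
        have h1 : ∀ B ∈ P, ((S \ B).card : ℝ) = (S.card : ℝ) - (B.card : ℝ) := by
          intro B hBP
          rw [Finset.card_sdiff_of_subset (hsub B hBP)]
          rw [Nat.cast_sub (Finset.card_le_card (hsub B hBP))]
        rw [Finset.sum_congr rfl h1, Finset.sum_sub_distrib]
        have h2 : (∑ B ∈ P, (B.card : ℝ)) = (S.card : ℝ) := by
          have h5 : (P.biUnion id).card = ∑ B ∈ P, (id B).card :=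
            Finset.card_biUnion (fun B hB C hC hne => hdis B hB C hC hne)
          rw [hun] at h5
          rw [h5]
          push_cast
          rfl
        rw [h2]
        simp
        ring
      have hsum : ∑ B ∈ P, ff G (S \ B) ≤ ((P.card : ℝ) - 1) * ff G S := by
        unfold ff
        rw [Finset.sum_sub_distrib, hcs]
        have : ((P.card : ℝ) - 1) * (sp (AM G S) - (S.card : ℝ)) =
          ((P.card : ℝ) - 1) * sp (AM G S) - ((P.card : ℝ) - 1) * (S.card : ℝ) := by ring
        rw [this]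
        linarith
      have h0 : 0 ≤ ∑ B ∈ P, ff G (S \ B) := Finset.sum_nonneg hpos
      have h2P : (2 : ℝ) ≤ (P.card : ℝ) := by exact_mod_cast hcard
      have h6 : 0 ≤ ((P.card : ℝ) - 1) * ff G S := le_trans h0 hsum
      exact (mul_nonneg_iff_of_pos_left (by linarith)).1 h6

end Pool.Agent.SQ
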