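import Pool.Agent.SQ.Stmts

/-!
# Monotonicity of the cyclomatic number (MP_2d493b_co, module Mono)
-/

namespace Pool.Agent.SQ

open Finset

theorem mono_proof (hC : Stmt_Cnt) : Stmt_Mono := by
  classical
  intro V _ _ G Z Y hZ hYZ hY
  -- induction on the number of missing vertices
  obtain ⟨k, hk⟩ : ∃ k, (Z \ Y).card = k := ⟨_, rfl⟩
  induction k generalizing Y with
  | zero =>
    have h1 : Z \ Y = ∅ := card_eq_zero.1 hk
    have h2 : Z ⊆ Y := sdiff_eq_empty_iff_subset.1 h1
    rw [subset_antisymm hYZ h2]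
  | succ k ih =>
    have hne : Y ≠ Z := by
      rintro rfl
      simp at hk
    have h1 : ¬ ∀ a ∈ Y, ∀ b ∈ Z, b ∉ Y → ¬ G.Adj a b := fun h => hne (hZ.2 Y hYZ hY h)
    push Not at h1
    obtain ⟨a, ha, b, hb, hbY, hab⟩ := h1
    have h2 : insert b Y ⊆ Z := insert_subset hb hYZ
    have h3 : (Z \ insert b Y).card = k := by
      have h4 : Z \ insert b Y = (Z \ Y).erase b := by
        ext x
        simp only [mem_sdiff, mem_insert, mem_erase]
        tauto
      rw [h4, card_erase_of_mem (mem_sdiff.2 ⟨hb, hbY⟩), hk]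
      rfl
    have h5 := ih (insert b Y) h2 (insert_nonempty _ _) h3
    refine le_trans ?_ h5
    have h6 := (hC V G (insert b Y)).2 b (mem_insert_self b Y)
    rw [erase_insert hbY] at h6
    have h7 : 1 ≤ dg G (insert b Y) b := by
      unfold dg
      rw [Nat.one_le_iff_ne_zero, card_ne_zero]
      refine ⟨a, ?_⟩
      simp only [mem_filter, mem_insert]
      exact ⟨Or.inr ha, hab.symm⟩
    unfold cy
    rw [h6, card_insert_of_notMem hbY]
    push_cast
    have : (1 : ℤ) ≤ (dg G (insert b Y) b : ℤ) := by exact_mod_cast h7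
    linarith

end Pool.Agent.SQ
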