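import Pool.Agent.SQ.Stmts

/-!
# Positive square energy (MP_2d493b_co): the numerical inequality at a hub
-/

namespace Pool.Agent.SQ

open Finset

theorem phi_small (c : ℤ) (h0 : 0 ≤ c) (h1 : c ≤ 1) :
    phi c = -1 + (1 - 2 * kap) * (c : ℝ) := by
  have : c = 0 ∨ c = 1 := by omega
  rcases this with rfl | rfl
  · simp [phi]
  · simp only [phi]
    norm_num
    ring

theorem sqrt_two_bounds : (1.414 : ℝ) < Real.sqrt 2 ∧ Real.sqrt 2 < 1.4143 := by
  constructor
  · apply Real.lt_sqrt_of_sq_lt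
    norm_num
  · rw [Real.sqrt_lt' (by norm_num)]
    norm_num

theorem num_core (W z : ℤ) (Q : ℝ) (hW : 0 ≤ W) (hz : 0 ≤ z) (hQ0 : 0 ≤ Q)
    (hQ1 : Q ≤ 2 * (W : ℝ) ^ 2 + 4 * W + 2 * z) (hQ2 : z = 0 → Q ≤ 2 * (W : ℝ) ^ 2 + 2 * W)
    (hc : z + W = 0 ∨ 3 ≤ z + W ∨ z ≤ z + W - 1) :
    phi (z + W) ≤ W + (1 - 2 * kap) * z - 1 - kap * Real.sqrt Q := by
  obtain ⟨h1, h2⟩ := sqrt_two_bounds
  have h3 : Real.sqrt 2 * Real.sqrt 2 = 2 := Real.mul_self_sqrt (by norm_num)
  have hWr : (0 : ℝ) ≤ W := by exact_mod_cast hW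
  have hzr : (0 : ℝ) ≤ z := by exact_mod_cast hz
  set s := Real.sqrt 2 with hs
  have hkap : kap = (s - 1) / 2 := rfl
  by_cases hz0 : z = 0
  · subst hz0
    have hQ3 := hQ2 rfl
    by_cases hW0 : W = 0
    · subst hW0
      have : Q = 0 := by
        apply le_antisymm _ hQ0
        simpa using hQ3
      subst this
      simp [phi]
    · by_cases hW1 : W = 1
      · subst hW1
        have hq : Real.sqrt Q ≤ 2 := by
          rw [Real.sqrt_le_left (by norm_num)]
          norm_num at hQ3 ⊢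
          linarith
        simp only [phi, zero_add]
        norm_num
        rw [hkap]
        nlinarith
      · have hW2 : 2 ≤ W := by omega
        have hW2r : (2 : ℝ) ≤ W := by exact_mod_cast hW2
        have hphi : phi (0 + W) = 0 := by
          unfold phi
          rw [if_neg (by omega), if_neg (by omega)]
        rw [hphi]
        have hq : Real.sqrt Q ≤ s * (W + 1) := by
          rw [Real.sqrt_le_left (by positivity)]
          nlinarith
        rw [hkap]
        push_cast
        have : (s - 1) / 2 * Real.sqrt Q ≤ (s - 1) / 2 * (s * (W + 1)) :=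
          mul_le_mul_of_nonneg_left hq (by linarith)
        nlinarith
  · have hphi : phi (z + W) = 0 := by
      unfold phi
      rw [if_neg (by omega), if_neg (by omega)]
    rw [hphi]
    by_cases hz1 : z = 1
    · subst hz1
      have hW1 : 1 ≤ W := by omega
      have hW1r : (1 : ℝ) ≤ W := by exact_mod_cast hW1
      have hq : Real.sqrt Q ≤ s * (W + 1) := by
        rw [Real.sqrt_le_left (by positivity)]
        push_cast at hQ1
        nlinarith
      rw [hkap]
      push_cast
      have : (s - 1) / 2 * Real.sqrt Q ≤ (s - 1) / 2 * (s * (W + 1)) :=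
        mul_le_mul_of_nonneg_left hq (by linarith)
      nlinarith
    · by_cases hz2 : z = 2
      · subst hz2
        have hW1 : 1 ≤ W := by omega
        have hW1r : (1 : ℝ) ≤ W := by exact_mod_cast hW1
        have hq : Real.sqrt Q ≤ s * (W + 2) := by
          rw [Real.sqrt_le_left (by positivity)]
          push_cast at hQ1
          nlinarith
        rw [hkap]
        push_cast
        have : (s - 1) / 2 * Real.sqrt Q ≤ (s - 1) / 2 * (s * (W + 2)) :=
          mul_le_mul_of_nonneg_left hq (by linarith)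
        nlinarith
      · have hz3 : 3 ≤ z := by omega
        have hz3r : (3 : ℝ) ≤ z := by exact_mod_cast hz3
        have hq : Real.sqrt Q ≤ s * (W + 1) + (z - 1) := by
          rw [Real.sqrt_le_left (by nlinarith)]
          have e : (s * ((W : ℝ) + 1) + (z - 1)) ^ 2
              = (s * s) * (W + 1) ^ 2 + 2 * s * ((W + 1) * (z - 1)) + (z - 1) ^ 2 := by ring
          have e1 : 0 ≤ 2 * s * (((W : ℝ) + 1) * (z - 1)) := by
            apply mul_nonneg (by linarith)
            apply mul_nonneg (by linarith) (by linarith)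
          rw [e, h3]
          nlinarith
        rw [hkap]
        have : (s - 1) / 2 * Real.sqrt Q ≤ (s - 1) / 2 * (s * (W + 1) + (z - 1)) :=
          mul_le_mul_of_nonneg_left hq (by linarith)
        have e2 : W + (1 - 2 * ((s - 1) / 2)) * z - 1 - (s - 1) / 2 * (s * ((W : ℝ) + 1) + (z - 1))
            = (W + 1) * (s - s * s) / 2 + (W + z - 1) - (s - 1) * z - (s - 1) / 2 * (z - 1) := by
          ring
        have e3 : 0 ≤ W + (1 - 2 * ((s - 1) / 2)) * z - 1
            - (s - 1) / 2 * (s * ((W : ℝ) + 1) + (z - 1)) := by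
          rw [e2, h3]
          nlinarith
        linarith

theorem num_proof : Stmt_Num := by
  intro ι s r c Q hrc hQ0 hQ hc
  set W : ℤ := ∑ i ∈ s, (r i - 1) with hWdef
  set z : ℤ := ∑ i ∈ s, c i with hzdef
  have hW : 0 ≤ W := Finset.sum_nonneg (fun i hi => by have := hrc i hi; omega)
  have hz : 0 ≤ z := Finset.sum_nonneg (fun i hi => (hrc i hi).2.1)
  have hsum : ∑ i ∈ s, (c i - 1 + r i) = z + W := by
    rw [hWdef, hzdef, ← Finset.sum_add_distrib]
    apply Finset.sum_congr rfl
    intro i _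
    ring
  have hphi : ∑ i ∈ s, (phi (c i) + (r i : ℝ)) = W + (1 - 2 * kap) * z := by
    rw [hWdef, hzdef]
    push_cast
    rw [Finset.mul_sum, ← Finset.sum_add_distrib]
    apply Finset.sum_congr rfl
    intro i hi
    rw [phi_small (c i) (hrc i hi).2.1 (hrc i hi).2.2]
    ring
  -- the bound for the sum of squares
  have hsq : ∑ i ∈ s, (r i - 1) ^ 2 ≤ W ^ 2 := by
    have h1 : ∑ i ∈ s, (r i - 1) ^ 2 ≤ ∑ i ∈ s, (r i - 1) * W := by
      apply Finset.sum_le_sum
      intro i hi
      have h2 : r i - 1 ≤ W := by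
        rw [hWdef]
        exact Finset.single_le_sum (f := fun j => r j - 1)
          (fun j hj => by have := hrc j hj; show 0 ≤ r j - 1; omega) hi
      have h3 : 0 ≤ r i - 1 := by have := hrc i hi; omega
      nlinarith
    calc _ ≤ _ := h1
      _ = W ^ 2 := by rw [← Finset.sum_mul]; ring
  have hsplit : ∑ i ∈ s, 2 * r i * (r i - 1 + c i)
      = 2 * ∑ i ∈ s, (r i - 1) ^ 2 + 2 * W + 2 * ∑ i ∈ s, c i * (r i - 1) + 2 * z := by
    rw [hWdef, hzdef]
    simp only [Finset.mul_sum, ← Finset.sum_add_distrib]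
    apply Finset.sum_congr rfl
    intro i _
    ring
  have hcw : ∑ i ∈ s, c i * (r i - 1) ≤ W := by
    rw [hWdef]
    apply Finset.sum_le_sum
    intro i hi
    have := hrc i hi
    nlinarith
  have hcw0 : z = 0 → ∑ i ∈ s, c i * (r i - 1) = 0 := by
    intro h0
    apply Finset.sum_eq_zero
    intro i hi
    have h1 := (Finset.sum_eq_zero_iff_of_nonneg (fun j hj => (hrc j hj).2.1)).mp h0 i hi
    rw [h1]
    ring
  rw [hsum, hphi]
  have hcast : ((∑ i ∈ s, 2 * r i * (r i - 1 + c i) : ℤ) : ℝ) ≤ 2 * (W : ℝ) ^ 2 + 4 * W + 2 * z := by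
    have : (∑ i ∈ s, 2 * r i * (r i - 1 + c i) : ℤ) ≤ 2 * W ^ 2 + 4 * W + 2 * z := by
      rw [hsplit]
      linarith
    exact_mod_cast this
  have hcast0 : z = 0 → ((∑ i ∈ s, 2 * r i * (r i - 1 + c i) : ℤ) : ℝ) ≤ 2 * (W : ℝ) ^ 2 + 2 * W := by
    intro h0
    have : (∑ i ∈ s, 2 * r i * (r i - 1 + c i) : ℤ) ≤ 2 * W ^ 2 + 2 * W := by
      rw [hsplit, hcw0 h0, h0]
      linarith
    exact_mod_cast this
  apply num_core W z Q hW hz hQ0 (hQ.trans hcast) (fun h0 => hQ.trans (hcast0 h0))
  rw [← hsum]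
  exact hc

end Pool.Agent.SQ
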