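import Pool.Agent.SQ.Stmts

/-!
# Positive square energy (MP_2d493b_co): spectral facts on `sp`
-/

namespace Pool.Agent.SQ.SpecX

open Finset Matrix

variable {V : Type} [Fintype V] [DecidableEq V]

/-- Functional calculus `U diag(f) Uᴴ`. -/
noncomputable def F {A : Matrix V V ℝ} (hA : A.IsHermitian) (f : V → ℝ) : Matrix V V ℝ :=
  (hA.eigenvectorUnitary : Matrix V V ℝ) * diagonal f * (hA.eigenvectorUnitary : Matrix V V ℝ)ᴴ

lemma F_eig {A : Matrix V V ℝ} (hA : A.IsHermitian) : F hA hA.eigenvalues = A := by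
  have h := hA.spectral_theorem
  rw [Unitary.conjStarAlgAut_apply] at h
  unfold F
  conv_rhs => rw [h]
  rfl

lemma UU {A : Matrix V V ℝ} (hA : A.IsHermitian) :
    (hA.eigenvectorUnitary : Matrix V V ℝ)ᴴ * (hA.eigenvectorUnitary : Matrix V V ℝ) = 1 := by
  have := Unitary.coe_star_mul_self hA.eigenvectorUnitary
  simpa [Matrix.star_eq_conjTranspose] using this

lemma F_mul {A : Matrix V V ℝ} (hA : A.IsHermitian) (f g : V → ℝ) :
    F hA f * F hA g = F hA (fun i => f i * g i) := by
  unfold F
  have e : (hA.eigenvectorUnitary : Matrix V V ℝ) * diagonal f *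
        (hA.eigenvectorUnitary : Matrix V V ℝ)ᴴ *
        ((hA.eigenvectorUnitary : Matrix V V ℝ) * diagonal g *
        (hA.eigenvectorUnitary : Matrix V V ℝ)ᴴ) =
      (hA.eigenvectorUnitary : Matrix V V ℝ) * (diagonal f *
        ((hA.eigenvectorUnitary : Matrix V V ℝ)ᴴ * (hA.eigenvectorUnitary : Matrix V V ℝ)) *
        diagonal g) * (hA.eigenvectorUnitary : Matrix V V ℝ)ᴴ := by
    simp only [Matrix.mul_assoc]
  rw [e, UU, Matrix.mul_one, diagonal_mul_diagonal]

lemma F_trace {A : Matrix V V ℝ} (hA : A.IsHermitian) (f : V → ℝ) :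
    (F hA f).trace = ∑ i, f i := by
  unfold F
  rw [Matrix.trace_mul_comm, ← Matrix.mul_assoc, UU, Matrix.one_mul, trace_diagonal]

lemma F_psd {A : Matrix V V ℝ} (hA : A.IsHermitian) (f : V → ℝ) (hf : ∀ i, 0 ≤ f i) :
    (F hA f).PosSemidef :=
  (PosSemidef.diagonal (d := f) (by intro i; exact hf i)).mul_mul_conjTranspose_same _

lemma F_sub {A : Matrix V V ℝ} (hA : A.IsHermitian) (f g : V → ℝ) :
    F hA f - F hA g = F hA (fun i => f i - g i) := by
  unfold F
  rw [← Matrix.sub_mul, ← Matrix.mul_sub, diagonal_sub]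

lemma F_herm {A : Matrix V V ℝ} (hA : A.IsHermitian) (f : V → ℝ) : (F hA f)ᴴ = F hA f := by
  unfold F
  rw [conjTranspose_mul, conjTranspose_mul, conjTranspose_conjTranspose, diagonal_conjTranspose,
    Matrix.mul_assoc]
  congr 2

omit [DecidableEq V] in
lemma sum_sq {P : Matrix V V ℝ} (hP : Pᴴ = P) : ∑ a, ∑ b, P a b ^ 2 = (P * P).trace := by
  unfold Matrix.trace
  refine Finset.sum_congr rfl fun a _ => ?_
  rw [diag_apply, mul_apply]
  refine Finset.sum_congr rfl fun b _ => ?_
  have : P b a = P a b := by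
    conv_lhs => rw [← hP]
    simp
  rw [this, sq]

end Pool.Agent.SQ.SpecX

namespace Pool.Agent.SQ

open Finset Matrix SpecX

theorem spec_proof : Stmt_Spec := by
  intro V _ _ A hA
  have hsp : sp A = ∑ i, (max (hA.eigenvalues i) 0) ^ 2 := by
    unfold sp
    rw [dif_pos hA]
  set l := hA.eigenvalues with hl
  have hAF : F hA l = A := F_eig hA
  set P := F hA (fun i => max (l i) 0) with hP
  have hPP : P * P = F hA (fun i => (max (l i) 0) ^ 2) := by
    rw [hP, F_mul]
    congr 1
    funext i
    ring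
  have hPsum : ∑ a, ∑ b, P a b ^ 2 = sp A := by
    rw [sum_sq (F_herm hA _), hPP, F_trace, hsp]
  refine ⟨⟨P, F_psd hA _ fun i => le_max_right _ _, ?_, hPsum⟩, ?_, ?_, ?_⟩
  · have e : P - A = P - F hA l := by rw [hAF]
    rw [e, hP, F_sub]
    exact F_psd hA _ fun i => by
      have := le_max_left (l i) 0
      linarith
  · intro Q hQ
    -- trace inequality
    set R := F hA (fun i => Real.sqrt (max (l i) 0)) with hR
    have hRR : R * R = P := by
      rw [hR, F_mul, hP]
      congr 1
      funext i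
      exact Real.mul_self_sqrt (le_max_right _ _)
    have h1 : 0 ≤ (R * (Q - A) * Rᴴ).trace := (hQ.mul_mul_conjTranspose_same R).trace_nonneg
    have h2 : (R * (Q - A) * Rᴴ).trace = ((Q - A) * P).trace := by
      rw [hR, F_herm, ← hR, Matrix.trace_mul_comm, ← Matrix.mul_assoc, hRR,
        Matrix.trace_mul_comm]
    have h3 : (A * P).trace = sp A := by
      have e : A * P = F hA l * P := by rw [hAF]
      rw [e, hP, F_mul, F_trace, hsp]
      refine Finset.sum_congr rfl fun i _ => ?_
      rcases le_total (l i) 0 with h | h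
      · rw [max_eq_right h]; ring
      · rw [max_eq_left h]; ring
    have h4 : (Q * P).trace = ∑ a, ∑ b, Q a b * P a b := by
      unfold Matrix.trace
      refine Finset.sum_congr rfl fun a _ => ?_
      rw [diag_apply, mul_apply]
      refine Finset.sum_congr rfl fun b _ => ?_
      have : P b a = P a b := by
        have hh : Pᴴ = P := F_herm hA _
        conv_lhs => rw [← hh]
        simp
      rw [this]
    have h5 : ∑ a, ∑ b, Q a b * P a b ≤ (∑ a, ∑ b, Q a b ^ 2 + ∑ a, ∑ b, P a b ^ 2) / 2 := by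
      rw [← Finset.sum_add_distrib, Finset.sum_div]
      refine Finset.sum_le_sum fun a _ => ?_
      rw [← Finset.sum_add_distrib, Finset.sum_div]
      refine Finset.sum_le_sum fun b _ => ?_
      nlinarith [sq_nonneg (Q a b - P a b)]
    rw [h2, Matrix.sub_mul, Matrix.trace_sub, h3, h4] at h1
    rw [hPsum] at h5
    linarith
  · rw [hl]
    have h := hA.trace_eq_sum_eigenvalues
    rw [← show A.trace = ∑ a, A a a from rfl, h]
    simp
  · have hh : Aᴴ = A := hA
    have h1 : ∑ a, ∑ b, A a b ^ 2 = ∑ i, l i ^ 2 := by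
      have e : A * A = F hA l * F hA l := by rw [hAF]
      rw [sum_sq hh, e, F_mul, F_trace]
      refine Finset.sum_congr rfl fun i _ => ?_
      ring
    rw [h1, hsp, Finset.mul_sum, ← Finset.sum_add_distrib]
    refine Finset.sum_congr rfl fun i _ => ?_
    rcases le_total (l i) 0 with h | h
    · rw [max_eq_right h, abs_of_nonpos h]; ring
    · rw [max_eq_left h, abs_of_nonneg h]; ring

end Pool.Agent.SQ
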