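import Pool.Agent.SQ.Stmts

/-!
# Superadditivity over a partition (MP_2d493b_co, module Sup)
-/

namespace Pool.Agent.SQ

open Finset

namespace SupX

variable {V : Type} [Fintype V] [DecidableEq V]

/-- compression to `B × B` -/
def cut (B : Finset V) (M : Matrix V V ℝ) : Matrix V V ℝ :=
  fun a b => if a ∈ B ∧ b ∈ B then M a b else 0

/-- indicator diagonal matrix -/
def dia (B : Finset V) : Matrix V V ℝ := Matrix.diagonal fun a => if a ∈ B then 1 else 0

theorem cut_eq (B : Finset V) (M : Matrix V V ℝ) : cut B M = (dia B).conjTranspose * M * dia B := by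
  ext a b
  have h : (dia B).conjTranspose = dia B := by
    unfold dia
    rw [Matrix.diagonal_conjTranspose]
    congr 1
  rw [h]
  unfold dia cut
  rw [Matrix.mul_diagonal, Matrix.diagonal_mul]
  by_cases h1 : a ∈ B <;> by_cases h2 : b ∈ B <;> simp [h1, h2]

theorem cut_psd (B : Finset V) {M : Matrix V V ℝ} (hM : M.PosSemidef) : (cut B M).PosSemidef := by
  rw [cut_eq]
  exact hM.conjTranspose_mul_mul_same _

theorem AM_herm (G : SimpleGraph V) (S : Finset V) : (AM G S).IsHermitian := by
  classical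
  ext a b
  rw [Matrix.conjTranspose_apply]
  unfold AM
  simp only [star_trivial]
  by_cases h : a ∈ S ∧ b ∈ S ∧ G.Adj a b
  · rw [if_pos h, if_pos ⟨h.2.1, h.1, h.2.2.symm⟩]
  · rw [if_neg h, if_neg (fun h' => h ⟨h'.2.1, h'.1, h'.2.2.symm⟩)]

theorem cut_sub (G : SimpleGraph V) {B S : Finset V} (hB : B ⊆ S) (P : Matrix V V ℝ) :
    cut B P - AM G B = cut B (P - AM G S) := by
  classical
  ext a b
  rw [Matrix.sub_apply]
  unfold cut AM
  rw [Matrix.sub_apply]
  by_cases h1 : a ∈ B
  · by_cases h2 : b ∈ B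
    · simp only [h1, h2, hB h1, hB h2, true_and, and_true, if_true]
    · simp [h2]
  · simp [h1]

end SupX

theorem sup_proof (hS : Stmt_Spec) : Stmt_Sup := by
  classical
  intro V _ _ G S Pt hdis hun
  obtain ⟨⟨P, hP, hPA, hPs⟩, -⟩ := hS V (AM G S) (SupX.AM_herm G S)
  have hsub : ∀ B ∈ Pt, B ⊆ S := fun B hB => by
    rw [← hun]
    exact subset_biUnion_of_mem (fun x => x) hB
  have h1 : ∀ B ∈ Pt, sp (AM G B) ≤ ∑ a, ∑ b, SupX.cut B P a b ^ 2 := by
    intro B hB
    refine (hS V (AM G B) (SupX.AM_herm G B)).2.1 _ ?_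
    rw [SupX.cut_sub G (hsub B hB)]
    exact SupX.cut_psd B hPA
  calc ∑ B ∈ Pt, sp (AM G B) ≤ ∑ B ∈ Pt, ∑ a, ∑ b, SupX.cut B P a b ^ 2 := sum_le_sum h1
    _ = ∑ a, ∑ b, ∑ B ∈ Pt, SupX.cut B P a b ^ 2 := by
        rw [sum_comm]
        exact sum_congr rfl fun a _ => sum_comm
    _ ≤ ∑ a, ∑ b, P a b ^ 2 := by
        refine sum_le_sum fun a _ => sum_le_sum fun b _ => ?_
        by_cases ha : ∃ B ∈ Pt, a ∈ B
        · obtain ⟨B0, hB0, haB⟩ := ha
          rw [sum_eq_single_of_mem B0 hB0]
          · unfold SupX.cut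
            split_ifs
            · exact le_rfl
            · rw [zero_pow two_ne_zero]
              exact sq_nonneg _
          · intro B hB hne
            have : a ∉ B := fun h =>
              (disjoint_left.1 (hdis B hB B0 hB0 hne)) h haB
            unfold SupX.cut
            simp [this]
        · push Not at ha
          rw [sum_eq_zero]
          · positivity
          · intro B hB
            unfold SupX.cut
            simp [ha B hB]
    _ = sp (AM G S) := hPs

end Pool.Agent.SQ
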