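import Pool.Agent.SQ.Stmts

/-!
# Positive square energy (MP_2d493b_co): deletion of a vertex
-/

namespace Pool.Agent.SQ

open Finset

namespace VertX

variable {V : Type} [Fintype V] [DecidableEq V]

omit [Fintype V] in
theorem AM_isHermitian (G : SimpleGraph V) (S : Finset V) : (AM G S).IsHermitian := by
  apply Matrix.IsHermitian.ext
  intro a b
  simp only [AM, star_trivial]
  congr 1
  apply propext
  constructor
  · rintro ⟨h1, h2, h3⟩; exact ⟨h2, h1, h3.symm⟩
  · rintro ⟨h1, h2, h3⟩; exact ⟨h2, h1, h3.symm⟩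

omit [Fintype V] in
theorem AM_diag (G : SimpleGraph V) (S : Finset V) (a : V) : AM G S a a = 0 := by
  simp [AM]

theorem AM_sq_sum (G : SimpleGraph V) (S : Finset V) :
    ∑ a, ∑ b, AM G S a b ^ 2 = ((∑ u ∈ S, dg G S u : ℕ) : ℝ) := by
  classical
  push_cast
  have h1 : ∑ a, ∑ b, AM G S a b ^ 2 = ∑ a ∈ S, ∑ b, AM G S a b ^ 2 := by
    symm
    apply Finset.sum_subset (Finset.subset_univ S)
    intro a _ ha
    apply Finset.sum_eq_zero
    intro b _
    simp [AM, ha]
  rw [h1]
  apply Finset.sum_congr rfl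
  intro a ha
  have h2 : ∀ b, AM G S a b ^ 2 = if b ∈ S.filter (fun b => G.Adj a b) then (1:ℝ) else 0 := by
    intro b
    simp only [AM, ha, true_and, mem_filter]
    split_ifs <;> simp
  rw [Finset.sum_congr rfl (fun b _ => h2 b)]
  rw [Finset.sum_ite_mem, Finset.univ_inter, Finset.sum_const]
  simp only [nsmul_eq_mul, mul_one, dg]

end VertX

open VertX in
theorem vert_proof (hInt : Stmt_Int) (hArg : Stmt_Arg) (hDet : Stmt_Det) (hSpec : Stmt_Spec)
    (hPiv : Stmt_Piv) (hLeaf : Stmt_Leaf) (hCnt : Stmt_Cnt) : Stmt_Vert := by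
  intro V _ _ G S v hv
  obtain ⟨K, hKS, hvK, hdeg, hX⟩ := hLeaf V G S v hv
  refine ⟨K, hKS, hvK, hdeg, ?_⟩
  have hS := AM_isHermitian G S
  have hE := AM_isHermitian G (S.erase v)
  obtain ⟨_, _, trS, spS⟩ := hSpec V (AM G S) hS
  obtain ⟨_, _, trE, spE⟩ := hSpec V (AM G (S.erase v)) hE
  obtain ⟨c1, c2⟩ := hCnt V G S
  obtain ⟨c3, _⟩ := hCnt V G (S.erase v)
  have c4 := c2 v hv
  have key : ∀ m : ℝ, 0 < m → (QQ G K v : ℝ) ≤ m ^ 2 →
      sp (AM G (S.erase v)) + (dg G S v : ℝ) - kap * m ≤ sp (AM G S) := by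
    intro m hm hQ
    have h1 : ∑ i, hS.eigenvalues i = 0 := by
      rw [trS]; exact Finset.sum_eq_zero (fun a _ => AM_diag G S a)
    have h2 : ∑ i, hE.eigenvalues i = 0 := by
      rw [trE]; exact Finset.sum_eq_zero (fun a _ => AM_diag G _ a)
    have h3 := hInt V hS.eigenvalues hE.eigenvalues m hm h1 h2
      (hArg V hS.eigenvalues hE.eigenvalues (tau m) (by
        intro x hx
        obtain ⟨X', hX', r, s, hr, hs, e1, e2⟩ := hX (fun _ => x) (fun _ => hx)
        obtain ⟨ρ, e3, hρ, hτ⟩ := hPiv V G K v hvK m x hm hx hQ X' hX'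
        refine ⟨((r / s : ℝ) : ℂ) * ρ, ?_, ?_, ?_⟩
        · rw [← hDet V (AM G S) hS x, ← hDet V (AM G (S.erase v)) hE x, e1, e2, e3]
          have hs' : (s : ℂ) ≠ 0 := by exact_mod_cast hs.ne'
          push_cast
          field_simp
        · rw [Complex.re_ofReal_mul]; positivity
        · rw [Complex.re_ofReal_mul, Complex.im_ofReal_mul]
          have hrs : 0 ≤ r / s := by positivity
          calc r / s * ρ.im ≤ r / s * (tau m x * ρ.re) := mul_le_mul_of_nonneg_left hτ hrs
            _ = tau m x * (r / s * ρ.re) := by ring))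
    rw [AM_sq_sum, c1] at spS
    rw [AM_sq_sum, c3] at spE
    have c5 : (ne G S : ℝ) = (ne G (S.erase v) : ℝ) + (dg G S v : ℝ) := by exact_mod_cast c4
    push_cast at spS spE
    nlinarith [h3, spS, spE, c5]
  rcases Nat.eq_zero_or_pos (QQ G K v) with h0 | hpos
  · rw [h0]
    simp only [Nat.cast_zero, Real.sqrt_zero, mul_zero, sub_zero]
    have hk : 0 < kap := by
      unfold kap
      have : (1:ℝ) < Real.sqrt 2 := by
        rw [Real.lt_sqrt (by norm_num)]; norm_num
      linarith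
    apply le_of_forall_pos_sub_le
    intro ε hε
    have h := key (ε / kap) (by positivity) (by rw [h0]; simp; positivity)
    have e : kap * (ε / kap) = ε := by field_simp
    rw [e] at h
    exact h
  · have hq : (0:ℝ) < (QQ G K v : ℝ) := by exact_mod_cast hpos
    exact key _ (Real.sqrt_pos.2 hq) (by rw [Real.sq_sqrt hq.le])

end Pool.Agent.SQ
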