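import Pool.Agent.SQ.Arg
import Pool.Agent.SQ.Avg
import Pool.Agent.SQ.Cnt
import Pool.Agent.SQ.Comp
import Pool.Agent.SQ.CySum
import Pool.Agent.SQ.Cyc
import Pool.Agent.SQ.Det
import Pool.Agent.SQ.Final
import Pool.Agent.SQ.Hub
import Pool.Agent.SQ.HubQ
import Pool.Agent.SQ.Lam
import Pool.Agent.SQ.Leaf
import Pool.Agent.SQ.Main
import Pool.Agent.SQ.Mono
import Pool.Agent.SQ.Num
import Pool.Agent.SQ.Spec
import Pool.Agent.SQ.Sup
import Pool.Agent.SQ.Vert
import Pool.Agent.SQ.Energy

/-!
# Positive square energy (MP_2d493b_co): assembly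
-/

namespace Pool.Agent.SQ

open Finset

/-- The main theorem from the two analytic modules. -/
theorem main_of (hInt : Stmt_Int) (hPiv : Stmt_Piv) : Stmt_Main := by
  have hCnt := cnt_proof
  have hComp := comp_proof hCnt
  have hCySum := cySum_proof hCnt hComp
  have hMono := mono_proof hCnt
  have hSpec := spec_proof
  have hSup := sup_proof hSpec
  have hAvg := avg_proof hSpec
  have hCyc := cyc hCnt hComp hCySum hMono
  have hLam := lam_proof hComp hMono
  have hVert := vert_proof hInt arg_proof det_proof hSpec hPiv leaf_proof hCnt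
  have hHubQ := hubQ_proof hCnt hComp hCySum hMono
  have hHub := hub_proof hVert hHubQ num_proof hCySum hComp hSup hMono
  exact main_proof hCnt hComp hCySum hMono hSup hAvg hCyc hLam hHub

section

variable {V : Type} [Fintype V] [DecidableEq V]

lemma sp_adj (G : SimpleGraph V) [DecidableRel G.Adj] :
    sp (G.adjMatrix ℝ) = posSquareEnergy G := by
  unfold sp posSquareEnergy
  rw [dif_pos (isHermitian_adj G), Finset.sum_filter]
  refine Finset.sum_congr rfl fun i _ => ?_
  split_ifs with h
  · rw [max_eq_left h.le]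
  · rw [max_eq_right (not_lt.1 h)]
    norm_num

/-- All connected graphs. -/
theorem all_of (hMain : Stmt_Main) (G : SimpleGraph V) [DecidableRel G.Adj]
    (hG : G.Connected) :
    (Fintype.card V : ℝ) - 1 ≤ posSquareEnergy G ∧
    (Fintype.card V ≤ G.edgeFinset.card → (Fintype.card V : ℝ) - (√2 - 1) ≤ posSquareEnergy G) ∧
    (Fintype.card V + 1 ≤ G.edgeFinset.card → (Fintype.card V : ℝ) ≤ posSquareEnergy G) := by
  have hCnt := cnt_proof
  have hC := FinalX.conn_univ G hG
  have h := hMain V G Finset.univ hC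
  have h1 := (hCnt V G Finset.univ).1
  have h2 : ∑ u : V, dg G Finset.univ u = 2 * G.edgeFinset.card := by
    rw [← SimpleGraph.sum_degrees_eq_twice_card_edges]
    exact Finset.sum_congr rfl (fun v _ => FinalX.dg_univ G v)
  have h3 : ne G (Finset.univ : Finset V) = G.edgeFinset.card := by omega
  have hcy : cy G (Finset.univ : Finset V) =
      (G.edgeFinset.card : ℤ) - (Fintype.card V : ℤ) + 1 := by
    unfold cy
    rw [h3, Finset.card_univ]
  have hff : ff G (Finset.univ : Finset V) = posSquareEnergy G - (Fintype.card V : ℝ) := by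
    unfold ff
    rw [FinalX.AM_univ, Finset.card_univ, sp_adj]
  rw [hff] at h
  have hs : √2 - 1 ≤ 1 := by
    have : √2 ≤ (2 : ℝ) := Real.sqrt_le_iff.2 ⟨by norm_num, by norm_num⟩
    linarith
  have hs0 : (1 : ℝ) ≤ √2 := Real.le_sqrt_of_sq_le (by norm_num)
  have hphi1 : -1 ≤ phi (cy G (Finset.univ : Finset V)) := by
    unfold phi kap
    split_ifs <;> linarith
  refine ⟨by linarith, fun hm => ?_, fun hm => ?_⟩
  · have : -(√2 - 1) ≤ phi (cy G (Finset.univ : Finset V)) := by
      unfold phi kap
      rw [if_neg (by omega)]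
      split_ifs <;> linarith
    linarith
  · have : phi (cy G (Finset.univ : Finset V)) = 0 := by
      unfold phi
      rw [if_neg (by omega), if_neg (by omega)]
    linarith

end

end Pool.Agent.SQ
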