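import Pool.Agent.SQ.Stmts

/-!
# Positive square energy (MP_2d493b_co): the branch of the argument
-/

namespace Pool.Agent.SQ

open Finset Filter Topology

namespace ArgX

lemma polar {x : ℝ} (hx : 0 < x) (l : ℝ) :
    (x : ℂ) + Complex.I * (l : ℂ) =
      ((x * √(1 + (l / x) ^ 2) : ℝ) : ℂ) * Complex.exp (Complex.I * (Real.arctan (l / x) : ℝ)) := by
  have hs : √(1 + (l / x) ^ 2) ≠ 0 := by positivity
  rw [mul_comm Complex.I ((Real.arctan (l / x) : ℝ) : ℂ), Complex.exp_mul_I,
    ← Complex.ofReal_cos, ← Complex.ofReal_sin, Real.cos_arctan, Real.sin_arctan]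
  apply Complex.ext
  · simp
    field_simp
  · simp
    field_simp

lemma polar_prod {ι : Type} [Fintype ι] (l : ι → ℝ) {x : ℝ} (hx : 0 < x) :
    ∏ i, ((x : ℂ) + Complex.I * (l i : ℂ)) =
      ((∏ i, (x * √(1 + (l i / x) ^ 2)) : ℝ) : ℂ) *
        Complex.exp (Complex.I * ((∑ i, Real.arctan (l i / x) : ℝ) : ℂ)) := by
  rw [Complex.ofReal_sum, mul_sum, Complex.exp_sum, Complex.ofReal_prod, ← prod_mul_distrib]
  exact prod_congr rfl fun i _ => polar hx (l i)

lemma cont_sum {ι : Type} [Fintype ι] (l : ι → ℝ) :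
    ContinuousOn (fun x : ℝ => ∑ i, Real.arctan (l i / x)) (Set.Ioi 0) := by
  apply continuousOn_finsetSum
  intro i _
  apply Real.continuous_arctan.comp_continuousOn
  apply ContinuousOn.div continuousOn_const continuousOn_id
  intro x hx
  exact (Set.mem_Ioi.1 hx).ne'

lemma tendsto_sum {ι : Type} [Fintype ι] (l : ι → ℝ) :
    Tendsto (fun x : ℝ => ∑ i, Real.arctan (l i / x)) atTop (𝓝 0) := by
  have : (0 : ℝ) = ∑ _i : ι, (0 : ℝ) := by simp
  rw [this]
  apply tendsto_finsetSum
  intro i _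
  have h1 : Tendsto (fun x : ℝ => l i / x) atTop (𝓝 0) := tendsto_const_nhds.div_atTop tendsto_id
  have h2 := (Real.continuous_arctan.tendsto 0).comp h1
  rw [Real.arctan_zero] at h2
  exact h2

lemma range_aux {D : ℝ → ℝ} (hc : ContinuousOn D (Set.Ioi 0)) (ht : Tendsto D atTop (𝓝 0))
    (hcos : ∀ x, 0 < x → 0 < Real.cos (D x)) : ∀ x, 0 < x → D x < Real.pi / 2 := by
  intro x hx
  by_contra hcon
  rw [not_lt] at hcon
  have h1 : ∀ᶠ y in atTop, D y < Real.pi / 2 :=
    ht.eventually (gt_mem_nhds (by positivity))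
  obtain ⟨y, hy1, hy2⟩ := (h1.and (eventually_ge_atTop x)).exists
  have h2 : ContinuousOn D (Set.Icc x y) :=
    hc.mono fun z hz => Set.mem_Ioi.2 (lt_of_lt_of_le hx hz.1)
  have h3 := intermediate_value_Icc' hy2 h2
  obtain ⟨z, hz1, hz2⟩ := h3 ⟨hy1.le, hcon⟩
  have h4 := hcos z (lt_of_lt_of_le hx hz1.1)
  rw [hz2, Real.cos_pi_div_two] at h4
  exact lt_irrefl _ h4

end ArgX

open ArgX in
theorem arg_proof : Stmt_Arg := by
  intro ι _ l u t h
  set D : ℝ → ℝ := fun x => ∑ i, Real.arctan (l i / x) - ∑ i, Real.arctan (u i / x) with hD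
  have hc : ContinuousOn D (Set.Ioi 0) := (cont_sum l).sub (cont_sum u)
  have ht : Tendsto D atTop (𝓝 0) := by
    have := (tendsto_sum l).sub (tendsto_sum u)
    rw [sub_zero] at this
    exact this
  have hpol : ∀ x, 0 < x → ∃ r : ℝ, 0 < r ∧ 0 < r * Real.cos (D x) ∧
      r * Real.sin (D x) ≤ t x * (r * Real.cos (D x)) := by
    intro x hx
    obtain ⟨ρ, h1, h2, h3⟩ := h x hx
    rw [polar_prod l hx, polar_prod u hx] at h1
    set R := ∏ i, (x * √(1 + (l i / x) ^ 2)) with hR
    set S := ∏ i, (x * √(1 + (u i / x) ^ 2)) with hS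
    have hR0 : 0 < R := prod_pos fun i _ => by positivity
    have hS0 : 0 < S := prod_pos fun i _ => by positivity
    have hρ : ρ = ((R / S : ℝ) : ℂ) * Complex.exp (Complex.I * (D x : ℝ)) := by
      have hS' : ((S : ℝ) : ℂ) ≠ 0 := by exact_mod_cast hS0.ne'
      have he := Complex.exp_ne_zero (Complex.I * ((∑ i, Real.arctan (u i / x) : ℝ) : ℂ))
      rw [hD]
      push_cast
      rw [mul_sub, Complex.exp_sub]
      push_cast at h1 he
      field_simp
      linear_combination -h1
    rw [mul_comm Complex.I ((D x : ℝ) : ℂ), Complex.exp_mul_I, ← Complex.ofReal_cos,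
      ← Complex.ofReal_sin] at hρ
    have hre : ρ.re = (R / S) * Real.cos (D x) := by
      rw [hρ, Complex.re_ofReal_mul]
      simp only [Complex.add_re, Complex.ofReal_re, Complex.mul_re, Complex.I_re, Complex.I_im,
        Complex.ofReal_im]
      ring
    have him : ρ.im = (R / S) * Real.sin (D x) := by
      rw [hρ, Complex.im_ofReal_mul]
      simp only [Complex.add_im, Complex.ofReal_re, Complex.mul_im, Complex.I_re, Complex.I_im,
        Complex.ofReal_im]
      ring
    refine ⟨R / S, by positivity, ?_, ?_⟩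
    · rw [← hre]; exact h2
    · rw [← hre, ← him]; exact h3
  have hcos : ∀ x, 0 < x → 0 < Real.cos (D x) := by
    intro x hx
    obtain ⟨r, hr, h1, -⟩ := hpol x hx
    exact (pos_iff_pos_of_mul_pos h1).1 hr
  have hup := range_aux hc ht hcos
  have hlow := range_aux (D := fun x => -D x) hc.neg (by simpa using ht.neg)
    (fun x hx => by rw [Real.cos_neg]; exact hcos x hx)
  intro x hx
  obtain ⟨r, hr, h1, h2⟩ := hpol x hx
  have h3 : Real.tan (D x) ≤ t x := by
    rw [Real.tan_eq_sin_div_cos, div_le_iff₀ (hcos x hx)]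
    have : r * Real.sin (D x) ≤ r * (t x * Real.cos (D x)) := by linarith
    exact le_of_mul_le_mul_left this hr
  have h4 : D x = Real.arctan (Real.tan (D x)) := by
    rw [Real.arctan_tan]
    · have := hlow x hx
      linarith
    · exact hup x hx
  change D x ≤ _
  rw [h4]
  exact Real.arctan_strictMono.monotone h3

end Pool.Agent.SQ
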