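import Mathlib

/-!
# Positive square energy (MP_2d493b_co): definitions

Finite graph `G` on `V`; everything is done for finite sets `S` of vertices (induced subgraphs),
with adjacency matrices padded by zeros to `V × V`.
-/

namespace Pool.Agent.SQ

open Finset

section Spec

variable {V : Type} [Fintype V] [DecidableEq V]

open Classical in
/-- Sum of the squares of the positive eigenvalues of a real symmetric matrix. -/
noncomputable def sp (A : Matrix V V ℝ) : ℝ :=
  if h : A.IsHermitian then ∑ i, (max (h.eigenvalues i) 0) ^ 2 else 0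

/-- The complex matrix `diag X + i A`. -/
noncomputable def CM (X : V → ℝ) (A : Matrix V V ℝ) : Matrix V V ℂ :=
  fun a b => (if a = b then (X a : ℂ) else 0) + Complex.I * (A a b : ℂ)

/-- Its determinant. -/
noncomputable def dt (X : V → ℝ) (A : Matrix V V ℝ) : ℂ := (CM X A).det

end Spec

/-- The constant `(√2 - 1) / 2`. -/
noncomputable def kap : ℝ := (Real.sqrt 2 - 1) / 2

/-- The bound for the tangent of the argument of the pivot. -/
noncomputable def tau (m x : ℝ) : ℝ :=
  m ^ 2 / (2 * x * (x ^ 2 + m) * Real.sqrt (x ^ 2 + 2 * m))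

section Graph

variable {V : Type} [Fintype V] [DecidableEq V]

open Classical in
/-- Adjacency matrix of the subgraph induced on `S`, padded by zeros. -/
noncomputable def AM (G : SimpleGraph V) (S : Finset V) : Matrix V V ℝ :=
  fun a b => if a ∈ S ∧ b ∈ S ∧ G.Adj a b then 1 else 0

open Classical in
/-- Number of neighbours of `v` in `S`. -/
noncomputable def dg (G : SimpleGraph V) (S : Finset V) (v : V) : ℕ :=
  (S.filter (fun b => G.Adj v b)).card

open Classical in
/-- `Σ_{w ∈ K, w ≠ v} t_w ^ 2`, `t_w` the number of common neighbours of `v` and `w` in `K`. -/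
noncomputable def QQ (G : SimpleGraph V) (K : Finset V) (v : V) : ℕ :=
  ∑ w ∈ K.erase v, ((K.filter (fun u => G.Adj v u ∧ G.Adj u w)).card) ^ 2

/-- Number of edges inside `S`. -/
noncomputable def ne (G : SimpleGraph V) (S : Finset V) : ℕ := (∑ u ∈ S, dg G S u) / 2

/-- Cyclomatic number of `S` (for connected `S`). -/
noncomputable def cy (G : SimpleGraph V) (S : Finset V) : ℤ := (ne G S : ℤ) - (S.card : ℤ) + 1

/-- Connectedness of the induced subgraph on `S`, by cuts. -/
def Conn (G : SimpleGraph V) (S : Finset V) : Prop :=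
  S.Nonempty ∧ ∀ T ⊆ S, T.Nonempty → (∀ a ∈ T, ∀ b ∈ S, b ∉ T → ¬ G.Adj a b) → T = S

open Classical in
/-- The connected components of `S`. -/
noncomputable def comps (G : SimpleGraph V) (S : Finset V) : Finset (Finset V) :=
  S.powerset.filter (fun Z => Conn G Z ∧ ∀ a ∈ Z, ∀ b ∈ S, b ∉ Z → ¬ G.Adj a b)

/-- `s⁺(S) - |S|`. -/
noncomputable def ff (G : SimpleGraph V) (S : Finset V) : ℝ := sp (AM G S) - (S.card : ℝ)

end Graph

/-- The lower bound for `ff` of a connected set of cyclomatic number `c`. -/
noncomputable def phi (c : ℤ) : ℝ := if c ≤ 0 then -1 else if c = 1 then -(2 * kap) else 0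

end Pool.Agent.SQ
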