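import Pool.Agent.SQ.Defs

/-!
# Calculus for the vertex deletion inequality
-/

namespace Pool.Agent.SQ.IntX

open Real Filter Topology

/-- Primitive of `x * arctan (l / x)`. -/
noncomputable def P (l x : ℝ) : ℝ := ((x ^ 2 + l ^ 2) * arctan (l / x) + l * x) / 2

/-- Primitive of `x * arctan (tau g x)`. -/
noncomputable def Gf (g x : ℝ) : ℝ :=
  ((x ^ 2 + g) * arctan (tau g x) + √2 * g * arctan (√2 * (x * √(x ^ 2 + 2 * g)) / g)) / 2

lemma hasDerivAt_P (l : ℝ) {x : ℝ} (hx : 0 < x) : HasDerivAt (P l) (x * arctan (l / x)) x := by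
  have h1 : HasDerivAt (fun y : ℝ => l / y) (-l / x ^ 2) x := by
    have := (hasDerivAt_inv hx.ne').const_mul l
    refine (this.congr_deriv ?_).congr_of_eventuallyEq (Eventually.of_forall fun y => ?_)
    · field_simp
    · simp [div_eq_mul_inv]
  have h2 := h1.arctan
  have h3 : HasDerivAt (fun y : ℝ => y ^ 2 + l ^ 2) (2 * x) x := by
    have := (hasDerivAt_pow 2 x).add_const (l ^ 2)
    simpa using this
  have h4 : HasDerivAt (fun y : ℝ => l * y) l x := by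
    simpa using (hasDerivAt_id x).const_mul l
  have h5 := ((h3.mul h2).add h4).div_const 2
  refine h5.congr_deriv ?_
  have hpos : x ^ 2 + l ^ 2 ≠ 0 := by positivity
  have h1l : 1 + (l / x) ^ 2 = (x ^ 2 + l ^ 2) / x ^ 2 := by field_simp
  rw [h1l]
  field_simp
  ring

lemma tau_pos {g x : ℝ} (hg : 0 < g) (hx : 0 < x) : 0 < tau g x := by
  unfold tau
  positivity

lemma hasDerivAt_G {g : ℝ} (hg : 0 < g) {x : ℝ} (hx : 0 < x) :
    HasDerivAt (Gf g) (x * arctan (tau g x)) x := by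
  have hs : 0 < x ^ 2 + 2 * g := by positivity
  set r : ℝ := √(x ^ 2 + 2 * g) with hr
  have hr0 : 0 < r := Real.sqrt_pos.2 hs
  have hr2 : r ^ 2 = x ^ 2 + 2 * g := Real.sq_sqrt hs.le
  have h20 : √2 ^ 2 = (2 : ℝ) := Real.sq_sqrt (by norm_num)
  have d0 : HasDerivAt (fun y : ℝ => y ^ 2 + 2 * g) (2 * x) x := by
    simpa using (hasDerivAt_pow 2 x).add_const (2 * g)
  have d1 : HasDerivAt (fun y : ℝ => √(y ^ 2 + 2 * g)) (x / r) x := by
    have := d0.sqrt hs.ne'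
    refine this.congr_deriv ?_
    rw [← hr]
    field_simp
  have d2 : HasDerivAt (fun y : ℝ => y ^ 2 + g) (2 * x) x := by
    simpa using (hasDerivAt_pow 2 x).add_const g
  have d3 : HasDerivAt (fun y : ℝ => 2 * y) 2 x := by
    simpa using (hasDerivAt_id x).const_mul (2 : ℝ)
  have d4 := (d3.mul d2).mul d1
  have hden : 2 * x * (x ^ 2 + g) * r ≠ 0 := by positivity
  have d5 : HasDerivAt (tau g)
      (-(g ^ 2 * ((2 * (x ^ 2 + g) + 2 * x * (2 * x)) * r + 2 * x * (x ^ 2 + g) * (x / r))) /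
        (2 * x * (x ^ 2 + g) * r) ^ 2) x := by
    have := (hasDerivAt_const x (g ^ 2)).div d4 hden
    refine this.congr_deriv ?_
    simp only [Pi.mul_apply, ← hr]
    congr 1
    ring
  have d6 := d2.mul d5.arctan
  have d7 : HasDerivAt (fun y : ℝ => √2 * (y * √(y ^ 2 + 2 * g)) / g)
      (√2 * (1 * r + x * (x / r)) / g) x := by
    have := (((hasDerivAt_id x).mul d1).const_mul (√2)).div_const g
    simpa using this
  have d8 := (d7.arctan).const_mul (√2 * g)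
  have d9 := (d6.add d8).div_const 2
  refine d9.congr_deriv ?_
  simp only [← hr]
  have hk : tau g x = g ^ 2 / (2 * x * (x ^ 2 + g) * r) := rfl
  have e1 : 1 + tau g x ^ 2 =
      (2 * (x ^ 2 + g) ^ 2 - g ^ 2) ^ 2 / (2 * x * (x ^ 2 + g) * r) ^ 2 := by
    rw [hk, eq_div_iff (by positivity), div_pow, add_mul, div_mul_cancel₀ _ (by positivity)]
    rw [mul_pow _ r, hr2]
    ring
  have e2 : 1 + (√2 * (x * r) / g) ^ 2 = (2 * (x ^ 2 + g) ^ 2 - g ^ 2) / g ^ 2 := by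
    rw [eq_div_iff (by positivity), div_pow, add_mul, div_mul_cancel₀ _ (by positivity)]
    rw [mul_pow, mul_pow, h20, hr2]
    ring
  have hpos : 0 < 2 * (x ^ 2 + g) ^ 2 - g ^ 2 := by nlinarith [sq_nonneg x, sq_nonneg (x^2), mul_pos hg hg, mul_nonneg hg.le (sq_nonneg x)]
  have hpos' : 2 * (x ^ 2 + g) ^ 2 - g ^ 2 ≠ 0 := hpos.ne'
  rw [e1, e2]
  have e3 : r = (x ^ 2 + 2 * g) / r := by
    rw [eq_div_iff hr0.ne']
    nlinarith [hr2]
  have key : (x ^ 2 + g) * ((-(g ^ 2 * ((2 * (x ^ 2 + g) + 2 * x * (2 * x)) * r +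
      2 * x * (x ^ 2 + g) * (x / r))) / (2 * x * (x ^ 2 + g) * r) ^ 2) /
      ((2 * (x ^ 2 + g) ^ 2 - g ^ 2) ^ 2 / (2 * x * (x ^ 2 + g) * r) ^ 2)) +
      √2 * g * ((√2 * (1 * r + x * (x / r)) / g) / ((2 * (x ^ 2 + g) ^ 2 - g ^ 2) / g ^ 2)) = 0 := by
    have a1 : (-(g ^ 2 * ((2 * (x ^ 2 + g) + 2 * x * (2 * x)) * r +
      2 * x * (x ^ 2 + g) * (x / r))) / (2 * x * (x ^ 2 + g) * r) ^ 2) /
      ((2 * (x ^ 2 + g) ^ 2 - g ^ 2) ^ 2 / (2 * x * (x ^ 2 + g) * r) ^ 2) =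
      -(g ^ 2 * ((2 * (x ^ 2 + g) + 2 * x * (2 * x)) * r +
      2 * x * (x ^ 2 + g) * (x / r))) / (2 * (x ^ 2 + g) ^ 2 - g ^ 2) ^ 2 := by
      rw [div_div_div_cancel_right₀]
      positivity
    rw [a1]
    have a2 : (2 * (x ^ 2 + g) + 2 * x * (2 * x)) * r + 2 * x * (x ^ 2 + g) * (x / r) =
        4 * (2 * (x ^ 2 + g) ^ 2 - g ^ 2) / r := by
      rw [eq_div_iff hr0.ne', add_mul]
      have h7 : 2 * x * (x ^ 2 + g) * (x / r) * r = 2 * x * (x ^ 2 + g) * x := by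
        field_simp
      rw [h7]
      linear_combination (2 * (x ^ 2 + g) + 2 * x * (2 * x)) * hr2
    have a3 : 1 * r + x * (x / r) = 2 * (x ^ 2 + g) / r := by
      rw [eq_div_iff hr0.ne', add_mul]
      have h7 : x * (x / r) * r = x * x := by
        field_simp
      rw [h7]
      linear_combination hr2
    rw [a2, a3]
    have a4 : √2 * g * (√2 * (2 * (x ^ 2 + g) / r) / g / ((2 * (x ^ 2 + g) ^ 2 - g ^ 2) / g ^ 2)) =
        √2 ^ 2 * (g ^ 2 * (2 * (x ^ 2 + g) / r)) / (2 * (x ^ 2 + g) ^ 2 - g ^ 2) := by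
      field_simp
    rw [a4, h20]
    field_simp
    ring
  linear_combination (1 / 2) * key

lemma abs_arctan_sub_le (u : ℝ) : |arctan u - u| ≤ |u| ^ 3 := by
  have hd : ∀ t ∈ Set.univ, HasDerivWithinAt (fun y : ℝ => arctan y - y)
      (1 / (1 + t ^ 2) - 1) Set.univ t := fun t _ =>
    ((hasDerivAt_arctan t).sub (hasDerivAt_id t)).hasDerivWithinAt
  have hd' : ∀ t ∈ Set.Icc (-|u|) |u|, HasDerivWithinAt (fun y : ℝ => arctan y - y)
      (1 / (1 + t ^ 2) - 1) (Set.Icc (-|u|) |u|) t := fun t _ =>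
    ((hasDerivAt_arctan t).sub (hasDerivAt_id t)).hasDerivWithinAt
  have hb : ∀ t ∈ Set.Icc (-|u|) |u|, ‖1 / (1 + t ^ 2) - 1‖ ≤ |u| ^ 2 := by
    intro t ht
    have h1 : |t| ≤ |u| := abs_le.2 ⟨ht.1, ht.2⟩
    have h2 : t ^ 2 ≤ |u| ^ 2 := by
      rw [← sq_abs t]
      exact pow_le_pow_left₀ (abs_nonneg _) h1 2
    have h3 : 1 / (1 + t ^ 2) - 1 = -(t ^ 2 / (1 + t ^ 2)) := by
      have : (1 + t ^ 2) ≠ 0 := by positivity
      field_simp
      ring
    rw [h3, norm_neg, Real.norm_of_nonneg (by positivity)]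
    calc t ^ 2 / (1 + t ^ 2) ≤ t ^ 2 := div_le_self (sq_nonneg _) (by nlinarith [sq_nonneg t])
      _ ≤ |u| ^ 2 := h2
  have h := Convex.norm_image_sub_le_of_norm_hasDerivWithin_le hd' hb (convex_Icc _ _)
    (x := 0) (y := u) ⟨by simp, by simp⟩ ⟨neg_abs_le u, le_abs_self u⟩
  simp only [arctan_zero, sub_zero, Real.norm_eq_abs] at h
  calc |arctan u - u| ≤ |u| ^ 2 * |u| := h
    _ = |u| ^ 3 := by ring

end Pool.Agent.SQ.IntX
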