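import Pool.Agent.SQ.Defs

/-!
# Positive square energy (MP_2d493b_co): exact statements of the modules
-/

namespace Pool.Agent.SQ

open Finset

/-! ### Analysis -/

/-- Comparison of `Σ λ|λ|` from comparison of the arguments (exact integral). -/
def Stmt_Int : Prop := ∀ (ι : Type) [Fintype ι] (l u : ι → ℝ) (m : ℝ), 0 < m →
  ∑ i, l i = 0 → ∑ i, u i = 0 →
  (∀ x : ℝ, 0 < x →
    ∑ i, Real.arctan (l i / x) - ∑ i, Real.arctan (u i / x) ≤ Real.arctan (tau m x)) →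
  ∑ i, u i * |u i| - 2 * kap * m ≤ ∑ i, l i * |l i|

/-- From the quotient of the determinants to the difference of the sums of arctangents. -/
def Stmt_Arg : Prop := ∀ (ι : Type) [Fintype ι] (l u : ι → ℝ) (t : ℝ → ℝ),
  (∀ x : ℝ, 0 < x → ∃ ρ : ℂ, ∏ i, ((x : ℂ) + Complex.I * (l i : ℂ)) =
      ρ * ∏ i, ((x : ℂ) + Complex.I * (u i : ℂ)) ∧ 0 < ρ.re ∧ ρ.im ≤ t x * ρ.re) →
  ∀ x : ℝ, 0 < x →
    ∑ i, Real.arctan (l i / x) - ∑ i, Real.arctan (u i / x) ≤ Real.arctan (t x)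

/-- Determinant of `x + i A` in terms of the eigenvalues of `A`. -/
def Stmt_Det : Prop := ∀ (V : Type) [Fintype V] [DecidableEq V] (A : Matrix V V ℝ)
  (hA : A.IsHermitian) (x : ℝ),
  dt (fun _ => x) A = ∏ i, ((x : ℂ) + Complex.I * ((hA.eigenvalues i : ℝ) : ℂ))

/-- Spectral facts on `sp`. -/
def Stmt_Spec : Prop := ∀ (V : Type) [Fintype V] [DecidableEq V] (A : Matrix V V ℝ)
  (hA : A.IsHermitian),
  -- the positive part
  (∃ P : Matrix V V ℝ, P.PosSemidef ∧ (P - A).PosSemidef ∧ ∑ a, ∑ b, P a b ^ 2 = sp A) ∧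
  -- minimality
  (∀ Q : Matrix V V ℝ, (Q - A).PosSemidef → sp A ≤ ∑ a, ∑ b, Q a b ^ 2) ∧
  -- trace and the sum of λ|λ|
  (∑ i, hA.eigenvalues i = ∑ a, A a a) ∧
  (2 * sp A = ∑ a, ∑ b, A a b ^ 2 + ∑ i, hA.eigenvalues i * |hA.eigenvalues i|)

/-- The averaging inequality (superadditivity is the case of two parts). -/
def Stmt_Avg : Prop := ∀ (V : Type) [Fintype V] [DecidableEq V] (G : SimpleGraph V)
  (S : Finset V) (P : Finset (Finset V)),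
  (∀ B ∈ P, ∀ C ∈ P, B ≠ C → Disjoint B C) → P.biUnion id = S →
  ∑ B ∈ P, sp (AM G (S \ B)) ≤ ((P.card : ℝ) - 1) * sp (AM G S)

/-- Superadditivity over a partition. -/
def Stmt_Sup : Prop := ∀ (V : Type) [Fintype V] [DecidableEq V] (G : SimpleGraph V)
  (S : Finset V) (P : Finset (Finset V)),
  (∀ B ∈ P, ∀ C ∈ P, B ≠ C → Disjoint B C) → P.biUnion id = S →
  ∑ B ∈ P, sp (AM G B) ≤ sp (AM G S)

/-- The bound for the pivot (vertex `v`, graph `K`, diagonal `X ≥ x`). -/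
def Stmt_Piv : Prop := ∀ (V : Type) [Fintype V] [DecidableEq V] (G : SimpleGraph V)
  (K : Finset V) (v : V), v ∈ K → ∀ m x : ℝ, 0 < m → 0 < x → (QQ G K v : ℝ) ≤ m ^ 2 →
  ∀ X : V → ℝ, (∀ a, x ≤ X a) → ∃ ρ : ℂ, dt X (AM G K) = ρ * dt X (AM G (K.erase v)) ∧
    0 < ρ.re ∧ ρ.im ≤ tau m x * ρ.re

/-- Elimination of the leaves and isolated vertices different from `v`. -/
def Stmt_Leaf : Prop := ∀ (V : Type) [Fintype V] [DecidableEq V] (G : SimpleGraph V)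
  (S : Finset V) (v : V), v ∈ S → ∃ K ⊆ S, v ∈ K ∧ (∀ u ∈ K, u ≠ v → 2 ≤ dg G K u) ∧
  ∀ X : V → ℝ, (∀ a, 0 < X a) → ∃ X' : V → ℝ, (∀ a, X a ≤ X' a) ∧
    ∃ r s : ℝ, 0 < r ∧ 0 < s ∧ dt X (AM G S) = (r : ℂ) * dt X' (AM G K) ∧
      dt X (AM G (S.erase v)) = (s : ℂ) * dt X' (AM G (K.erase v))

/-- Deletion of a vertex. -/
def Stmt_Vert : Prop := ∀ (V : Type) [Fintype V] [DecidableEq V] (G : SimpleGraph V)
  (S : Finset V) (v : V), v ∈ S → ∃ K ⊆ S, v ∈ K ∧ (∀ u ∈ K, u ≠ v → 2 ≤ dg G K u) ∧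
  sp (AM G (S.erase v)) + (dg G S v : ℝ) - kap * Real.sqrt (QQ G K v : ℝ) ≤ sp (AM G S)

/-! ### Combinatorics -/

/-- Counting edges. -/
def Stmt_Cnt : Prop := ∀ (V : Type) [Fintype V] [DecidableEq V] (G : SimpleGraph V)
  (S : Finset V), ∑ u ∈ S, dg G S u = 2 * ne G S ∧
  ∀ v ∈ S, ne G S = ne G (S.erase v) + dg G S v

/-- Components. -/
def Stmt_Comp : Prop := ∀ (V : Type) [Fintype V] [DecidableEq V] (G : SimpleGraph V)
  (S : Finset V),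
  (∀ Z ∈ comps G S, ∀ Y ∈ comps G S, Z ≠ Y → Disjoint Z Y) ∧
  (comps G S).biUnion id = S ∧
  (∑ Z ∈ comps G S, Z.card = S.card) ∧
  (∑ Z ∈ comps G S, ne G Z = ne G S) ∧
  (∀ v, ∑ Z ∈ comps G S, dg G Z v = dg G S v) ∧
  (∀ T ⊆ S, Conn G T → ∃ Z ∈ comps G S, T ⊆ Z)

/-- Components of a connected set minus a vertex. -/
def Stmt_CySum : Prop := ∀ (V : Type) [Fintype V] [DecidableEq V] (G : SimpleGraph V)
  (S : Finset V) (v : V), Conn G S → v ∈ S →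
  (∀ Z ∈ comps G (S.erase v), 1 ≤ dg G Z v) ∧
  cy G S = ∑ Z ∈ comps G (S.erase v), (cy G Z - 1 + (dg G Z v : ℤ))

/-- Monotonicity of the cyclomatic number. -/
def Stmt_Mono : Prop := ∀ (V : Type) [Fintype V] [DecidableEq V] (G : SimpleGraph V)
  (Z Y : Finset V), Conn G Z → Y ⊆ Z → Y.Nonempty → cy G Y ≤ cy G Z

/-- A vertex on a cycle. -/
def Stmt_Cyc : Prop := ∀ (V : Type) [Fintype V] [DecidableEq V] (G : SimpleGraph V)
  (S : Finset V), Conn G S → 1 ≤ cy G S → cy G S ≤ 2 →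
  ∃ v ∈ S, ∑ Z ∈ comps G (S.erase v), cy G Z ≤ cy G S - 1

/-- Laminar partition when there is no hub. -/
def Stmt_Lam : Prop := ∀ (V : Type) [Fintype V] [DecidableEq V] (G : SimpleGraph V)
  (S : Finset V), Conn G S → (∀ v ∈ S, ∃ Z ∈ comps G (S.erase v), 2 ≤ cy G Z) →
  ∃ P : Finset (Finset V), (∀ B ∈ P, ∀ C ∈ P, B ≠ C → Disjoint B C) ∧ P.biUnion id = S ∧
    2 ≤ P.card ∧ ∀ B ∈ P, B.Nonempty ∧ ∀ Z ∈ comps G (S \ B), 2 ≤ cy G Z

/-- Counting two-step walks in the core at a hub. -/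
def Stmt_HubQ : Prop := ∀ (V : Type) [Fintype V] [DecidableEq V] (G : SimpleGraph V)
  (S K : Finset V) (v : V), Conn G S → v ∈ S → K ⊆ S → v ∈ K →
  (∀ u ∈ K, u ≠ v → 2 ≤ dg G K u) → (∀ Z ∈ comps G (S.erase v), cy G Z ≤ 1) →
  (QQ G K v : ℤ) ≤ ∑ Z ∈ comps G (S.erase v),
    2 * (dg G Z v : ℤ) * ((dg G Z v : ℤ) - 1 + cy G Z)

/-- The numerical inequality at a hub (abstract form). -/
def Stmt_Num : Prop := ∀ (ι : Type) (s : Finset ι) (r c : ι → ℤ) (Q : ℝ),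
  (∀ i ∈ s, 1 ≤ r i ∧ 0 ≤ c i ∧ c i ≤ 1) →
  0 ≤ Q → Q ≤ ((∑ i ∈ s, 2 * r i * (r i - 1 + c i) : ℤ) : ℝ) →
  ((∑ i ∈ s, (c i - 1 + r i) = 0) ∨ (3 ≤ ∑ i ∈ s, (c i - 1 + r i)) ∨
    (∑ i ∈ s, c i ≤ ∑ i ∈ s, (c i - 1 + r i) - 1)) →
  phi (∑ i ∈ s, (c i - 1 + r i)) ≤
    ∑ i ∈ s, (phi (c i) + (r i : ℝ)) - 1 - kap * Real.sqrt Q

/-- The hub case. -/
def Stmt_Hub : Prop := ∀ (V : Type) [Fintype V] [DecidableEq V] (G : SimpleGraph V)
  (S : Finset V) (v : V), Conn G S → v ∈ S → (∀ Z ∈ comps G (S.erase v), cy G Z ≤ 1) →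
  (cy G S = 0 ∨ 3 ≤ cy G S ∨ ∑ Z ∈ comps G (S.erase v), cy G Z ≤ cy G S - 1) →
  (∀ Z ∈ comps G (S.erase v), phi (cy G Z) ≤ ff G Z) → phi (cy G S) ≤ ff G S

/-- The main theorem for connected sets. -/
def Stmt_Main : Prop := ∀ (V : Type) [Fintype V] [DecidableEq V] (G : SimpleGraph V)
  (S : Finset V), Conn G S → phi (cy G S) ≤ ff G S

/-- The main theorem in standard language. -/
def Stmt_Final : Prop := ∀ (V : Type) [Fintype V] [DecidableEq V] (G : SimpleGraph V)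
  [DecidableRel G.Adj], G.Connected → Fintype.card V + 1 ≤ G.edgeFinset.card →
  (Fintype.card V : ℝ) ≤ sp (G.adjMatrix ℝ)

end Pool.Agent.SQ
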